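import Pool.Agent.N686.DI.Ker
import Pool.Agent.N686.EL.Log2
import Pool.Agent.N686.EL.Core
import Pool.Agent.N686.EL.Ener2
set_option autoImplicit false

/-!
Families of univalent functions with disjoint images.
-/

namespace Pool.Agent.N686.RR

open MeasureTheory Set Filter Topology Metric Polynomial

open Pool.Agent.Y775.CC (psi psi_self psi_ne)

open Pool.Agent.N686.EL (diff_of_exp dslope_symm continuousOn_dslope2)

/-- univalent functions with disjoint images on a convex open neighbourhood of `0` -/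
structure Uni {n : ℕ} (V : Set ℂ) (φ : Fin n → ℂ → ℂ) : Prop where
  isOpen : IsOpen V
  convex : Convex ℝ V
  zero : (0 : ℂ) ∈ V
  hasDeriv : ∀ i, ∀ u ∈ V, ∃ d : ℂ, d ≠ 0 ∧ HasDerivAt (φ i) d u
  eq_of_eq' : ∀ i j : Fin n, ∀ u ∈ V, ∀ v ∈ V, φ i u = φ j v → i = j ∧ u = v

namespace Uni

variable {n : ℕ} {V : Set ℂ} {φ : Fin n → ℂ → ℂ} (H : Uni V φ)

include H

theorem eq_of_eq {i j : Fin n} {u v : ℂ} (hu : u ∈ V) (hv : v ∈ V) (h : φ i u = φ j v) :
    i = j ∧ u = v := H.eq_of_eq' i j u hu v hv h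

theorem differentiableOn (i : Fin n) : DifferentiableOn ℂ (φ i) V := fun u hu => by
  obtain ⟨d, -, hd⟩ := H.hasDeriv i u hu
  exact hd.differentiableAt.differentiableWithinAt

theorem continuousOn (i : Fin n) : ContinuousOn (φ i) V := (H.differentiableOn i).continuousOn

theorem deriv_ne_zero (i : Fin n) {u : ℂ} (hu : u ∈ V) : deriv (φ i) u ≠ 0 := by
  obtain ⟨d, h0, hd⟩ := H.hasDeriv i u hu
  rw [hd.deriv]
  exact h0

end Uni

variable {n : ℕ} {V : Set ℂ} {φ : Fin n → ℂ → ℂ} (H : Uni V φ)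

include H

theorem differentiableOn_psi (i j : Fin n) {v : ℂ} (hv : v ∈ V) :
    DifferentiableOn ℂ (psi φ i j v) V := by
  by_cases h : i = j
  · subst h
    have e : psi φ i i v = dslope (φ i) v := funext fun u => psi_self i v u
    rw [e]
    exact (Complex.differentiableOn_dslope (H.isOpen.mem_nhds hv)).2 (H.differentiableOn i)
  · have e : psi φ i j v = fun u => φ i u - φ j v := funext fun u => psi_ne h v u
    rw [e]
    exact (H.differentiableOn i).sub_const _

theorem psi_ne_zero (i j : Fin n) {v u : ℂ} (hv : v ∈ V) (hu : u ∈ V) : psi φ i j v u ≠ 0 := by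
  by_cases h : i = j
  · subst h
    rw [psi_self]
    by_cases huv : u = v
    · rw [huv, dslope_same]
      exact H.deriv_ne_zero i hv
    · intro h0
      have h1 := sub_smul_dslope (φ i) v u
      rw [h0, smul_zero] at h1
      exact huv (H.eq_of_eq hu hv (sub_eq_zero.1 h1.symm)).2
  · rw [psi_ne h]
    intro h0
    exact h (H.eq_of_eq hu hv (sub_eq_zero.1 h0)).1

theorem continuousOn_psi2 (i j : Fin n) :
    ContinuousOn (fun p : ℂ × ℂ => psi φ i j p.2 p.1) (V ×ˢ V) := by
  by_cases h : i = j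
  · subst h
    simp only [psi_self]
    exact continuousOn_dslope2 H.isOpen (H.differentiableOn i)
  · simp only [psi_ne h]
    exact ((H.continuousOn i).comp continuousOn_fst fun p hp => hp.1).sub
      ((H.continuousOn j).comp continuousOn_snd fun p hp => hp.2)

theorem differentiableOn_psi' (i j : Fin n) {u : ℂ} (hu : u ∈ V) :
    DifferentiableOn ℂ (fun v => psi φ i j v u) V := by
  by_cases h : i = j
  · subst h
    have e : (fun v => psi φ i i v u) = dslope (φ i) u := funext fun v => by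
      rw [psi_self, dslope_symm]
    rw [e]
    exact (Complex.differentiableOn_dslope (H.isOpen.mem_nhds hu)).2 (H.differentiableOn i)
  · have e : (fun v => psi φ i j v u) = fun v => φ i u - φ j v := funext fun v => psi_ne h v u
    rw [e]
    exact (H.differentiableOn j).const_sub _

theorem psi_comm (i j : Fin n) (u v : ℂ) : ‖psi φ i j v u‖ = ‖psi φ j i u v‖ := by
  by_cases h : i = j
  · subst h
    rw [psi_self, psi_self, dslope_symm]
  · rw [psi_ne h, psi_ne (Ne.symm h), norm_sub_rev]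

theorem exists_log2 (i j : Fin n) : ∃ A : ℂ → ℂ → ℂ,
    ContinuousOn (fun p : ℂ × ℂ => A p.1 p.2) (V ×ˢ V) ∧
    (∀ s ∈ V, ∀ t ∈ V, (A s t).re = Real.log ‖psi φ i j t s‖) ∧
    (∀ t ∈ V, DifferentiableOn ℂ (fun s => A s t) V) ∧
    (∀ s ∈ V, DifferentiableOn ℂ (fun t => A s t) V) := by
  have h0V : (0 : ℂ) ∈ V := H.zero
  have hsc : IsSimplyConnected (V ×ˢ V) := by
    have hc : Convex ℝ (V ×ˢ V) := H.convex.prod H.convex
    have : ContractibleSpace ((V ×ˢ V : Set (ℂ × ℂ))) := hc.contractibleSpace ⟨(0, 0), h0V, h0V⟩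
    exact SimplyConnectedSpace.ofContractible _
  obtain ⟨B, hBc, hB⟩ := Complex.exists_continuousOn_eqOn_exp_comp hsc
    (H.isOpen.prod H.isOpen) (continuousOn_psi2 H i j) (by
      rintro ⟨⟨s, t⟩, ⟨hs, ht⟩, h⟩
      exact psi_ne_zero H i j ht hs h)
  have hexp : ∀ s ∈ V, ∀ t ∈ V, Complex.exp (B (s, t)) = psi φ i j t s := fun s hs t ht =>
    hB (⟨hs, ht⟩ : (s, t) ∈ V ×ˢ V)
  refine ⟨fun s t => B (s, t), hBc, fun s hs t ht => ?_, fun t ht => ?_, fun s hs => ?_⟩
  · rw [← hexp s hs t ht, Complex.norm_exp, Real.log_exp]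
  · refine diff_of_exp H.isOpen ?_ (differentiableOn_psi H i j ht) fun s hs => hexp s hs t ht
    exact hBc.comp (continuousOn_id.prodMk continuousOn_const) fun s hs => ⟨hs, ht⟩
  · refine diff_of_exp H.isOpen ?_ (differentiableOn_psi' H i j hs) fun t ht => hexp s hs t ht
    exact hBc.comp (continuousOn_const.prodMk continuousOn_id) fun t ht => ⟨hs, ht⟩

end Pool.Agent.N686.RR
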