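import Pool.Agent.N686.RR.Path2
import Pool.Agent.N686.RR.Uni
set_option autoImplicit false

/-!
The branches and the lifts.
-/

namespace Pool.Agent.N686.RR

open Set Filter Topology Complex MeasureTheory Polynomial

open Pool.Agent.N76.EC (th Wp Zp Cv exists_lift lift_unique Wp_of_sin contDiff_Wp Wp_add_one)

open Pool.Agent.Y775.CC (psi psi_self psi_ne)

open scoped Real ComplexConjugate

/-- a local inverse -/
theorem exists_inv {G : ℂ[X]} {a : ℂ} (ha : (derivative G).eval a ≠ 0) :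
    ∃ g : ℂ → ℂ, ContDiffAt ℂ 2 g (G.eval a) ∧ (∀ᶠ x in 𝓝 a, g (G.eval x) = x) ∧
      HasDerivAt g ((derivative G).eval a)⁻¹ (G.eval a) := by
  have h0 : ContDiff ℂ 2 fun x => G.eval x := by
    have h := G.contDiff_aeval (𝕜 := ℂ) 2
    simpa [Polynomial.coe_aeval_eq_eval] using h
  have h1 : ContDiffAt ℂ 2 (fun x => G.eval x) a := h0.contDiffAt
  have h2 : HasFDerivAt (fun x => G.eval x)
      ((ContinuousLinearEquiv.unitsEquivAut ℂ (Units.mk0 _ ha) : ℂ ≃L[ℂ] ℂ) : ℂ →L[ℂ] ℂ) a :=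
    ((G.hasStrictDerivAt a).hasStrictFDerivAt_equiv ha).hasFDerivAt
  have h3 : ∀ᶠ x in 𝓝 a, h1.localInverse h2 (by norm_num) (G.eval x) = x :=
    (h1.hasStrictFDerivAt' h2 (by norm_num)).eventually_left_inverse
  refine ⟨h1.localInverse h2 (by norm_num), h1.to_localInverse h2 (by norm_num), h3, ?_⟩
  have h4 : ContDiffAt ℂ 2 (h1.localInverse h2 (by norm_num)) (G.eval a) :=
    h1.to_localInverse h2 (by norm_num)
  have h5 := (h4.differentiableAt (by norm_num)).hasDerivAt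
  have h6 := h5.comp a (G.hasDerivAt a)
  have h7 : HasDerivAt (fun x : ℂ => x) 1 a := hasDerivAt_id a
  have h8 : HasDerivAt (fun x => h1.localInverse h2 (by norm_num) (G.eval x)) 1 a :=
    h7.congr_of_eventuallyEq h3
  have h9 := h6.unique h8
  refine h5.congr_deriv ?_
  exact eq_inv_of_mul_eq_one_left h9

/-- the condition on the critical values -/
def CvR (G : ℂ[X]) (κ : ℝ) : Prop :=
  ∀ x : ℂ, (derivative G).eval x = 0 → ∃ v : ℝ, G.eval x = v ∧ 1 / 2 ≤ |v - κ| ∧ v ≠ 2 ∧ v ≠ -2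

variable {G : ℂ[X]} {κ : ℝ}

theorem not_Cv (hG : CvR G κ) {w : ℂ} (hw : ‖w‖ < 1) : (κ : ℂ) + ff w ∉ Cv G := by
  rintro ⟨x, hx, h⟩
  obtain ⟨v, hv, h1, -⟩ := hG x hx
  have h2 : ff w = ((v - κ : ℝ) : ℂ) := by
    simp only at h
    rw [hv] at h
    push_cast
    linear_combination -h
  have h3 := ff_real hw h2
  linarith

theorem not_Cv2 (hG : CvR G κ) : (2 : ℂ) ∉ Cv G := by
  rintro ⟨x, hx, h⟩
  obtain ⟨v, hv, -, h2, -⟩ := hG x hx
  simp only at h
  rw [hv] at h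
  exact h2 (by exact_mod_cast h)

theorem not_Cv2' (hG : CvR G κ) : (-2 : ℂ) ∉ Cv G := by
  rintro ⟨x, hx, h⟩
  obtain ⟨v, hv, -, -, h2⟩ := hG x hx
  simp only at h
  rw [hv] at h
  exact h2 (by exact_mod_cast h)

theorem ff_cont : ContinuousOn ff {w : ℂ | 1 + w ^ 2 ≠ 0} := by
  unfold ff
  exact continuousOn_id.div (by fun_prop) fun _ h => h

theorem ff_zero : ff 0 = 0 := by simp [ff]


theorem mem_D {w : ℂ} : w ∈ (Metric.ball (0 : ℂ) 1) ↔ ‖w‖ < 1 := mem_ball_zero_iff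

theorem sc_D : SimplyConnectedSpace ((Metric.ball (0 : ℂ) 1) : Set ℂ) ∧ LocallyPathConnectedSpace ((Metric.ball (0 : ℂ) 1) : Set ℂ) := by
  constructor
  · have : ContractibleSpace ((Metric.ball (0 : ℂ) 1) : Set ℂ) :=
      (convex_ball 0 1).contractibleSpace ⟨0, Metric.mem_ball_self one_pos⟩
    exact SimplyConnectedSpace.ofContractible _
  · exact Metric.isOpen_ball.locallyPathConnectedSpace

theorem cont_f : Continuous fun w : ((Metric.ball (0 : ℂ) 1) : Set ℂ) => (κ : ℂ) + ff w :=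
  continuous_const.add (ff_cont.comp_continuous continuous_subtype_val fun w =>
    one_add_sq_ne' (mem_D.1 w.2))

/-- the branch at `b` -/
theorem exists_branch (hG : CvR G κ) {b : ℂ} (hb : G.eval b = κ) :
    ∃ Φ : ℂ → ℂ, ContinuousOn Φ (Metric.ball (0 : ℂ) 1) ∧ Φ 0 = b ∧ ∀ w ∈ (Metric.ball (0 : ℂ) 1), G.eval (Φ w) = κ + ff w := by
  classical
  obtain ⟨i1, i2⟩ := sc_D
  obtain ⟨F, hFc, hF0, hF⟩ := exists_lift (A := ((Metric.ball (0 : ℂ) 1) : Set ℂ)) (G := G) cont_f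
    (fun w => not_Cv hG (mem_D.1 w.2)) ⟨0, Metric.mem_ball_self one_pos⟩ (x₀ := b) (by
      rw [hb]
      show (κ : ℂ) = κ + ff 0
      rw [ff_zero, add_zero])
  refine ⟨fun w => if h : w ∈ (Metric.ball (0 : ℂ) 1) then F ⟨w, h⟩ else 0, ?_, ?_, ?_⟩
  · rw [continuousOn_iff_continuous_domRestrict]
    have e : ((Metric.ball (0 : ℂ) 1) : Set ℂ).domRestrict (fun w => if h : w ∈ (Metric.ball (0 : ℂ) 1) then F ⟨w, h⟩ else 0) = F := by
      funext w
      simp only [domRestrict_apply, dif_pos w.2]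
    rw [e]
    exact hFc
  · simp only [dif_pos (Metric.mem_ball_self one_pos : (0 : ℂ) ∈ (Metric.ball (0 : ℂ) 1))]
    exact hF0
  · intro w hw
    simp only [dif_pos hw]
    exact hF ⟨w, hw⟩

theorem branch_unique (hG : CvR G κ) {Φ Φ' : ℂ → ℂ} (hc : ContinuousOn Φ (Metric.ball (0 : ℂ) 1)) (hc' : ContinuousOn Φ' (Metric.ball (0 : ℂ) 1))
    (h : ∀ w ∈ (Metric.ball (0 : ℂ) 1), G.eval (Φ w) = κ + ff w) (h' : ∀ w ∈ (Metric.ball (0 : ℂ) 1), G.eval (Φ' w) = κ + ff w) {u : ℂ}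
    (hu : u ∈ (Metric.ball (0 : ℂ) 1)) (he : Φ u = Φ' u) : ∀ w ∈ (Metric.ball (0 : ℂ) 1), Φ w = Φ' w := by
  obtain ⟨i1, i2⟩ := sc_D
  have h1 := lift_unique (A := ((Metric.ball (0 : ℂ) 1) : Set ℂ)) (G := G) cont_f (fun w => not_Cv hG (mem_D.1 w.2))
    (F := fun w => Φ w) (F' := fun w => Φ' w)
    (continuousOn_iff_continuous_domRestrict.1 hc) (continuousOn_iff_continuous_domRestrict.1 hc')
    (fun w => h w w.2) (fun w => h' w w.2) (a₀ := ⟨u, hu⟩) he
  exact fun w hw => congrFun h1 ⟨w, hw⟩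

/-- the branches -/
structure Br (G : ℂ[X]) (κ : ℝ) {n : ℕ} (b : Fin n → ℂ) (Φ : Fin n → ℂ → ℂ) : Prop where
  cv : CvR G κ
  inj : Function.Injective b
  cont : ∀ k, ContinuousOn (Φ k) (Metric.ball (0 : ℂ) 1)
  zero : ∀ k, Φ k 0 = b k
  ev : ∀ k, ∀ w ∈ (Metric.ball (0 : ℂ) 1), G.eval (Φ k w) = κ + ff w

theorem exists_Br (hG : CvR G κ) {n : ℕ} {b : Fin n → ℂ} (hinj : Function.Injective b)
    (hb : ∀ k, G.eval (b k) = κ) : ∃ Φ, Br G κ b Φ := by
  choose Φ h1 h2 h3 using fun k => exists_branch hG (hb k)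
  exact ⟨Φ, hG, hinj, h1, h2, h3⟩

namespace Br

variable {n : ℕ} {b : Fin n → ℂ} {Φ : Fin n → ℂ → ℂ} (B : Br G κ b Φ)

include B

theorem uni : Uni (Metric.ball (0 : ℂ) 1) Φ where
  isOpen := Metric.isOpen_ball
  convex := convex_ball 0 1
  zero := Metric.mem_ball_self one_pos
  hasDeriv := by
    intro k w hw
    have hw' := mem_D.1 hw
    have hd : (derivative G).eval (Φ k w) ≠ 0 := fun h => not_Cv B.cv hw' ⟨_, h, B.ev k w hw⟩
    obtain ⟨g, -, hg, hg'⟩ := exists_inv hd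
    have hc : ContinuousAt (Φ k) w := (B.cont k).continuousAt (Metric.isOpen_ball.mem_nhds hw)
    have h3 : Φ k =ᶠ[𝓝 w] fun u => g (κ + ff u) := by
      filter_upwards [hc.eventually hg, Metric.isOpen_ball.mem_nhds hw] with u hu huD
      rw [← B.ev k u huD, hu]
    rw [B.ev k w hw] at hg'
    have h4 : HasDerivAt (fun u => (κ : ℂ) + ff u) ((1 - w ^ 2) / (1 + w ^ 2) ^ 2) w :=
      (ff_diff hw').const_add _
    have h5 : HasDerivAt (fun u => g (κ + ff u))
        (((derivative G).eval (Φ k w))⁻¹ * ((1 - w ^ 2) / (1 + w ^ 2) ^ 2)) w :=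
      HasDerivAt.comp w hg' h4
    exact ⟨_, mul_ne_zero (inv_ne_zero hd) (ff_deriv_ne hw'), h5.congr_of_eventuallyEq h3⟩
  eq_of_eq' := by
    intro i j u hu v hv h
    have h1 : (κ : ℂ) + ff u = κ + ff v := by rw [← B.ev i u hu, ← B.ev j v hv, h]
    have h2 : u = v := ff_inj (mem_D.1 hu) (mem_D.1 hv) (add_left_cancel h1)
    subst h2
    refine ⟨B.inj ?_, rfl⟩
    rw [← B.zero i, ← B.zero j]
    exact branch_unique B.cv (B.cont i) (B.cont j) (B.ev i) (B.ev j) hu h 0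
      (Metric.mem_ball_self one_pos)

end Br

/-! ### The lifts over the square -/

/-- the clamp -/
noncomputable def cl (R : ℝ) : ℝ := max 0 (min R 1)

theorem cl_cont : Continuous cl := by
  unfold cl
  fun_prop

theorem cl_mem (R : ℝ) : 0 ≤ cl R ∧ cl R ≤ 1 := ⟨le_max_left _ _, max_le zero_le_one (min_le_right _ _)⟩

theorem cl_eq {R : ℝ} (h0 : 0 ≤ R) (h1 : R ≤ 1) : cl R = R := by
  unfold cl
  rw [min_eq_left h1, max_eq_right h0]

theorem cl_zero : cl 0 = 0 := cl_eq le_rfl zero_le_one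

theorem cl_one : cl 1 = 1 := cl_eq zero_le_one le_rfl

/-- the parameter -/
noncomputable def qp (w : ℝ → ℂ) (x : ℝ × ℝ) : ℂ := (cl x.1 : ℂ) * w x.2

section

variable {η : ℝ} {w l : ℝ → ℂ} (P : Pth κ η w l)

include P

theorem qp_cont : Continuous (qp w) :=
  (Complex.continuous_ofReal.comp (cl_cont.comp continuous_fst)).mul (P.cont.comp continuous_snd)

theorem qp_norm (x : ℝ × ℝ) : ‖qp w x‖ = cl x.1 * ‖w x.2‖ := by
  unfold qp
  rw [norm_mul, Complex.norm_real, Real.norm_eq_abs, abs_of_nonneg (cl_mem _).1]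

theorem qp_cases (x : ℝ × ℝ) : ‖qp w x‖ < 1 ∨
    (cl x.1 = 1 ∧ Real.sin (2 * π * x.2) = 0) := by
  by_cases h : Real.sin (2 * π * x.2) = 0
  · by_cases h1 : cl x.1 = 1
    · exact Or.inr ⟨h1, h⟩
    · left
      rw [qp_norm P]
      have h2 : cl x.1 < 1 := lt_of_le_of_ne (cl_mem _).2 h1
      have h3 := P.le x.2
      have h4 := (cl_mem x.1).1
      nlinarith [norm_nonneg (w x.2)]
  · left
    rw [qp_norm P]
    have h3 := P.lt x.2 h
    have h4 := cl_mem x.1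
    nlinarith [norm_nonneg (w x.2)]

theorem qp_ne (x : ℝ × ℝ) : 1 + qp w x ^ 2 ≠ 0 := by
  rcases qp_cases P x with h | ⟨h, -⟩
  · exact one_add_sq_ne' h
  · unfold qp
    rw [h, Complex.ofReal_one, one_mul]
    exact P.ne _

theorem qp_Cv (hG : CvR G κ) (x : ℝ × ℝ) : (κ : ℂ) + ff (qp w x) ∉ Cv G := by
  rcases qp_cases P x with h | ⟨h, h'⟩
  · exact not_Cv hG h
  · unfold qp
    rw [h, Complex.ofReal_one, one_mul, P.eq, add_sub_cancel]
    rcases Wp_of_sin (η := η) h' with h1 | h1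
    · rw [h1]
      exact not_Cv2 hG
    · rw [h1]
      exact not_Cv2' hG

theorem qp_fcont : Continuous fun x => (κ : ℂ) + ff (qp w x) :=
  continuous_const.add (ff_cont.comp_continuous (qp_cont P) fun x => qp_ne P x)

omit P in
theorem qp_zero (t : ℝ) : qp w (0, t) = 0 := by
  unfold qp
  simp [cl_zero]

variable {n : ℕ} {b : Fin n → ℂ} {Φ : Fin n → ℂ → ℂ} (B : Br G κ b Φ)

include B

/-- the lift over the square -/
theorem exists_F (k : Fin n) : ∃ F : ℝ × ℝ → ℂ, Continuous F ∧ (∀ x, G.eval (F x) = κ + ff (qp w x)) ∧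
    (∀ x : ℝ × ℝ, cl x.1 = 0 → F x = b k) ∧
    ∀ R t : ℝ, 0 ≤ R → R < 1 → F (R, t) = Φ k (R * w t) := by
  suffices hs : ∃ F : ℝ × ℝ → ℂ, Continuous F ∧ (∀ x, G.eval (F x) = κ + ff (qp w x)) ∧
      (∀ t : ℝ, F (0, t) = b k) ∧ ∀ R t : ℝ, 0 ≤ R → R < 1 → F (R, t) = Φ k (R * w t) by
    obtain ⟨F, h1, h2, h3, h4⟩ := hs
    refine ⟨fun x => F (cl x.1, x.2), h1.comp ((cl_cont.comp continuous_fst).prodMk continuous_snd),
      fun x => ?_, fun x hx => ?_, fun R t h5 h6 => ?_⟩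
    · rw [h2]
      unfold qp
      simp only
      rw [cl_eq (cl_mem _).1 (cl_mem _).2]
    · simp only
      rw [hx, h3]
    · simp only
      rw [cl_eq h5 h6.le, h4 R t h5 h6]
  obtain ⟨F, hFc, hF0, hF⟩ := exists_lift (A := ℝ × ℝ) (G := G) (qp_fcont P) (qp_Cv P B.cv)
    ((0, 0) : ℝ × ℝ) (x₀ := b k) (by
      have := B.ev k 0 (Metric.mem_ball_self one_pos)
      rw [B.zero] at this
      simp only [qp_zero, this])
  have h0 : ∀ t : ℝ, F (0, t) = b k := by
    have h1 := lift_unique (A := ℝ) (G := G) (f := fun t => (κ : ℂ) + ff (qp w (0, t)))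
      ((qp_fcont P).comp (by fun_prop)) (fun t => qp_Cv P B.cv _)
      (F := fun t => F (0, t)) (F' := fun _ => b k) (hFc.comp (by fun_prop)) continuous_const
      (fun t => hF _) (fun t => by
        have := B.ev k 0 (Metric.mem_ball_self one_pos)
        rw [B.zero] at this
        simp only [qp_zero, this]) (a₀ := 0) hF0
    exact fun t => congrFun h1 t
  refine ⟨F, hFc, hF, h0, ?_⟩
  intro R t hR0 hR1
  have hin : ∀ s, 0 ≤ cl s * R ∧ cl s * R ≤ R ∧ cl s * R < 1 := fun s => by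
    have := cl_mem s
    refine ⟨mul_nonneg this.1 hR0, by nlinarith, by nlinarith⟩
  have hmem : ∀ s, ((cl s * R : ℝ) : ℂ) * w t ∈ (Metric.ball (0 : ℂ) 1) := fun s => by
    rw [mem_D, norm_mul, Complex.norm_real, Real.norm_eq_abs, abs_of_nonneg (hin s).1]
    nlinarith [P.le t, norm_nonneg (w t), (hin s).1, (hin s).2.2]
  have hq : ∀ s, qp w (cl s * R, t) = ((cl s * R : ℝ) : ℂ) * w t := fun s => by
    unfold qp
    simp only
    rw [cl_eq (hin s).1 (hin s).2.2.le]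
  have c1 : Continuous fun s : ℝ => ((cl s * R, t) : ℝ × ℝ) :=
    (cl_cont.mul continuous_const).prodMk continuous_const
  have c2 : Continuous fun s : ℝ => ((cl s * R : ℝ) : ℂ) * w t :=
    (Complex.continuous_ofReal.comp (cl_cont.mul continuous_const)).mul continuous_const
  have h1 := lift_unique (A := ℝ) (G := G) (f := fun s => (κ : ℂ) + ff (qp w (cl s * R, t)))
    ((qp_fcont P).comp c1) (fun t => qp_Cv P B.cv _)
    (F := fun s => F (cl s * R, t)) (F' := fun s => Φ k (((cl s * R : ℝ) : ℂ) * w t))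
    (hFc.comp c1) ((B.cont k).comp_continuous c2 hmem) (fun s => hF _)
    (fun s => by rw [B.ev k _ (hmem s), hq]) (a₀ := 0) (by
      simp only [cl_zero, zero_mul, Complex.ofReal_zero]
      rw [h0, B.zero])
  have h2 := congrFun h1 1
  simp only [cl_one, one_mul] at h2
  exact h2

end

end Pool.Agent.N686.RR
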