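import Mathlib
set_option autoImplicit false

/-!
The inverse of `w / (1 + w²)` on the lower half plane.
-/

namespace Pool.Agent.N686.RR

open Set Filter Topology Complex

open scoped Real

/-- the square root -/
noncomputable def sq (z : ℂ) : ℂ := z ^ (2⁻¹ : ℂ)

theorem sq_sq (z : ℂ) : sq z ^ 2 = z := Complex.cpow_ofNat_inv_pow z 2

theorem sq_quad {z : ℂ} (hz : 0 ≤ z.im) : 0 ≤ (sq z).re ∧ 0 ≤ (sq z).im := by
  by_cases h0 : z = 0
  · subst h0
    unfold sq
    rw [Complex.zero_cpow (by norm_num)]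
    simp
  · have h1 : sq z = Complex.exp (Complex.log z * 2⁻¹) := Complex.cpow_def_of_ne_zero h0 _
    have h2 : (Complex.log z * 2⁻¹).im = z.arg / 2 := by
      have e : (2⁻¹ : ℂ) = ((2⁻¹ : ℝ) : ℂ) := by push_cast; rfl
      rw [e, Complex.im_mul_ofReal, Complex.log_im]
      ring
    have ha1 : 0 ≤ z.arg := Complex.arg_nonneg_iff.2 hz
    have ha2 := Complex.arg_le_pi z
    have hπ := Real.pi_pos
    rw [h1, Complex.exp_re, Complex.exp_im, h2]
    exact ⟨mul_nonneg (Real.exp_pos _).le (Real.cos_nonneg_of_mem_Icc ⟨by linarith, by linarith⟩),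
      mul_nonneg (Real.exp_pos _).le (Real.sin_nonneg_of_nonneg_of_le_pi (by linarith)
        (by linarith))⟩

theorem sq_cont : ContinuousOn sq {z : ℂ | 0 ≤ z.im} := by
  intro z hz
  by_cases h0 : z = 0
  · subst h0
    have h1 : ContinuousAt sq 0 := by
      have h2 : sq 0 = 0 := by
        unfold sq
        rw [Complex.zero_cpow (by norm_num)]
      have h3 : ∀ w, ‖sq w‖ = Real.sqrt ‖w‖ := by
        intro w
        have h4 : ‖sq w‖ ^ 2 = ‖w‖ := by rw [← norm_pow, sq_sq]
        rw [← h4, Real.sqrt_sq (norm_nonneg _)]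
      rw [ContinuousAt, h2, tendsto_zero_iff_norm_tendsto_zero]
      have h5 : Tendsto (fun w : ℂ => Real.sqrt ‖w‖) (𝓝 0) (𝓝 0) := by
        have h6 : Continuous fun w : ℂ => Real.sqrt ‖w‖ := Real.continuous_sqrt.comp continuous_norm
        have h7 := h6.tendsto 0
        simpa using h7
      exact h5.congr fun w => (h3 w).symm
    exact h1.continuousWithinAt
  · have hlog : ContinuousWithinAt Complex.log {z : ℂ | 0 ≤ z.im} z := by
      by_cases hs : z ∈ slitPlane
      · exact (continuousAt_clog hs).continuousWithinAt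
      · rw [Complex.mem_slitPlane_iff] at hs
        push Not at hs
        have hre : z.re < 0 := by
          refine lt_of_le_of_ne hs.1 fun h => h0 (Complex.ext h hs.2)
        exact Complex.continuousWithinAt_log_of_re_neg_of_im_zero hre hs.2
    have h1 : ContinuousWithinAt (fun w => Complex.exp (Complex.log w * 2⁻¹)) {z : ℂ | 0 ≤ z.im} z :=
      Complex.continuous_exp.continuousAt.comp_continuousWithinAt (hlog.mul continuousWithinAt_const)
    refine h1.congr_of_eventuallyEq ?_ (Complex.cpow_def_of_ne_zero h0 _)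
    filter_upwards [mem_nhdsWithin_of_mem_nhds (isOpen_ne.mem_nhds h0)] with w hw
    exact Complex.cpow_def_of_ne_zero hw _

theorem sq_diff {z : ℂ} (hz : 0 < z.im) : DifferentiableAt ℂ sq z := by
  have hs : z ∈ slitPlane := Complex.mem_slitPlane_iff.2 (Or.inr hz.ne')
  exact (differentiableAt_id.cpow_const (c := 2⁻¹)) (by simpa using hs)

/-- `p`, `q`: square roots of `1/2 - v`, `1/2 + v` -/
noncomputable def pp (v : ℂ) : ℂ := sq (1 / 2 - v)

noncomputable def qq (v : ℂ) : ℂ := -I * sq (-(1 / 2) - v)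

theorem pp_sq (v : ℂ) : pp v ^ 2 = 1 / 2 - v := sq_sq _

theorem qq_sq (v : ℂ) : qq v ^ 2 = 1 / 2 + v := by
  unfold qq
  rw [mul_pow, sq_sq, neg_sq, I_sq]
  ring

variable {v : ℂ}

theorem pp_quad (hv : v.im ≤ 0) : 0 ≤ (pp v).re ∧ 0 ≤ (pp v).im := by
  refine sq_quad ?_
  have e : (1 / 2 - v : ℂ).im = -v.im := by
    rw [sub_im]
    norm_num
  rw [e]
  linarith

theorem qq_quad (hv : v.im ≤ 0) : 0 ≤ (qq v).re ∧ (qq v).im ≤ 0 := by
  have h := sq_quad (z := -(1 / 2) - v) (by
    have e : (-(1 / 2) - v : ℂ).im = -v.im := by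
      rw [sub_im]
      norm_num
    rw [e]
    linarith)
  unfold qq
  rw [mul_re, mul_im, neg_re, neg_im, I_re, I_im]
  constructor <;> nlinarith [h.1, h.2]

/-- `Re (q p̄) ≥ 0` -/
theorem re_nonneg (hv : v.im ≤ 0) : 0 ≤ (qq v).re * (pp v).re + (qq v).im * (pp v).im ∧
    (v.im < 0 → 0 < (qq v).re * (pp v).re + (qq v).im * (pp v).im) := by
  have h1 := pp_quad hv
  have h2 := qq_quad hv
  have h3 := congrArg Complex.re (pp_sq v)
  have h4 := congrArg Complex.im (pp_sq v)
  have h5 := congrArg Complex.re (qq_sq v)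
  have h6 := congrArg Complex.im (qq_sq v)
  have e1 : ((1 : ℂ) / 2).re = 1 / 2 := by norm_num
  have e2 : ((1 : ℂ) / 2).im = 0 := by norm_num
  rw [pow_two, mul_re, sub_re, e1] at h3
  rw [pow_two, mul_im, sub_im, e2] at h4
  rw [pow_two, mul_re, add_re, e1] at h5
  rw [pow_two, mul_im, add_im, e2] at h6
  set a := (pp v).re
  set b := (pp v).im
  set c := (qq v).re
  set d := (qq v).im
  -- `a b = - c d`, `a² - b² + c² - d² = 1`
  have k1 : a * b = -(c * d) := by linarith
  have k2 : a ^ 2 - b ^ 2 + (c ^ 2 - d ^ 2) = 1 := by nlinarith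
  have key : c * a + d * b ≤ 0 → a ^ 2 + c ^ 2 ≤ b ^ 2 + d ^ 2 ∨ (a * b = 0) := by
    intro h
    by_cases hab : a * b = 0
    · exact Or.inr hab
    · left
      have ha : 0 < a := lt_of_le_of_ne h1.1 fun h' => hab (by rw [← h']; ring)
      have hb : 0 < b := lt_of_le_of_ne h1.2 fun h' => hab (by rw [← h']; ring)
      have hcd : c * d ≠ 0 := fun h' => hab (by rw [k1, h', neg_zero])
      have hc : 0 < c := lt_of_le_of_ne h2.1 fun h' => hcd (by rw [← h']; ring)
      have hd : d < 0 := lt_of_le_of_ne h2.2 fun h' => hcd (by rw [h']; ring)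
      -- `a c ≤ b (-d)`, `a b = c (-d)`
      have m1 : c * c * a ≤ b * b * a := by nlinarith
      have m2 : c ≤ b := by
        have m3 : c * c ≤ b * b := le_of_mul_le_mul_right m1 ha
        nlinarith
      have m4 : a * a * c ≤ d * d * c := by nlinarith
      have m5 : a * a ≤ d * d := le_of_mul_le_mul_right m4 hc
      nlinarith
  constructor
  · by_contra hcon
    push Not at hcon
    rcases key hcon.le with h | h
    · nlinarith
    · rcases mul_eq_zero.1 h with ha | hb
      · rw [ha] at hcon k1 k2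
        have hcd : c * d = 0 := by linarith
        rcases mul_eq_zero.1 hcd with hc | hd
        · rw [hc] at k2
          nlinarith
        · rw [hd] at hcon
          nlinarith
      · rw [hb] at hcon
        nlinarith [mul_nonneg h2.1 h1.1]
  · intro hv'
    by_contra hcon
    push Not at hcon
    have hab : a * b ≠ 0 := by
      intro h
      nlinarith
    rcases key hcon with h | h
    · nlinarith
    · exact hab h

theorem sum_ne (hv : v.im ≤ 0) : qq v + pp v ≠ 0 := by
  intro h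
  have h1 := pp_quad hv
  have h2 := qq_quad hv
  have h3 := congrArg Complex.re h
  rw [add_re, zero_re] at h3
  have h4 : (pp v).re = 0 := by linarith [h1.1, h2.1]
  have h5 : (qq v).re = 0 := by linarith [h1.1, h2.1]
  have h6 : pp v ^ 2 + qq v ^ 2 = 1 := by
    rw [pp_sq, qq_sq]
    ring
  have h7 := congrArg Complex.re h6
  rw [add_re, pow_two, pow_two, mul_re, mul_re, h4, h5, one_re] at h7
  nlinarith [sq_nonneg (pp v).im, sq_nonneg (qq v).im]

/-- the inverse of `w / (1 + w²)` -/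
noncomputable def Wf (v : ℂ) : ℂ := (qq v - pp v) / (qq v + pp v)

theorem one_add_sq (hv : v.im ≤ 0) : 1 + Wf v ^ 2 = 2 / (qq v + pp v) ^ 2 := by
  have h0 := sum_ne hv
  have h6 : pp v ^ 2 + qq v ^ 2 = 1 := by
    rw [pp_sq, qq_sq]
    ring
  unfold Wf
  rw [div_pow, eq_div_iff (pow_ne_zero _ h0), add_mul, div_mul_cancel₀ _ (pow_ne_zero _ h0)]
  linear_combination 2 * h6

theorem one_add_sq_ne (hv : v.im ≤ 0) : 1 + Wf v ^ 2 ≠ 0 := by
  rw [one_add_sq hv]
  exact div_ne_zero two_ne_zero (pow_ne_zero _ (sum_ne hv))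

theorem Wf_eq (hv : v.im ≤ 0) : Wf v = v * (1 + Wf v ^ 2) := by
  have h0 := sum_ne hv
  rw [one_add_sq hv]
  unfold Wf
  have h6 : qq v ^ 2 - pp v ^ 2 = 2 * v := by
    rw [pp_sq, qq_sq]
    ring
  rw [mul_div_assoc', eq_div_iff (pow_ne_zero _ h0), div_mul_eq_mul_div, div_eq_iff h0]
  linear_combination (qq v + pp v) * h6

theorem norm_sq_diff : ‖qq v + pp v‖ ^ 2 - ‖qq v - pp v‖ ^ 2 =
    4 * ((qq v).re * (pp v).re + (qq v).im * (pp v).im) := by
  rw [← Complex.normSq_eq_norm_sq, ← Complex.normSq_eq_norm_sq, Complex.normSq_apply,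
    Complex.normSq_apply, add_re, add_im, sub_re, sub_im]
  ring

theorem norm_Wf_le (hv : v.im ≤ 0) : ‖Wf v‖ ≤ 1 := by
  have h0 := norm_pos_iff.2 (sum_ne hv)
  unfold Wf
  rw [norm_div, div_le_one h0]
  have h1 := norm_sq_diff (v := v)
  have h2 := (re_nonneg hv).1
  exact le_of_sq_le_sq (by linarith) h0.le

theorem norm_Wf_lt (hv : v.im < 0) : ‖Wf v‖ < 1 := by
  have h0 := norm_pos_iff.2 (sum_ne hv.le)
  unfold Wf
  rw [norm_div, div_lt_one h0]
  have h1 := norm_sq_diff (v := v)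
  have h2 := (re_nonneg hv.le).2 hv
  exact lt_of_pow_lt_pow_left₀ 2 h0.le (by linarith)

theorem pp_cont : ContinuousOn pp {v : ℂ | v.im ≤ 0} := by
  refine sq_cont.comp (by fun_prop) fun v hv => ?_
  have hv' : v.im ≤ 0 := hv
  show 0 ≤ (1 / 2 - v : ℂ).im
  rw [sub_im]
  have : ((1 : ℂ) / 2).im = 0 := by norm_num
  rw [this]
  linarith

theorem qq_cont : ContinuousOn qq {v : ℂ | v.im ≤ 0} := by
  refine continuousOn_const.mul (sq_cont.comp (by fun_prop) fun v hv => ?_)
  have hv' : v.im ≤ 0 := hv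
  show 0 ≤ (-(1 / 2) - v : ℂ).im
  rw [sub_im]
  have : (-((1 : ℂ) / 2)).im = 0 := by norm_num
  rw [this]
  linarith

theorem Wf_cont : ContinuousOn Wf {v : ℂ | v.im ≤ 0} :=
  (qq_cont.sub pp_cont).div (qq_cont.add pp_cont) fun _ hv => sum_ne hv

theorem Wf_diff (hv : v.im < 0) : DifferentiableAt ℂ Wf v := by
  have h1 : DifferentiableAt ℂ pp v := by
    refine DifferentiableAt.comp v (sq_diff ?_) (by fun_prop)
    show 0 < (1 / 2 - v : ℂ).im
    rw [sub_im]
    have : ((1 : ℂ) / 2).im = 0 := by norm_num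
    rw [this]
    linarith
  have h2 : DifferentiableAt ℂ qq v := by
    refine DifferentiableAt.const_mul (DifferentiableAt.comp v (sq_diff ?_) (by fun_prop)) _
    show 0 < (-(1 / 2) - v : ℂ).im
    rw [sub_im]
    have : (-((1 : ℂ) / 2)).im = 0 := by norm_num
    rw [this]
    linarith
  exact (h2.sub h1).div (h2.add h1) (sum_ne hv.le)

/-- `w / (1 + w²)` -/
noncomputable def ff (w : ℂ) : ℂ := w / (1 + w ^ 2)

theorem ff_Wf (hv : v.im ≤ 0) : ff (Wf v) = v := by
  unfold ff
  rw [div_eq_iff (one_add_sq_ne hv)]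
  exact Wf_eq hv

theorem one_add_sq_ne' {w : ℂ} (hw : ‖w‖ < 1) : 1 + w ^ 2 ≠ 0 := by
  intro h
  have h1 : ‖w ^ 2‖ = 1 := by
    have h2 : w ^ 2 = -1 := by linear_combination h
    rw [h2, norm_neg, norm_one]
  rw [norm_pow] at h1
  nlinarith [norm_nonneg w]

theorem ff_diff {w : ℂ} (hw : ‖w‖ < 1) :
    HasDerivAt ff ((1 - w ^ 2) / (1 + w ^ 2) ^ 2) w := by
  have h1 : HasDerivAt (fun w : ℂ => 1 + w ^ 2) (2 * w) w := by
    have := ((hasDerivAt_id w).pow 2).const_add 1
    simpa using this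
  have h2 := (hasDerivAt_id w).div h1 (one_add_sq_ne' hw)
  refine h2.congr_deriv ?_
  congr 1
  simp only [id]
  ring

theorem ff_deriv_ne {w : ℂ} (hw : ‖w‖ < 1) : (1 - w ^ 2) / (1 + w ^ 2) ^ 2 ≠ 0 := by
  refine div_ne_zero ?_ (pow_ne_zero _ (one_add_sq_ne' hw))
  intro h
  have h1 : ‖w ^ 2‖ = 1 := by
    have h2 : w ^ 2 = 1 := by linear_combination -h
    rw [h2, norm_one]
  rw [norm_pow] at h1
  nlinarith [norm_nonneg w]

theorem ff_sub {w w' : ℂ} (h : 1 + w ^ 2 ≠ 0) (h' : 1 + w' ^ 2 ≠ 0) :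
    (ff w - ff w') * ((1 + w ^ 2) * (1 + w' ^ 2)) = (w - w') * (1 - w * w') := by
  unfold ff
  field_simp
  ring

theorem ff_inj {w w' : ℂ} (hw : ‖w‖ < 1) (hw' : ‖w'‖ < 1) (h : ff w = ff w') : w = w' := by
  have h1 := ff_sub (one_add_sq_ne' hw) (one_add_sq_ne' hw')
  rw [h, sub_self, zero_mul] at h1
  rcases mul_eq_zero.1 h1.symm with h2 | h2
  · exact sub_eq_zero.1 h2
  · exfalso
    have h3 : w * w' = 1 := by linear_combination -h2
    have h4 : ‖w‖ * ‖w'‖ = 1 := by rw [← norm_mul, h3, norm_one]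
    nlinarith [norm_nonneg w, norm_nonneg w']

/-- the values on the disc are not real of absolute value `≥ 1/2` -/
theorem ff_real {w : ℂ} (hw : ‖w‖ < 1) {r : ℝ} (h : ff w = r) : |r| < 1 / 2 := by
  by_contra hr
  push Not at hr
  have h0 := one_add_sq_ne' hw
  have h1 : w = r * (1 + w ^ 2) := by
    unfold ff at h
    rwa [div_eq_iff h0] at h
  have hre := congrArg Complex.re h1
  have him := congrArg Complex.im h1
  rw [re_ofReal_mul, add_re, one_re, pow_two, mul_re] at hre
  rw [im_ofReal_mul, add_im, one_im, pow_two, mul_im] at him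
  set x := w.re
  set y := w.im
  have hn : x ^ 2 + y ^ 2 < 1 := by
    have h2 : ‖w‖ ^ 2 = x ^ 2 + y ^ 2 := by
      rw [← Complex.normSq_eq_norm_sq, Complex.normSq_apply]
      ring
    have h3 := norm_nonneg w
    nlinarith
  have hr2 : 1 / 4 ≤ r ^ 2 := by
    have := abs_nonneg r
    have h2 := sq_abs r
    nlinarith
  have hyz : y * (1 - 2 * r * x) = 0 := by linarith
  rcases mul_eq_zero.1 hyz with hy | hx
  · rw [hy] at hre hn
    -- `x = r (1 + x²)`
    have h2 : x ^ 2 = r ^ 2 * (1 + x ^ 2) ^ 2 := by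
      have h3 : x = r * (1 + x ^ 2) := by linarith
      have h4 : x ^ 2 = (r * (1 + x ^ 2)) ^ 2 := congrArg (fun y : ℝ => y ^ 2) h3
      rw [mul_pow] at h4
      exact h4
    have h5 : 0 < 1 - x ^ 2 := by nlinarith
    have h6 : 0 < (1 - x ^ 2) ^ 2 := by positivity
    nlinarith [mul_le_mul_of_nonneg_right hr2 (sq_nonneg (1 + x ^ 2))]
  · have h2 : x = r * (1 + (x ^ 2 - y ^ 2)) := by linarith
    have h3 : 2 * r * x = 1 := by linarith
    have h4 : r ≠ 0 := by
      intro h5
      rw [h5] at h3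
      norm_num at h3
    have h5 : 2 * r * (r * (1 + (x ^ 2 - y ^ 2))) = 1 := by rw [← h2]; exact h3
    have h6 : 4 * r ^ 2 * x ^ 2 = 1 := by
      have : (2 * r * x) ^ 2 = 1 := by rw [h3]; norm_num
      nlinarith
    have h7 : 0 < r ^ 2 := by positivity
    have h8 : r ^ 2 * (1 - x ^ 2 - y ^ 2) = 0 := by nlinarith
    rcases mul_eq_zero.1 h8 with h9 | h9
    · exact h7.ne' h9
    · linarith

end Pool.Agent.N686.RR
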