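import Pool.Agent.N76.EC.Lift
import Pool.Agent.N686.RR.Slit
set_option autoImplicit false

/-!
The change of the path of integration in the half strip.
-/

namespace Pool.Agent.N686.RR

open Set Filter Topology Complex MeasureTheory

open Pool.Agent.N76.EC (th Wp Zp th_re th_im th_neg hasDerivAt_th)

open scoped Real

/-- the derivative of `th` -/
noncomputable def dth (η t : ℝ) : ℂ :=
  ((2 * π : ℝ) : ℂ) + ((η * (Real.cos (2 * π * t) * (2 * π)) : ℝ) : ℂ) * I

theorem hasDerivAt_th' (η t : ℝ) : HasDerivAt (th η) (dth η t) t := hasDerivAt_th η t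

theorem continuous_dth (η : ℝ) : Continuous (dth η) := by
  unfold dth
  fun_prop

theorem continuous_th (η : ℝ) : Continuous (th η) := by
  unfold th
  fun_prop

/-- the closed half strip -/
def Hs : Set ℂ := {z | 0 ≤ z.re ∧ z.re ≤ π ∧ 0 ≤ z.im}

/-- the open half strip -/
def Hi : Set ℂ := {z | 0 < z.re ∧ z.re < π ∧ 0 < z.im}

theorem th_mem_Hs {η t : ℝ} (hη : 0 ≤ η) (ht : t ∈ Icc (0 : ℝ) (1 / 2)) : th η t ∈ Hs := by
  have hπ := Real.pi_pos
  refine ⟨?_, ?_, ?_⟩
  · rw [th_re]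
    have := ht.1
    positivity
  · rw [th_re]
    nlinarith [ht.2]
  · rw [th_im]
    refine mul_nonneg hη (Real.sin_nonneg_of_nonneg_of_le_pi ?_ ?_)
    · have := ht.1
      positivity
    · nlinarith [ht.2]

theorem th_mem_Hi {η t : ℝ} (hη : 0 < η) (ht : t ∈ Ioo (0 : ℝ) (1 / 2)) : th η t ∈ Hi := by
  have hπ := Real.pi_pos
  refine ⟨?_, ?_, ?_⟩
  · rw [th_re]
    have := ht.1
    positivity
  · rw [th_re]
    nlinarith [ht.2]
  · rw [th_im]
    refine mul_pos hη (Real.sin_pos_of_pos_of_lt_pi ?_ ?_)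
    · have := ht.1
      positivity
    · nlinarith [ht.2]

theorem sin_half : Real.sin (2 * π * (1 / 2)) = 0 := by
  rw [show 2 * π * (1 / 2) = π by ring, Real.sin_pi]

/-- **Change of the path.** -/
theorem shift {h : ℂ → ℂ} (hc : ContinuousOn h Hs) (hd : ∀ z ∈ Hi, DifferentiableAt ℂ h z)
    {η : ℝ} (hη : 0 ≤ η) :
    ∫ t in (0 : ℝ)..(1 / 2), h (th η t) * dth η t = ∫ t in (0 : ℝ)..(1 / 2), h (th 0 t) * dth 0 t := by
  classical
  set f : ℝ × ℝ → ℂ := fun p => h (th p.1 p.2) * dth p.1 p.2 with hf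
  set g : ℝ × ℝ → ℂ := fun p => -(h (th p.1 p.2) * ((Real.sin (2 * π * p.2) : ℝ) * I)) with hg
  set U : Set (ℝ × ℝ) := Ioo 0 η ×ˢ Ioo 0 (1 / 2) with hU
  set f' : ℝ × ℝ → ℝ × ℝ →L[ℝ] ℂ := fun p => if p ∈ U then fderiv ℝ f p else 0 with hf'
  set g' : ℝ × ℝ → ℝ × ℝ →L[ℝ] ℂ := fun p => if p ∈ U then fderiv ℝ g p else 0 with hg'
  have hT : Continuous fun p : ℝ × ℝ => th p.1 p.2 := by
    unfold th
    fun_prop
  have hTd : Differentiable ℝ fun p : ℝ × ℝ => th p.1 p.2 := by
    unfold th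
    fun_prop
  have hDd : Differentiable ℝ fun p : ℝ × ℝ => dth p.1 p.2 := by
    unfold dth
    fun_prop
  have hSd : Differentiable ℝ fun p : ℝ × ℝ => ((Real.sin (2 * π * p.2) : ℝ) : ℂ) * I := by
    fun_prop
  have hmap : ∀ p ∈ Icc ((0 : ℝ), (0 : ℝ)) (η, 1 / 2), th p.1 p.2 ∈ Hs := by
    intro p hp
    exact th_mem_Hs hp.1.1 ⟨hp.1.2, hp.2.2⟩
  have hmap' : ∀ p ∈ U, th p.1 p.2 ∈ Hi := fun p hp => th_mem_Hi hp.1.1 hp.2
  have hhc : ContinuousOn (fun p : ℝ × ℝ => h (th p.1 p.2)) (Icc ((0 : ℝ), (0 : ℝ)) (η, 1 / 2)) :=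
    hc.comp hT.continuousOn hmap
  have hhd : ∀ p ∈ U, DifferentiableAt ℝ (fun p : ℝ × ℝ => h (th p.1 p.2)) p := fun p hp =>
    ((hd _ (hmap' p hp)).restrictScalars ℝ).comp p (hTd p)
  have hfd : ∀ p ∈ U, DifferentiableAt ℝ f p := fun p hp => (hhd p hp).mul (hDd p)
  have hgd : ∀ p ∈ U, DifferentiableAt ℝ g p := fun p hp => ((hhd p hp).mul (hSd p)).neg
  have hzero : ∀ p, f' p (1, 0) + g' p (0, 1) = 0 := by
    intro p
    by_cases hp : p ∈ U
    · simp only [hf', hg', if_pos hp]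
      obtain ⟨x, y⟩ := p
      have e1 : HasDerivAt (fun s : ℝ => f (s, y)) (fderiv ℝ f (x, y) (1, 0)) x := by
        have h1 : HasDerivAt (fun s : ℝ => ((s, y) : ℝ × ℝ)) (1, 0) x :=
          (hasDerivAt_id x).prodMk (hasDerivAt_const x y)
        exact (hfd _ hp).hasFDerivAt.comp_hasDerivAt x h1
      have e2 : HasDerivAt (fun s : ℝ => g (x, s)) (fderiv ℝ g (x, y) (0, 1)) y := by
        have h1 : HasDerivAt (fun s : ℝ => ((x, s) : ℝ × ℝ)) (0, 1) y :=
          (hasDerivAt_const y x).prodMk (hasDerivAt_id y)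
        exact (hgd _ hp).hasFDerivAt.comp_hasDerivAt y h1
      have hh := (hd _ (hmap' _ hp)).hasDerivAt
      simp only at hh
      have e3 : HasDerivAt (fun s : ℝ => th s y) (((Real.sin (2 * π * y) : ℝ) : ℂ) * I) x := by
        unfold th
        have h1 : HasDerivAt (fun s : ℝ => s * Real.sin (2 * π * y)) (Real.sin (2 * π * y)) x := by
          simpa using (hasDerivAt_id x).mul_const (Real.sin (2 * π * y))
        have h2 := (h1.ofReal_comp.mul_const I).const_add (((2 * π * y : ℝ)) : ℂ)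
        exact h2
      have e4 : HasDerivAt (fun s : ℝ => dth s y)
          (((Real.cos (2 * π * y) * (2 * π) : ℝ) : ℂ) * I) x := by
        unfold dth
        have h1 : HasDerivAt (fun s : ℝ => s * (Real.cos (2 * π * y) * (2 * π)))
            (Real.cos (2 * π * y) * (2 * π)) x := by
          simpa using (hasDerivAt_id x).mul_const (Real.cos (2 * π * y) * (2 * π))
        exact (h1.ofReal_comp.mul_const I).const_add (((2 * π : ℝ)) : ℂ)
      have e5 : HasDerivAt (fun s : ℝ => ((Real.sin (2 * π * s) : ℝ) : ℂ) * I)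
          (((Real.cos (2 * π * y) * (2 * π) : ℝ) : ℂ) * I) y := by
        have h0 : HasDerivAt (fun s : ℝ => 2 * π * s) (2 * π) y := by
          simpa using (hasDerivAt_id y).const_mul (2 * π)
        have h1 : HasDerivAt (fun s : ℝ => Real.sin (2 * π * s)) (Real.cos (2 * π * y) * (2 * π)) y :=
          (Real.hasDerivAt_sin _).comp y h0
        exact h1.ofReal_comp.mul_const I
      have e6 : HasDerivAt (fun s : ℝ => h (th s y))
          (deriv h (th x y) * (((Real.sin (2 * π * y) : ℝ) : ℂ) * I)) x :=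
        HasDerivAt.comp x hh e3
      have e7 : HasDerivAt (fun s : ℝ => h (th x s)) (deriv h (th x y) * dth x y) y :=
        HasDerivAt.comp y hh (hasDerivAt_th' x y)
      have e8 := e6.mul e4
      have e9 := (e7.mul e5).neg
      rw [e1.unique e8, e2.unique e9]
      ring
    · simp only [hf', hg', if_neg hp]
      simp
  have key := integral_divergence_prod_Icc_of_hasFDerivAt_of_le f g f' g' (0, 0) (η, 1 / 2)
    ⟨hη, by norm_num⟩ (hhc.mul hDd.continuous.continuousOn)
    ((hhc.mul hSd.continuous.continuousOn).neg)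
    (fun x hx => by
      have hx' : x ∈ U := hx
      simp only [hf', if_pos hx']
      exact (hfd x hx').hasFDerivAt)
    (fun x hx => by
      have hx' : x ∈ U := hx
      simp only [hg', if_pos hx']
      exact (hgd x hx').hasFDerivAt)
    (by
      simp only [hzero]
      exact integrableOn_zero)
  simp only [hzero, integral_zero] at key
  have g1 : ∀ x : ℝ, g (x, 1 / 2) = 0 := by
    intro x
    simp only [hg]
    rw [sin_half]
    simp
  have g2 : ∀ x : ℝ, g (x, 0) = 0 := by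
    intro x
    simp only [hg]
    simp
  simp only [g1, g2, intervalIntegral.integral_zero, sub_self, zero_add] at key
  exact (sub_eq_zero.1 key.symm)

theorem th_zero_left (t : ℝ) : th 0 t = ((2 * π * t : ℝ) : ℂ) := by
  unfold th
  simp

theorem dth_zero_left (t : ℝ) : dth 0 t = ((2 * π : ℝ) : ℂ) := by
  unfold dth
  simp

/-- the mean over the path -/
noncomputable def Av (η : ℝ) (L : ℝ → ℂ) : ℂ :=
  (π : ℂ)⁻¹ * ∫ t in (0 : ℝ)..(1 / 2), L t * dth η t

theorem Av_shift {h : ℂ → ℂ} (hc : ContinuousOn h Hs) (hd : ∀ z ∈ Hi, DifferentiableAt ℂ h z)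
    {η : ℝ} (hη : 0 ≤ η) :
    Av η (fun t => h (th η t)) = ∫ x in (0 : ℝ)..1, h ((π * x : ℝ) : ℂ) := by
  have hπ : (π : ℂ) ≠ 0 := by exact_mod_cast Real.pi_ne_zero
  unfold Av
  rw [shift hc hd hη]
  simp only [th_zero_left, dth_zero_left]
  rw [intervalIntegral.integral_mul_const]
  have h1 := intervalIntegral.integral_comp_mul_left (a := (0 : ℝ)) (b := 1 / 2)
    (fun x => h ((π * x : ℝ) : ℂ)) (c := 2) two_ne_zero
  have h2 : ∀ t : ℝ, h ((π * (2 * t) : ℝ) : ℂ) = h ((2 * π * t : ℝ) : ℂ) := fun t => by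
    congr 2
    ring
  simp only [h2] at h1
  rw [h1]
  rw [mul_zero, show (2 : ℝ) * (1 / 2) = 1 by norm_num, Complex.real_smul]
  push_cast
  field_simp

/-- evaluation of the mean of the constant `1` -/
theorem int_dth (η : ℝ) : ∫ t in (0 : ℝ)..(1 / 2), dth η t = π := by
  have h1 := intervalIntegral.integral_eq_sub_of_hasDerivAt (a := (0 : ℝ)) (b := 1 / 2)
    (fun t _ => hasDerivAt_th' η t) ((continuous_dth η).intervalIntegrable _ _)
  rw [h1]
  apply Complex.ext
  · rw [sub_re, th_re, th_re, ofReal_re]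
    ring
  · rw [sub_im, th_im, th_im, sin_half, ofReal_im]
    simp

end Pool.Agent.N686.RR
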