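import Pool.Agent.N686.RR.Ener2
set_option autoImplicit false

/-!
The energy inequality.
-/

namespace Pool.Agent.N686.RR

open MeasureTheory Set Filter Topology Metric Polynomial

open Pool.Agent.TH826.MK (circ norm_circ circ_add_one contDiff_circ hasDerivAt_circ circ_eq)

open Pool.Agent.Y775.CC hiding Branches differentiableOn_psi psi_ne_zero

open Pool.Agent.N686.DI (kk kk_eq circ_sub_ne ae_kk ii_kk ii_kk_mul int_kk_mul pot_one pot_cs pot_sn tp continuous_tp tp_add_one int_tp pot_tp int_cs_sn int_tp_mul energy_tp)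

open Pool.Agent.N686.EL (lg lg_add_one int_sub_shift ii_one ae_shift bdd_of_periodic
  lim_pair lE_fin lE_nonpos bm_fin bmc_fin)

set_option maxHeartbeats 400000

section

variable {n : ℕ} {V : Set ℂ} {φ : Fin n → ℂ → ℂ} (H : Uni V φ) {R : ℝ}
  (hR : 0 < R) (hV : ∀ z : ℂ, ‖z‖ ≤ R → z ∈ V)

/-- the smooth part of the energy -/
noncomputable def eA (φ : Fin n → ℂ → ℂ) (R : ℝ) (i j : Fin n) (f g : ℝ → ℝ) : ℝ :=
  ∫ θ in (0 : ℝ)..1, (∫ t in (0 : ℝ)..1, lp φ R i j t θ * f t) * g θ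

/-- the energy on the ellipse -/
noncomputable def eB (R : ℝ) (f : ℝ → ℝ) : ℝ :=
  ∫ θ in (0 : ℝ)..1, (∫ t in (0 : ℝ)..1, kk R t θ * f t) * f θ

include H hR hV

theorem pair_dec (i j : Fin n) {f : Fin n → ℝ → ℝ} (hf : ∀ i, Continuous (f i))
    (hpot : ∀ i, Continuous fun θ => ∫ t in (0 : ℝ)..1, kk R t θ * f i t) :
    ∫ θ in (0 : ℝ)..1, (∫ t in (0 : ℝ)..1,
      2 * Real.log ‖φ i (circ R t) - φ j (circ R θ)‖ * f i t) * f j θ =
      2 * eA φ R i j (f i) (f j) + 2 * (if i = j then eB R (f i) else 0) := by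
  have h1 : ∀ θ, (∫ t in (0 : ℝ)..1, 2 * Real.log ‖φ i (circ R t) - φ j (circ R θ)‖ * f i t) *
      f j θ = 2 * ((∫ t in (0 : ℝ)..1, lp φ R i j t θ * f i t) * f j θ) +
      2 * ((∫ t in (0 : ℝ)..1, (if i = j then kk R t θ else 0) * f i t) * f j θ) := by
    intro θ
    rw [inner_dec H hR hV i j (hf i) θ]
    ring
  have hc1 : Continuous fun θ => 2 * ((∫ t in (0 : ℝ)..1, lp φ R i j t θ * f i t) * f j θ) :=
    continuous_const.mul ((continuous_lp_int H hR hV i j (hf i)).mul (hf j))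
  have hc2 : Continuous fun θ => 2 * ((∫ t in (0 : ℝ)..1,
      (if i = j then kk R t θ else 0) * f i t) * f j θ) := by
    refine continuous_const.mul (Continuous.mul ?_ (hf j))
    by_cases hij : i = j
    · simp only [if_pos hij]
      exact hpot i
    · simp only [if_neg hij, zero_mul, intervalIntegral.integral_zero]
      exact continuous_const
  have h2 := intervalIntegral.integral_congr (a := (0 : ℝ)) (b := 1) (μ := volume)
    fun θ _ => h1 θ
  rw [h2, intervalIntegral.integral_add (hc1.intervalIntegrable _ _)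
    (hc2.intervalIntegrable _ _), intervalIntegral.integral_const_mul,
    intervalIntegral.integral_const_mul]
  congr 2
  by_cases hij : i = j
  · subst hij
    rw [if_pos rfl]
    unfold eB
    refine intervalIntegral.integral_congr fun θ _ => ?_
    simp only [if_true]
  · simp only [if_neg hij, zero_mul, intervalIntegral.integral_zero]

/-- **The energy inequality.** -/
theorem energy_le {f : Fin n → ℝ → ℝ} (hf : ∀ i, Continuous (f i))
    (hfp : ∀ i t, f i (t + 1) = f i t) (h0 : ∑ i, ∫ t in (0 : ℝ)..1, f i t = 0)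
    (hpot : ∀ i, Continuous fun θ => ∫ t in (0 : ℝ)..1, kk R t θ * f i t) :
    (∑ j, ∑ i, eA φ R i j (f i) (f j)) + ∑ i, eB R (f i) ≤ 0 := by
  have hfb : ∀ i, ∃ C, ∀ t, |f i t| ≤ C := fun i => bdd_of_periodic (hf i) (hfp i)
  have hX : ∀ i, Continuous fun t => φ i (circ R t) := continuous_phi H hR hV
  have hXb : ∀ i, ∃ C : ℝ, ∀ t, ‖φ i (circ R t)‖ ≤ C := bdd_phi H hR hV
  have hF0 : ∫ ω, f ω.1 ω.2 ∂(Pn n) = 0 := by
    rw [integral_Pn (bm_fin hf hfb).integrable]
    exact h0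
  set J : ℝ → Fin n → Fin n → ℝ := fun s j i => ∫ θ in (0 : ℝ)..1, (∫ t in (0 : ℝ)..1,
      Real.log (s + ‖φ i (circ R t) - φ j (circ R θ)‖ ^ 2) * f i t) * f j θ with hJ
  have hle : ∀ s : ℝ, 0 < s → ∑ j, ∑ i, J s j i ≤ 0 := by
    intro s hs
    have h1 := lE_fin (X := fun i t => φ i (circ R t)) hf hfb hX hXb hs
    have h2 := lE_nonpos (P := Pn n) (bm_fin hf hfb) (bmc_fin hX hXb) hF0 hs
    rw [h1] at h2
    exact h2
  set J0 : Fin n → Fin n → ℝ := fun j i => 2 * eA φ R i j (f i) (f j) +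
    2 * (if i = j then eB R (f i) else 0) with hJ0
  have hlim : ∀ j i, Tendsto (fun s => J s j i) (𝓝[>] 0) (𝓝 (J0 j i)) := by
    intro j i
    obtain ⟨Bi, hBi⟩ := hfb i
    obtain ⟨Bj, hBj⟩ := hfb j
    have h1 := lim_phi H hR hV i j (hf i) (hf j) (B := max Bi Bj)
      (fun t => (hBi t).trans (le_max_left _ _)) (fun t => (hBj t).trans (le_max_right _ _))
    rw [pair_dec H hR hV i j hf hpot] at h1
    exact h1
  have hlim2 : Tendsto (fun s => ∑ j, ∑ i, J s j i) (𝓝[>] 0) (𝓝 (∑ j, ∑ i, J0 j i)) :=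
    tendsto_finsetSum _ fun j _ => tendsto_finsetSum _ fun i _ => hlim j i
  have hfin : ∑ j, ∑ i, J0 j i ≤ 0 := by
    refine le_of_tendsto hlim2 ?_
    filter_upwards [self_mem_nhdsWithin] with s hs
    exact hle s hs
  have h3 : ∑ j, ∑ i, J0 j i = 2 * ((∑ j, ∑ i, eA φ R i j (f i) (f j)) + ∑ i, eB R (f i)) := by
    simp only [hJ0, Finset.sum_add_distrib, ← Finset.mul_sum]
    rw [mul_add]
    congr 2
    refine Finset.sum_congr rfl fun j _ => ?_
    rw [Finset.sum_ite_eq' Finset.univ j]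
    simp
  rw [h3] at hfin
  linarith

end

end Pool.Agent.N686.RR
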