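import Pool.Agent.N686.RR.Core
set_option autoImplicit false

/-!
The inequality for the Fourier coefficients of the logarithms on a disc.
-/

namespace Pool.Agent.N686.RR

open MeasureTheory Set Filter Topology Metric Polynomial

open Pool.Agent.TH826.MK (circ norm_circ circ_add_one contDiff_circ hasDerivAt_circ circ_eq)

open Pool.Agent.Y775.CC hiding Branches differentiableOn_psi psi_ne_zero

open Pool.Agent.N686.DI (kk kk_eq circ_sub_ne ae_kk ii_kk ii_kk_mul int_kk_mul pot_one pot_cs pot_sn tp continuous_tp tp_add_one int_tp pot_tp int_cs_sn int_tp_mul energy_tp)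

open Pool.Agent.N686.EL (cs sn continuous_cs continuous_sn cs_zero circ_eq_mul 
  re_int2 swap_cont circ_one_pow_nat circ_one_pow_neg)

set_option maxHeartbeats 400000

/-- the Fourier coefficient of index `m` of the boundary values of `g` on a circle -/
noncomputable def fc (R : ℝ) (g : ℂ → ℂ) (m : ℕ) : ℂ :=
  ∫ t in (0 : ℝ)..1, g (circ R t) * ((cs m t : ℂ) - (sn m t : ℂ) * Complex.I)

theorem re_int {f : ℝ → ℂ} (hf : Continuous f) :
    (∫ t in (0 : ℝ)..1, f t).re = ∫ t in (0 : ℝ)..1, (f t).re := by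
  have h8 := Complex.reCLM.intervalIntegral_comp_comm (hf.intervalIntegrable (μ := volume) 0 1)
  simp only [Complex.reCLM_apply] at h8
  exact h8.symm

section

variable {V : Set ℂ} {R : ℝ} (hR : 0 < R) (hV : ∀ z : ℂ, ‖z‖ ≤ R → z ∈ V) {g : ℂ → ℂ}
  (hg : DifferentiableOn ℂ g V)

include hR hV hg

theorem fc_eq (hVo : IsOpen V) {m : ℕ} (hm : 1 ≤ m) :
    fc R g m = 2 * ∫ t in (0 : ℝ)..1, g (circ R t) * (cs m t : ℂ) := by
  have hgc := cont_g hR hV hg
  have c1 : Continuous fun t => g (circ R t) * (cs m t : ℂ) :=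
    hgc.mul (Complex.continuous_ofReal.comp (continuous_cs m))
  have c2 : Continuous fun t => g (circ R t) * (sn m t : ℂ) :=
    hgc.mul (Complex.continuous_ofReal.comp (continuous_sn m))
  have c3 : Continuous fun t => g (circ R t) * (sn m t : ℂ) * Complex.I :=
    c2.mul continuous_const
  have h2 : ∀ t, g (circ R t) * ((cs m t : ℂ) - (sn m t : ℂ) * Complex.I) =
      g (circ R t) * (cs m t : ℂ) - g (circ R t) * (sn m t : ℂ) * Complex.I := fun t => by ring
  unfold fc
  simp only [h2]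
  rw [intervalIntegral.integral_sub (c1.intervalIntegrable _ _) (c3.intervalIntegrable _ _),
    intervalIntegral.integral_mul_const, int_sn_eq hR hV hg hVo hm]
  have hI := Complex.I_mul_I
  linear_combination (-∫ t in (0 : ℝ)..1, g (circ R t) * (cs m t : ℂ)) * hI

theorem coef_sq (hVo : IsOpen V) {m : ℕ} (hm : 1 ≤ m) :
    (∫ t in (0 : ℝ)..1, (g (circ R t)).re * cs m t) ^ 2 +
      (∫ t in (0 : ℝ)..1, (g (circ R t)).re * sn m t) ^ 2 = ‖fc R g m‖ ^ 2 / 4 := by
  have hgc := cont_g hR hV hg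
  have c1 : Continuous fun t => g (circ R t) * (cs m t : ℂ) :=
    hgc.mul (Complex.continuous_ofReal.comp (continuous_cs m))
  have c2 : Continuous fun t => g (circ R t) * (sn m t : ℂ) :=
    hgc.mul (Complex.continuous_ofReal.comp (continuous_sn m))
  have h1 := re_int c1
  have h2 := re_int c2
  simp only [Complex.re_mul_ofReal] at h1 h2
  rw [int_sn_eq hR hV hg hVo hm] at h2
  rw [fc_eq hR hV hg hVo hm, ← h1, ← h2]
  set X := ∫ t in (0 : ℝ)..1, g (circ R t) * (cs m t : ℂ) with hX
  rw [norm_mul, Complex.norm_ofNat, Complex.I_mul_re, mul_pow, ← Complex.normSq_eq_norm_sq,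
    Complex.normSq_apply]
  ring

end

section

variable {n : ℕ} {V : Set ℂ} {φ : Fin n → ℂ → ℂ} (H : Uni V φ) {R : ℝ}
  (hR : 0 < R) (hV : ∀ z : ℂ, ‖z‖ ≤ R → z ∈ V)

include H

theorem exists_logs (h0V : (0 : ℂ) ∈ V) : ∃ aa : Fin n → Fin n → ℂ → ℂ,
    (∀ i j, DifferentiableOn ℂ (aa i j) V) ∧
    ∀ i j, ∀ u ∈ V, Complex.exp (aa i j u) = psi φ i j 0 u := by
  have h := fun i j => exists_log H.isOpen H.convex ⟨0, h0V⟩ (differentiableOn_psi H i j h0V)
    fun u hu => psi_ne_zero H i j h0V hu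
  choose aa h1 h2 using h
  exact ⟨aa, h1, h2⟩

include hR hV

theorem cont_lp0 (i j : Fin n) : Continuous fun t => Real.log ‖psi φ i j 0 (circ R t)‖ := by
  have h0V := zero_mem' hR hV
  refine Continuous.log (Continuous.norm ?_) fun t => ?_
  · exact (differentiableOn_psi H i j h0V).continuousOn.comp_continuous (cont_circ R)
      (cmem hR hV)
  · exact norm_ne_zero_iff.2 (psi_ne_zero H i j h0V (cmem hR hV t))

omit H hV in
theorem pot_cont (c : ℝ) (a b : ℕ → ℝ) (M : ℕ) :
    Continuous fun θ => ∫ t in (0 : ℝ)..1, kk R t θ * (c + tp a b M t) := by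
  simp only [pot_tp hR]
  exact continuous_const.add (continuous_tp _ _ _)

/-- The energy inequality, for arbitrary coefficients. -/
theorem ineq0 (c : Fin n → ℝ) (hc : ∑ i, c i = 0) (a b : Fin n → ℕ → ℝ) (M : ℕ) :
    (∑ j, ∑ i, c i * c j * Real.log ‖psi φ i j 0 0‖) + Real.log R * ∑ i, c i ^ 2 +
      2 * (∑ i, ∫ t in (0 : ℝ)..1, (∑ j, c j * Real.log ‖psi φ i j 0 (circ R t)‖) *
        tp (a i) (b i) M t) -
      ∑ i, ∑ k ∈ Finset.Icc 1 M, (a i k ^ 2 + b i k ^ 2) / (2 * k) ≤ 0 := by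
  have h0V := zero_mem' hR hV
  have hcl := cont_lp0 H hR hV
  -- the first energy
  have E1 := energy_le H hR hV (f := fun i t => c i + tp (a i) (b i) M t)
    (fun i => continuous_const.add (continuous_tp _ _ _))
    (fun i t => by simp only [tp_add_one]) (by
      refine Eq.trans (Finset.sum_congr rfl fun i _ => ?_) hc
      rw [intervalIntegral.integral_add intervalIntegrable_const
        ((continuous_tp _ _ _).intervalIntegrable _ _), int_tp]
      simp) (fun i => pot_cont hR (c i) (a i) (b i) M)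
  -- the second energy
  have E2 := energy_le H hR hV (f := fun i => tp (fun k => -b i k) (a i) M)
    (fun i => continuous_tp _ _ _) (fun i t => tp_add_one _ _ _ _) (by
      refine Finset.sum_eq_zero fun i _ => ?_
      rw [int_tp]) (fun i => by
      have := pot_cont hR 0 (fun k => -b i k) (a i) M
      simpa using this)
  have eB1 : ∀ i, eB R (fun t => c i + tp (a i) (b i) M t) = c i ^ 2 * Real.log R -
      ∑ k ∈ Finset.Icc 1 M, (a i k ^ 2 + b i k ^ 2) / (4 * k) := fun i =>
    energy_tp hR (c i) (a i) (b i) M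
  have eB2 : ∀ i, eB R (tp (fun k => -b i k) (a i) M) =
      -∑ k ∈ Finset.Icc 1 M, (a i k ^ 2 + b i k ^ 2) / (4 * k) := by
    intro i
    have h := energy_tp hR 0 (fun k => -b i k) (a i) M
    simp only [zero_add, neg_sq] at h
    unfold eB
    rw [h]
    rw [zero_pow two_ne_zero, zero_mul, zero_sub]
    congr 1
    exact Finset.sum_congr rfl fun k _ => by ring
  simp only [eB1] at E1
  simp only [eB2] at E2
  -- the smooth parts
  set S : Fin n → Fin n → ℝ := fun i j =>
    ∫ t in (0 : ℝ)..1, Real.log ‖psi φ i j 0 (circ R t)‖ * tp (a i) (b i) M t with hS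
  have hA : ∀ j i, eA φ R i j (fun t => c i + tp (a i) (b i) M t)
      (fun t => c j + tp (a j) (b j) M t) + eA φ R i j (tp (fun k => -b i k) (a i) M)
      (tp (fun k => -b j k) (a j) M) = c i * c j * Real.log ‖psi φ i j 0 0‖ + c i * S j i +
      c j * S i j := by
    intro j i
    rw [eA_expand H hR hV i j (c i) (c j) (continuous_tp _ _ _) (continuous_tp _ _ _),
      eA_rot H hR hV i j, eA_one_one H hR hV, eA_one_left H hR hV,
      eA_one_right H hR hV i j (continuous_tp _ _ _)]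
    have h1 : ∫ θ in (0 : ℝ)..1, Real.log ‖psi φ i j (circ R θ) 0‖ * tp (a j) (b j) M θ =
        S j i := by
      simp only [hS]
      refine intervalIntegral.integral_congr fun θ _ => ?_
      rw [psi_comm H i j 0 (circ R θ)]
    rw [h1]
    simp only [hS]
    ring
  have hsum : (∑ j, ∑ i, eA φ R i j (fun t => c i + tp (a i) (b i) M t)
      (fun t => c j + tp (a j) (b j) M t)) + (∑ j, ∑ i, eA φ R i j
      (tp (fun k => -b i k) (a i) M) (tp (fun k => -b j k) (a j) M)) =
      (∑ j, ∑ i, c i * c j * Real.log ‖psi φ i j 0 0‖) + 2 * ∑ i, ∑ j, c j * S i j := by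
    rw [← Finset.sum_add_distrib]
    simp only [← Finset.sum_add_distrib, hA]
    simp only [Finset.sum_add_distrib]
    have h2 : ∑ j, ∑ i, c j * S i j = ∑ i, ∑ j, c j * S i j := Finset.sum_comm
    rw [h2]
    ring
  have hW : ∀ i, ∫ t in (0 : ℝ)..1, (∑ j, c j * Real.log ‖psi φ i j 0 (circ R t)‖) *
      tp (a i) (b i) M t = ∑ j, c j * S i j := by
    intro i
    have h1 : ∀ t, (∑ j, c j * Real.log ‖psi φ i j 0 (circ R t)‖) * tp (a i) (b i) M t =
        ∑ j, c j * (Real.log ‖psi φ i j 0 (circ R t)‖ * tp (a i) (b i) M t) := by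
      intro t
      rw [Finset.sum_mul]
      exact Finset.sum_congr rfl fun j _ => by ring
    simp only [h1]
    have h2 : ∀ j, Continuous fun t => c j * (Real.log ‖psi φ i j 0 (circ R t)‖ *
        tp (a i) (b i) M t) := fun j =>
      continuous_const.mul ((hcl i j).mul (continuous_tp _ _ _))
    rw [intervalIntegral.integral_finsetSum fun j _ => (h2 j).intervalIntegrable _ _]
    exact Finset.sum_congr rfl fun j _ => intervalIntegral.integral_const_mul _ _
  simp only [hW]
  have h3 : ∑ i, (c i ^ 2 * Real.log R - ∑ k ∈ Finset.Icc 1 M, (a i k ^ 2 + b i k ^ 2) /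
      (4 * k)) + ∑ i, (-∑ k ∈ Finset.Icc 1 M, (a i k ^ 2 + b i k ^ 2) / (4 * (k : ℝ))) =
      Real.log R * ∑ i, c i ^ 2 -
        ∑ i, ∑ k ∈ Finset.Icc 1 M, (a i k ^ 2 + b i k ^ 2) / (2 * k) := by
    rw [← Finset.sum_add_distrib, Finset.mul_sum, ← Finset.sum_sub_distrib]
    refine Finset.sum_congr rfl fun i _ => ?_
    have h4 : ∑ k ∈ Finset.Icc 1 M, (a i k ^ 2 + b i k ^ 2) / (2 * (k : ℝ)) =
        2 * ∑ k ∈ Finset.Icc 1 M, (a i k ^ 2 + b i k ^ 2) / (4 * (k : ℝ)) := by
      rw [Finset.mul_sum]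
      exact Finset.sum_congr rfl fun k _ => by ring
    rw [h4]
    ring
  linarith

/-- **The inequality** for the Fourier coefficients. -/
theorem ineq1 (c : Fin n → ℝ) (hc : ∑ i, c i = 0) {aa : Fin n → Fin n → ℂ → ℂ}
    (haa : ∀ i j, DifferentiableOn ℂ (aa i j) V)
    (hre : ∀ i j, ∀ u ∈ V, (aa i j u).re = Real.log ‖psi φ i j 0 u‖) (M : ℕ) :
    ∑ i, ∑ m ∈ Finset.Icc 1 M, (m : ℝ) / 2 * ‖∑ j, (c j : ℂ) * fc R (aa i j) m‖ ^ 2 ≤
      -((∑ j, ∑ i, c i * c j * Real.log ‖psi φ i j 0 0‖) + Real.log R * ∑ i, c i ^ 2) := by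
  have hcl := cont_lp0 H hR hV
  set W : Fin n → ℝ → ℝ := fun i t => ∑ j, c j * Real.log ‖psi φ i j 0 (circ R t)‖ with hW
  have hWc : ∀ i, Continuous (W i) := fun i =>
    continuous_finsetSum _ fun j _ => continuous_const.mul (hcl i j)
  set U : Fin n → ℕ → ℝ := fun i m => ∫ t in (0 : ℝ)..1, W i t * cs m t with hU
  set U' : Fin n → ℕ → ℝ := fun i m => ∫ t in (0 : ℝ)..1, W i t * sn m t with hU'
  have h1 := ineq0 H hR hV c hc (fun i m => 2 * m * U i m) (fun i m => 2 * m * U' i m) M
  -- the integral against the density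
  have h2 : ∀ i, ∫ t in (0 : ℝ)..1, (∑ j, c j * Real.log ‖psi φ i j 0 (circ R t)‖) *
      tp (fun m => 2 * m * U i m) (fun m => 2 * m * U' i m) M t =
      ∑ m ∈ Finset.Icc 1 M, (2 * m * U i m * U i m + 2 * m * U' i m * U' i m) := by
    intro i
    have e1 : ∀ t, (∑ j, c j * Real.log ‖psi φ i j 0 (circ R t)‖) *
        tp (fun m => 2 * m * U i m) (fun m => 2 * m * U' i m) M t = ∑ m ∈ Finset.Icc 1 M,
        (2 * m * U i m * (W i t * cs m t) + 2 * m * U' i m * (W i t * sn m t)) := by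
      intro t
      unfold tp
      rw [Finset.mul_sum]
      refine Finset.sum_congr rfl fun m _ => ?_
      simp only [hW]
      ring
    have c1 : ∀ m : ℕ, Continuous fun t => 2 * m * U i m * (W i t * cs m t) := fun m =>
      continuous_const.mul ((hWc i).mul (continuous_cs m))
    have c2 : ∀ m : ℕ, Continuous fun t => 2 * m * U' i m * (W i t * sn m t) := fun m =>
      continuous_const.mul ((hWc i).mul (continuous_sn m))
    have c3 : ∀ m : ℕ, Continuous fun t => 2 * m * U i m * (W i t * cs m t) +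
        2 * m * U' i m * (W i t * sn m t) := fun m => (c1 m).add (c2 m)
    simp only [e1]
    rw [intervalIntegral.integral_finsetSum fun m _ => (c3 m).intervalIntegrable _ _]
    refine Finset.sum_congr rfl fun m _ => ?_
    rw [intervalIntegral.integral_add ((c1 m).intervalIntegrable _ _)
      ((c2 m).intervalIntegrable _ _), intervalIntegral.integral_const_mul,
      intervalIntegral.integral_const_mul]
  simp only [h2] at h1
  -- the coefficients
  have h3 : ∀ i, ∀ m ∈ Finset.Icc 1 M, (m : ℝ) / 2 * ‖∑ j, (c j : ℂ) * fc R (aa i j) m‖ ^ 2 =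
      2 * m * (U i m ^ 2 + U' i m ^ 2) := by
    intro i m hm
    set g : ℂ → ℂ := fun u => ∑ j, (c j : ℂ) * aa i j u with hg
    have hgd : DifferentiableOn ℂ g V :=
      DifferentiableOn.fun_sum fun j _ => (haa i j).const_mul _
    have h4 := coef_sq hR hV hgd H.isOpen (Finset.mem_Icc.1 hm).1
    have h5 : ∀ t, (g (circ R t)).re = W i t := by
      intro t
      simp only [hg, hW, Complex.re_sum, Complex.re_ofReal_mul]
      exact Finset.sum_congr rfl fun j _ => by rw [hre i j _ (cmem hR hV t)]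
    have h6 : fc R g m = ∑ j, (c j : ℂ) * fc R (aa i j) m := by
      unfold fc
      have e1 : ∀ t, g (circ R t) * ((cs m t : ℂ) - (sn m t : ℂ) * Complex.I) =
          ∑ j, (c j : ℂ) * (aa i j (circ R t) * ((cs m t : ℂ) - (sn m t : ℂ) * Complex.I)) := by
        intro t
        simp only [hg]
        rw [Finset.sum_mul]
        exact Finset.sum_congr rfl fun j _ => by ring
      simp only [e1]
      have c1 : ∀ j, Continuous fun t => (c j : ℂ) * (aa i j (circ R t) *
          ((cs m t : ℂ) - (sn m t : ℂ) * Complex.I)) := fun j =>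
        continuous_const.mul ((cont_g hR hV (haa i j)).mul
          ((Complex.continuous_ofReal.comp (continuous_cs m)).sub
            ((Complex.continuous_ofReal.comp (continuous_sn m)).mul continuous_const)))
      rw [intervalIntegral.integral_finsetSum fun j _ => (c1 j).intervalIntegrable _ _]
      exact Finset.sum_congr rfl fun j _ => intervalIntegral.integral_const_mul _ _
    simp only [h5] at h4
    rw [h6] at h4
    have h7 : ‖∑ j, (c j : ℂ) * fc R (aa i j) m‖ ^ 2 = 4 * (U i m ^ 2 + U' i m ^ 2) := by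
      simp only [hU, hU']
      linarith
    rw [h7]
    ring
  have h4 : ∑ i, ∑ m ∈ Finset.Icc 1 M, (m : ℝ) / 2 * ‖∑ j, (c j : ℂ) * fc R (aa i j) m‖ ^ 2 =
      ∑ i, ∑ m ∈ Finset.Icc 1 M, 2 * (m : ℝ) * (U i m ^ 2 + U' i m ^ 2) :=
    Finset.sum_congr rfl fun i _ => Finset.sum_congr rfl fun m hm => h3 i m hm
  have h5 : ∑ i, ∑ k ∈ Finset.Icc 1 M, ((2 * (k : ℝ) * U i k) ^ 2 + (2 * (k : ℝ) * U' i k) ^ 2) /
      (2 * k) = ∑ i, ∑ m ∈ Finset.Icc 1 M, 2 * (m : ℝ) * (U i m ^ 2 + U' i m ^ 2) := by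
    refine Finset.sum_congr rfl fun i _ => Finset.sum_congr rfl fun m hm => ?_
    have hm0 : (m : ℝ) ≠ 0 := by
      have := (Finset.mem_Icc.1 hm).1
      exact_mod_cast (by omega : m ≠ 0)
    field_simp
  have h6 : ∑ i, ∑ m ∈ Finset.Icc 1 M, (2 * (m : ℝ) * U i m * U i m +
      2 * (m : ℝ) * U' i m * U' i m) =
      ∑ i, ∑ m ∈ Finset.Icc 1 M, 2 * (m : ℝ) * (U i m ^ 2 + U' i m ^ 2) :=
    Finset.sum_congr rfl fun i _ => Finset.sum_congr rfl fun m _ => by ring
  rw [h4]
  rw [h5, h6] at h1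
  linarith

end

end Pool.Agent.N686.RR
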