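import Pool.Agent.N686.RR.Loop
import Pool.Agent.N686.RR.Ineq
set_option autoImplicit false

/-!
The quadratic form of the regulators is negative.
-/

namespace Pool.Agent.N686.RR

open Set Filter Topology Complex MeasureTheory Polynomial

open Pool.Agent.N76.EC (th Wp Zp)

open Pool.Agent.Y775.CC (psi psi_self psi_ne)

open Pool.Agent.TH826.UH (pr NZ pr_mul)

open Pool.Agent.TH826.MK (circ norm_circ)

open Pool.Agent.N686.DI (tp)

open Pool.Agent.N686.EL (cs sn continuous_cs continuous_sn circ_eq_mul circ_one_pow_nat circ_one_pow_neg)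

open scoped Real ComplexConjugate

theorem hasSum_ii {F : ℕ → ℝ → ℂ} (hF : ∀ m, Continuous (F m)) {u : ℕ → ℝ} (hu : Summable u)
    (hb : ∀ m t, ‖F m t‖ ≤ u m) {G : ℝ → ℂ} (hG : ∀ t, HasSum (fun m => F m t) (G t)) (a b : ℝ) :
    HasSum (fun m => ∫ t in a..b, F m t) (∫ t in a..b, G t) := by
  refine intervalIntegral.hasSum_integral_of_dominated_convergence (fun m _ => u m)
    (fun m => (hF m).aestronglyMeasurable) (fun m => Eventually.of_forall fun t _ => hb m t)
    (Eventually.of_forall fun t _ => hu) ?_ (Eventually.of_forall fun t _ => hG t)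
  exact intervalIntegrable_const

/-- Taylor coefficients -/
noncomputable def tc (A : ℂ → ℂ) (m : ℕ) : ℂ := (m.factorial : ℂ)⁻¹ * iteratedDeriv m A 0

section taylor

variable {A : ℂ → ℂ} (hA : DifferentiableOn ℂ A (Metric.ball 0 1))

theorem tc_zero : tc A 0 = A 0 := by
  unfold tc
  simp

include hA

theorem hasSum_tc {z : ℂ} (hz : ‖z‖ < 1) : HasSum (fun m => tc A m * z ^ m) (A z) := by
  have h := Complex.hasSum_taylorSeries_on_ball hA (mem_ball_zero_iff.2 hz)
  have e : (fun m => tc A m * z ^ m) =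
      fun n : ℕ => (n.factorial : ℂ)⁻¹ • (z - 0) ^ n • iteratedDeriv n A 0 := by
    funext m
    unfold tc
    rw [sub_zero, smul_eq_mul, smul_eq_mul]
    ring
  rw [e]
  exact h

variable {R : ℝ} (h0 : 0 < R) (h1 : R < 1)

include h0 h1

theorem summable_tc : Summable fun m => ‖tc A m‖ * R ^ m := by
  have h := (hasSum_tc hA (z := (R : ℂ)) (by
    rw [Complex.norm_real, Real.norm_eq_abs, abs_of_pos h0]
    exact h1)).summable.norm
  refine h.congr fun m => ?_
  rw [norm_mul, norm_pow, Complex.norm_real, Real.norm_eq_abs, abs_of_pos h0]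

omit hA in
theorem norm_lt {w : ℂ} (hw : ‖w‖ ≤ 1) : ‖(R : ℂ) * w‖ < 1 := by
  rw [norm_mul, Complex.norm_real, Real.norm_eq_abs, abs_of_pos h0]
  nlinarith [norm_nonneg w]

theorem hasSum_Av {w : ℝ → ℂ} (hw : Continuous w) (hle : ∀ t, ‖w t‖ ≤ 1) (η : ℝ) :
    HasSum (fun m => tc A m * R ^ m * Av η (fun t => w t ^ m)) (Av η fun t => A (R * w t)) := by
  have hd : ∀ t, ‖dth η t‖ ≤ 2 * π + |η| * (2 * π) := by
    intro t
    have hπ := Real.pi_pos
    unfold dth
    refine (norm_add_le _ _).trans ?_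
    rw [norm_mul, Complex.norm_I, mul_one, Complex.norm_real, Complex.norm_real, Real.norm_eq_abs,
      Real.norm_eq_abs, abs_of_pos (by positivity : 0 < 2 * π), abs_mul, abs_mul,
      abs_of_pos (by positivity : 0 < 2 * π)]
    have := Real.abs_cos_le_one (2 * π * t)
    have h2 := abs_nonneg η
    have h3 : |η| * (|Real.cos (2 * π * t)| * (2 * π)) ≤ |η| * (1 * (2 * π)) := by gcongr
    linarith
  have hs := summable_tc hA h0 h1
  have h := hasSum_ii (F := fun m t => tc A m * (R * w t) ^ m * dth η t)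
    (G := fun t => A (R * w t) * dth η t)
    (u := fun m => ‖tc A m‖ * R ^ m * (2 * π + |η| * (2 * π))) (fun m => by
      exact (continuous_const.mul ((continuous_const.mul hw).pow m)).mul (continuous_dth η))
    (hs.mul_right _) (fun m t => by
      rw [norm_mul, norm_mul, norm_pow, norm_mul, Complex.norm_real, Real.norm_eq_abs, abs_of_pos h0]
      have h2 : (R * ‖w t‖) ^ m ≤ R ^ m := by
        refine pow_le_pow_left₀ (mul_nonneg h0.le (norm_nonneg _)) ?_ m
        nlinarith [hle t]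
      have h3 := hd t
      have h4 : 0 ≤ (R * ‖w t‖) ^ m := pow_nonneg (mul_nonneg h0.le (norm_nonneg _)) m
      gcongr)
    (fun t => (hasSum_tc hA (norm_lt h0 h1 (hle t))).mul_right _) 0 (1 / 2)
  have h5 := h.mul_left ((π : ℂ)⁻¹)
  have e : (fun m => tc A m * R ^ m * Av η (fun t => w t ^ m)) =
      fun m => (π : ℂ)⁻¹ * ∫ t in (0 : ℝ)..(1 / 2), tc A m * (R * w t) ^ m * dth η t := by
    funext m
    unfold Av
    have e2 : ∀ t, tc A m * (R * w t) ^ m * dth η t = tc A m * R ^ m * (w t ^ m * dth η t) :=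
      fun t => by
        rw [mul_pow]
        ring
    simp only [e2]
    rw [intervalIntegral.integral_const_mul]
    ring
  rw [e]
  exact h5

omit hA h0 h1 in
theorem int_delta (n m : ℕ) : ∫ t in (0 : ℝ)..1, circ 1 t ^ n * ((cs m t : ℂ) - (sn m t : ℂ) * I) =
    if n = m then 1 else 0 := by
  have e : ∀ t : ℝ, circ 1 t ^ n * ((cs m t : ℂ) - (sn m t : ℂ) * I) =
      Complex.exp (((n : ℂ) - m) * (2 * π * I) * t) := by
    intro t
    rw [← circ_one_pow_neg]
    unfold circ
    rw [Complex.ofReal_one, one_mul, zpow_neg, zpow_natCast, ← Complex.exp_nat_mul, ← Complex.exp_nat_mul,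
      ← Complex.exp_neg, ← Complex.exp_add]
    congr 1
    ring
  simp only [e]
  by_cases h : n = m
  · subst h
    simp
  · rw [if_neg h]
    have hc : ((n : ℂ) - m) * (2 * π * I) ≠ 0 := by
      refine mul_ne_zero ?_ Complex.two_pi_I_ne_zero
      rw [sub_ne_zero]
      exact_mod_cast h
    rw [integral_exp_mul_complex hc]
    have h2 : Complex.exp (((n : ℂ) - m) * (2 * π * I) * ((1 : ℝ) : ℂ)) = 1 := by
      have := Complex.exp_int_mul_two_pi_mul_I ((n : ℤ) - m)
      rw [Complex.ofReal_one, mul_one]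
      rw [← this]
      push_cast
      rfl
    rw [h2]
    simp

theorem fc_tc (m : ℕ) : fc R A m = tc A m * R ^ m := by
  have hc : Continuous fun t => (cs m t : ℂ) - (sn m t : ℂ) * I :=
    (Complex.continuous_ofReal.comp (continuous_cs m)).sub
      ((Complex.continuous_ofReal.comp (continuous_sn m)).mul continuous_const)
  have hn : ∀ t, ‖(cs m t : ℂ) - (sn m t : ℂ) * I‖ = 1 := by
    intro t
    rw [← circ_one_pow_neg, norm_zpow, norm_circ zero_le_one, one_zpow]
  have hcc : Continuous fun t => circ 1 t := (Pool.Agent.TH826.MK.contDiff_circ 1 (n := 0)).continuous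
  have h := hasSum_ii (F := fun n t => tc A n * (R * circ 1 t) ^ n * ((cs m t : ℂ) - (sn m t : ℂ) * I))
    (G := fun t => A (R * circ 1 t) * ((cs m t : ℂ) - (sn m t : ℂ) * I))
    (u := fun n => ‖tc A n‖ * R ^ n) (fun n =>
      (continuous_const.mul ((continuous_const.mul hcc).pow n)).mul hc) (summable_tc hA h0 h1)
    (fun n t => by
      rw [norm_mul, norm_mul, hn, norm_pow, norm_mul, norm_circ zero_le_one, Complex.norm_real,
        Real.norm_eq_abs, abs_of_pos h0, mul_one, mul_one])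
    (fun t => (hasSum_tc hA (norm_lt h0 h1 (norm_circ zero_le_one t).le)).mul_right _) 0 1
  have e : (fun n => ∫ t in (0 : ℝ)..1, tc A n * (R * circ 1 t) ^ n * ((cs m t : ℂ) - (sn m t : ℂ) * I)) =
      fun n => if n = m then tc A m * R ^ m else 0 := by
    funext n
    have e2 : ∀ t, tc A n * (R * circ 1 t) ^ n * ((cs m t : ℂ) - (sn m t : ℂ) * I) =
        tc A n * R ^ n * (circ 1 t ^ n * ((cs m t : ℂ) - (sn m t : ℂ) * I)) := fun t => by
      rw [mul_pow]
      ring
    simp only [e2]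
    rw [intervalIntegral.integral_const_mul, int_delta]
    split_ifs with h3
    · rw [h3, mul_one]
    · rw [mul_zero]
  rw [e] at h
  have h2 := h.unique (hasSum_ite_eq m _)
  unfold fc
  rw [← h2]
  refine intervalIntegral.integral_congr fun t _ => ?_
  rw [circ_eq_mul R t]

theorem int_cs' {m : ℕ} (hm : 1 ≤ m) :
    ∫ t in (0 : ℝ)..1, (A (circ R t)).re * cs m t = (tc A m * R ^ m).re / 2 := by
  have hV : ∀ z : ℂ, ‖z‖ ≤ R → z ∈ Metric.ball (0 : ℂ) 1 := fun z hz =>
    mem_ball_zero_iff.2 (lt_of_le_of_lt hz h1)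
  have h := fc_eq h0 hV hA Metric.isOpen_ball hm
  rw [fc_tc hA h0 h1] at h
  have hgc := cont_g h0 hV hA
  have c1 : Continuous fun t => A (circ R t) * (cs m t : ℂ) :=
    hgc.mul (Complex.continuous_ofReal.comp (continuous_cs m))
  have h2 := re_int c1
  have e : ∀ t, (A (circ R t) * (cs m t : ℂ)).re = (A (circ R t)).re * cs m t := fun t => by
    rw [Complex.re_mul_ofReal]
  simp only [e] at h2
  rw [← h2, h]
  have e3 : ∀ z : ℂ, (2 * z).re = 2 * z.re := fun z => by simp
  rw [e3]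
  ring

end taylor

/-! ### The form -/


section form

variable {n : ℕ} {Φ : Fin n → ℂ → ℂ} (H : Uni (Metric.ball (0 : ℂ) 1) Φ) {aa : Fin n → Fin n → ℂ → ℂ}
  (haa : ∀ i j, DifferentiableOn ℂ (aa i j) (Metric.ball (0 : ℂ) 1))
  (he : ∀ i j, ∀ u ∈ (Metric.ball (0 : ℂ) 1), Complex.exp (aa i j u) = psi Φ i j 0 u)
  {R : ℝ} (h0 : 0 < R) (h1 : R < 1) {κ : ℝ} {w : ℝ → ℂ} (W : Wr κ w)
  (c : Fin n → ℝ) (hc : ∑ i, c i = 0)

include H haa he h0 h1 W hc

theorem step (M : ℕ) : (∑ i, ∑ j, c i * c j * (tc (aa i j) 0).re) +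
    (∑ i, ∑ j, c i * c j * ∑ m ∈ Finset.Icc 1 M, (tc (aa i j) m * R ^ m).re * pm w m) ≤
      (-Real.log R - lam w / 2) * ∑ i, c i ^ 2 := by
  have hV : ∀ z : ℂ, ‖z‖ ≤ R → z ∈ (Metric.ball (0 : ℂ) 1) := fun z hz => mem_ball_zero_iff.2 (lt_of_le_of_lt hz h1)
  have hlog : ∀ i j, ∀ u ∈ (Metric.ball (0 : ℂ) 1), Real.log ‖psi Φ i j 0 u‖ = (aa i j u).re := fun i j u hu => by
    rw [← he i j u hu, Complex.norm_exp, Real.log_exp]
  have key := ineq0 H h0 hV c hc (fun i m => c i * pm w m) (fun _ _ => 0) M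
  have hmem : ∀ t, circ R t ∈ (Metric.ball (0 : ℂ) 1) := fun t => hV _ (norm_circ h0.le t).le
  have e1 : (∑ j, ∑ i, c i * c j * Real.log ‖psi Φ i j 0 0‖) =
      ∑ i, ∑ j, c i * c j * (tc (aa i j) 0).re := by
    rw [Finset.sum_comm]
    refine Finset.sum_congr rfl fun i _ => Finset.sum_congr rfl fun j _ => ?_
    rw [hlog i j 0 (Metric.mem_ball_self one_pos), tc_zero]
  have e2 : 2 * (∑ i, ∫ t in (0 : ℝ)..1, (∑ j, c j * Real.log ‖psi Φ i j 0 (circ R t)‖) *
      tp (fun m => c i * pm w m) (fun _ => 0) M t) =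
      ∑ i, ∑ j, c i * c j * ∑ m ∈ Finset.Icc 1 M, (tc (aa i j) m * R ^ m).re * pm w m := by
    rw [Finset.mul_sum]
    refine Finset.sum_congr rfl fun i _ => ?_
    have e3 : ∀ t, (∑ j, c j * Real.log ‖psi Φ i j 0 (circ R t)‖) *
        tp (fun m => c i * pm w m) (fun _ => 0) M t =
        ∑ j, ∑ m ∈ Finset.Icc 1 M, c i * c j * pm w m * ((aa i j (circ R t)).re * cs m t) := by
      intro t
      unfold tp
      rw [Finset.sum_mul]
      refine Finset.sum_congr rfl fun j _ => ?_
      rw [Finset.mul_sum]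
      refine Finset.sum_congr rfl fun m _ => ?_
      rw [hlog i j _ (hmem t)]
      ring
    simp only [e3]
    have hct : ∀ j m, Continuous fun t => c i * c j * pm w m * ((aa i j (circ R t)).re * cs m t) :=
      fun j m => continuous_const.mul ((continuous_re.comp (cont_g h0 hV (haa i j))).mul
        (continuous_cs m))
    rw [intervalIntegral.integral_finsetSum fun j _ => (continuous_finsetSum _ fun m _ =>
      hct j m).intervalIntegrable _ _, Finset.mul_sum]
    refine Finset.sum_congr rfl fun j _ => ?_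
    rw [intervalIntegral.integral_finsetSum fun m _ => (hct j m).intervalIntegrable _ _,
      Finset.mul_sum, Finset.mul_sum]
    refine Finset.sum_congr rfl fun m hm => ?_
    rw [intervalIntegral.integral_const_mul, int_cs' (haa i j) h0 h1 (Finset.mem_Icc.1 hm).1]
    ring
  have e4 : ∑ i, ∑ k ∈ Finset.Icc 1 M, ((c i * pm w k) ^ 2 + (0 : ℝ) ^ 2) / (2 * k) =
      (∑ i, c i ^ 2) * ((∑ m ∈ Finset.Icc 1 M, pm w m ^ 2 / m) / 2) := by
    rw [Finset.sum_mul]
    refine Finset.sum_congr rfl fun i _ => ?_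
    rw [Finset.sum_div, Finset.mul_sum]
    refine Finset.sum_congr rfl fun m hm => ?_
    have hm0 : (m : ℝ) ≠ 0 := by
      have := (Finset.mem_Icc.1 hm).1
      exact_mod_cast (by omega : m ≠ 0)
    field_simp
    ring
  rw [e1, e2, e4] at key
  have h5 := sum_pm_le W M
  have h6 : 0 ≤ ∑ i, c i ^ 2 := Finset.sum_nonneg fun i _ => sq_nonneg _
  nlinarith [mul_le_mul_of_nonneg_left h5 h6]

end form

end Pool.Agent.N686.RR
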