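import Pool.Agent.N686.DI.Int2
set_option autoImplicit false

/-!
The critical values of polynomials with distinct integral roots are at least `1/2`.
-/

namespace Pool.Agent.N686.RR

open Polynomial

open Pool.Agent.N686.DI

theorem mm_four : mm 4 = 9 / 16 := by
  rw [mm_succ, mm_succ, mm_two]
  norm_num

theorem mm_ge_four {n : ℕ} (hn : 4 ≤ n) : 9 / 16 ≤ mm n := by
  induction n, hn using Nat.le_induction with
  | base => rw [mm_four]
  | succ n hn ih => exact ih.trans (mm_le_succ (by omega))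

/-- the critical points are real -/
theorem crit_real {n : ℕ} (hn : 0 < n) (a : Fin n → ℝ) (ha : Function.Injective a) {ξ : ℂ}
    (hξ : (derivative (∏ i, (X - C (a i : ℂ)))).eval ξ = 0) : ξ.im = 0 := by
  have hinj : Function.Injective fun i => (a i : ℂ) := fun i j h =>
    ha (Complex.ofReal_injective h)
  obtain ⟨h0, hsum⟩ := sum_inv_eq_zero _ hinj hξ
  exact real_of_crit a hn h0 hsum

theorem crit_half {n : ℕ} (hn : 0 < n) (a : Fin n → ℤ) (ha : Function.Injective a) {ξ : ℂ}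
    (hξ : (derivative (∏ i, (X - C (a i : ℂ)))).eval ξ = 0) :
    1 ≤ ‖∏ i, (ξ - (a i : ℂ))‖ ∨
      ∃ N : ℤ, ∏ i, |(N : ℝ) + 1 / 2 - a i| ≤ ‖∏ i, (ξ - (a i : ℂ))‖ := by
  have hinj : Function.Injective fun i => (a i : ℂ) := fun i j h =>
    ha (Int.cast_injective h)
  obtain ⟨h0, hsum⟩ := sum_inv_eq_zero _ hinj hξ
  have hcast : ∀ i, (a i : ℂ) = ((a i : ℝ) : ℂ) := fun i => by push_cast; rfl
  have him : ξ.im = 0 := by
    refine real_of_crit (fun i => (a i : ℝ)) hn (fun i => ?_) ?_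
    · rw [← hcast]
      exact h0 i
    · simpa only [hcast] using hsum
  set x : ℝ := ξ.re with hx
  have hξx : ξ = (x : ℂ) := by
    apply Complex.ext
    · simp [hx]
    · simpa using him
  have hx0 : ∀ i, x - a i ≠ 0 := by
    intro i h
    refine h0 i ?_
    rw [hξx, hcast, ← Complex.ofReal_sub, h, Complex.ofReal_zero]
  have hxs : ∑ i, (x - a i)⁻¹ = 0 := by
    have h1 : ((∑ i, (x - a i)⁻¹ : ℝ) : ℂ) = 0 := by
      rw [← hsum]
      push_cast
      rw [hξx]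
    exact_mod_cast h1
  have hnorm : ‖∏ i, (ξ - (a i : ℂ))‖ = ∏ i, |x - a i| := by
    rw [norm_prod]
    refine Finset.prod_congr rfl fun i _ => ?_
    rw [hξx, hcast, ← Complex.ofReal_sub, Complex.norm_real, Real.norm_eq_abs]
  rw [hnorm]
  set N : ℤ := ⌊x⌋ with hN
  have hN1 : (N : ℝ) ≤ x := Int.floor_le x
  have hN2 : x < N + 1 := Int.lt_floor_add_one x
  rcases hN1.eq_or_lt with he | hlt
  · left
    have h1 : ∀ i, 1 ≤ |x - a i| := by
      intro i
      have h2 := hx0 i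
      rw [← he] at h2 ⊢
      have h3 : N - a i ≠ 0 := by
        intro h
        apply h2
        exact_mod_cast congrArg (fun y : ℤ => (y : ℝ)) h
      have h4 := Int.one_le_abs h3
      exact_mod_cast h4
    calc (1 : ℝ) = ∏ _i : Fin n, (1 : ℝ) := by simp
      _ ≤ ∏ i, |x - a i| := Finset.prod_le_prod (fun _ _ => zero_le_one) fun i _ => h1 i
  · right
    refine ⟨N, le_crit_value (fun i => (a i : ℝ)) (x := x) (m := N + 1 / 2) hx0 hxs fun i => ?_⟩
    rcases le_or_gt (a i) N with h | h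
    · have h2 : (a i : ℝ) ≤ N := by exact_mod_cast h
      exact div_pos (by linarith) (by linarith)
    · have h2 : (N : ℝ) + 1 ≤ a i := by exact_mod_cast (by omega : N + 1 ≤ a i)
      exact div_pos_of_neg_of_neg (by linarith) (by linarith)

theorem half_le_abs (N a : ℤ) : 1 / 2 ≤ |(N : ℝ) + 1 / 2 - a| := by
  rw [abs_sub_half]
  have : (0 : ℝ) ≤ ((enu N a / 2 : ℕ) : ℝ) := Nat.cast_nonneg _
  linarith

theorem three_aux (b : Fin 3 → ℤ) {i j : Fin 3} (h : 3 ≤ b i - b j) (N : ℤ) :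
    1 / 2 ≤ ∏ i, |(N : ℝ) + 1 / 2 - b i| := by
  have h1 := fun i => half_le_abs N (b i)
  have h2 : (3 : ℝ) ≤ |(N : ℝ) + 1 / 2 - b i| + |(N : ℝ) + 1 / 2 - b j| := by
    have h3 : (3 : ℝ) ≤ (b i : ℝ) - b j := by exact_mod_cast h
    have h4 := neg_abs_le ((N : ℝ) + 1 / 2 - b i)
    have h5 := le_abs_self ((N : ℝ) + 1 / 2 - b j)
    linarith
  have h3 : i ≠ j := by
    rintro rfl
    simp at h
  set u : Fin 3 → ℝ := fun i => |(N : ℝ) + 1 / 2 - b i| with hu
  have h1' : ∀ i, 1 / 2 ≤ u i := h1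
  have h4 : 5 / 4 ≤ u i * u j := by
    have h2' : 3 ≤ u i + u j := h2
    nlinarith [h1' i, h1' j, mul_nonneg (sub_nonneg.2 (h1' i)) (sub_nonneg.2 (h1' j))]
  have h5 : ∃ k, ∏ i, u i = u i * u j * u k := by
    rw [Fin.prod_univ_three]
    have hi : ∀ i : Fin 3, i = 0 ∨ i = 1 ∨ i = 2 := by decide
    rcases hi i with rfl | rfl | rfl <;> rcases hi j with rfl | rfl | rfl <;> first
      | exact absurd rfl h3
      | (refine ⟨0, ?_⟩; ring1)
      | (refine ⟨1, ?_⟩; ring1)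
      | (refine ⟨2, ?_⟩; ring1)
  obtain ⟨k, hk⟩ := h5
  rw [hk]
  nlinarith [h1' k]

/-- **The critical values of `m ∏ (x - b_i)` are at least `1/2`.** -/
theorem half_le {g : ℕ} {m : ℂ} (hm : 1 ≤ ‖m‖) (b : Fin (g + 1) → ℤ) (hb : Function.Injective b)
    (h : 3 ≤ g ∨ 2 ≤ ‖m‖ ∨ ∃ i j, (g : ℤ) + 1 ≤ b i - b j) {ξ : ℂ}
    (hξ : (derivative (∏ i, (X - C (b i : ℂ)))).eval ξ = 0) :
    1 / 2 ≤ ‖m * ∏ i, (ξ - (b i : ℂ))‖ := by
  obtain ⟨h1, h2⟩ := crit_int_ge b hb hξ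
  rw [norm_mul]
  have h0 := norm_nonneg (∏ i, (ξ - (b i : ℂ)))
  have hred : 1 / 2 ≤ ‖∏ i, (ξ - (b i : ℂ))‖ → 1 / 2 ≤ ‖m‖ * ‖∏ i, (ξ - (b i : ℂ))‖ :=
    fun h4 => by nlinarith
  by_cases hg : 3 ≤ g
  · apply hred
    have h4 := (mm_ge_four (by omega : 4 ≤ g + 1)).trans (crit_int (Nat.succ_pos g) b hb hξ)
    linarith
  rcases h with h | h | ⟨i, j, h⟩
  · exact absurd h hg
  · nlinarith
  · apply hred
    have hg' : g = 1 ∨ g = 2 := by omega
    rcases hg' with rfl | rfl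
    · have h4 := crit_int_diam b hb hξ i j
      rw [mm_one] at h4
      have h5 : (2 : ℝ) ≤ (b i : ℝ) - b j := by exact_mod_cast h
      have h6 := le_abs_self ((b i : ℝ) - b j)
      linarith
    · rcases crit_half (Nat.succ_pos 2) b hb hξ with h4 | ⟨N, h4⟩
      · linarith
      · exact (three_aux b (i := i) (j := j) (by exact_mod_cast h) N).trans h4

end Pool.Agent.N686.RR
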