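import Pool.Agent.N686.RR.Branch
set_option autoImplicit false

/-!
The loops and the regulators.
-/

namespace Pool.Agent.N686.RR

open Set Filter Topology Complex MeasureTheory Polynomial

open Pool.Agent.N76.EC (th Wp Zp Cv exists_lift lift_unique Wp_of_sin contDiff_Wp Wp_add_one)

open Pool.Agent.Y775.CC (psi psi_self psi_ne)

open Pool.Agent.TH826.UH (pr NZ pr_mul)

open scoped Real ComplexConjugate

theorem log_diff {L L' : ℝ → ℂ} (h : Continuous L) (h' : Continuous L')
    (he : ∀ t, Complex.exp (L t) = Complex.exp (L' t)) :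
    ∃ n : ℤ, ∀ t, L t = L' t + n * (2 * π * I) := by
  have hπ := Real.pi_pos
  choose m hm using fun t => Complex.exp_eq_exp_iff_exists_int.1 (he t)
  have h1 : ∀ t, (L t - L' t).im / (2 * π) = m t := by
    intro t
    have e : L t - L' t = ((m t * (2 * π) : ℝ) : ℂ) * I := by
      rw [hm t]
      push_cast
      ring
    rw [e, im_ofReal_mul, I_im]
    field_simp
  have hc : Continuous fun t => (L t - L' t).im / (2 * π) :=
    (continuous_im.comp (h.sub h')).div_const _
  have h2 : ∀ t, m t = m 0 := by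
    intro t
    have h3 := isPreconnected_univ.constant_of_mapsTo
      (Int.isClosedEmbedding_coe_real.isInducing.isDiscrete_range) hc.continuousOn
      (fun t _ => ⟨m t, (h1 t).symm⟩) (mem_univ t) (mem_univ 0)
    rw [h1, h1] at h3
    exact_mod_cast h3
  exact ⟨m 0, fun t => by rw [hm t, h2 t]⟩

theorem exists_clog {f : ℝ × ℝ → ℂ} (hf : Continuous f) (h0 : ∀ x, f x ≠ 0) :
    ∃ Λ : ℝ × ℝ → ℂ, Continuous Λ ∧ ∀ x, Complex.exp (Λ x) = f x := by
  have hsc : IsSimplyConnected (univ : Set (ℝ × ℝ)) := by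
    have : ContractibleSpace ((univ : Set (ℝ × ℝ))) := convex_univ.contractibleSpace ⟨0, mem_univ _⟩
    exact SimplyConnectedSpace.ofContractible _
  obtain ⟨B, hBc, hB⟩ := Complex.exists_continuousOn_eqOn_exp_comp hsc isOpen_univ hf.continuousOn (by
      rintro ⟨x, -, h⟩
      exact h0 x h)
  exact ⟨B, continuousOn_univ.1 hBc, fun x => hB (mem_univ x)⟩

theorem lim_eq {f g : ℝ → ℂ} (hf : Continuous f) (hg : Continuous g)
    (h : ∀ R, 0 ≤ R → R < 1 → f R = g R) : f 1 = g 1 := by
  have h1 : EqOn f g (Ico 0 1) := fun R hR => h R hR.1 hR.2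
  have h2 := h1.closure hf hg
  rw [closure_Ico (zero_ne_one)] at h2
  exact h2 ⟨zero_le_one, le_rfl⟩

/-- the lifts over the square -/
structure Sq (G : ℂ[X]) (κ : ℝ) {n : ℕ} (b : Fin n → ℂ) (Φ : Fin n → ℂ → ℂ) (w : ℝ → ℂ)
    (F : Fin n → ℝ × ℝ → ℂ) : Prop where
  cont : ∀ k, Continuous (F k)
  ev : ∀ k x, G.eval (F k x) = κ + ff (qp w x)
  zero : ∀ k x, cl x.1 = 0 → F k x = b k
  eq : ∀ k (R t : ℝ), 0 ≤ R → R < 1 → F k (R, t) = Φ k (R * w t)

variable {G : ℂ[X]} {κ η : ℝ} {w l : ℝ → ℂ} {n : ℕ} {b : Fin n → ℂ} {Φ : Fin n → ℂ → ℂ}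

theorem exists_Sq (P : Pth κ η w l) (B : Br G κ b Φ) : ∃ F, Sq G κ b Φ w F := by
  choose F h1 h2 h3 h4 using exists_F P B
  exact ⟨F, h1, h2, h3, h4⟩

namespace Sq

variable {F : Fin n → ℝ × ℝ → ℂ} (S : Sq G κ b Φ w F) (P : Pth κ η w l) (B : Br G κ b Φ)

include S P

theorem one_symm (k : Fin n) (t : ℝ) : F k (1, 1 - t) = F k (1, t) := by
  refine lim_eq (f := fun R => F k (R, 1 - t)) (g := fun R => F k (R, t))
    ((S.cont k).comp (by fun_prop)) ((S.cont k).comp (by fun_prop)) fun R h0 h1 => ?_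
  rw [S.eq k R _ h0 h1, S.eq k R _ h0 h1, P.symm]

theorem one_per (k : Fin n) (t : ℝ) : F k (1, t + 1) = F k (1, t) := by
  refine lim_eq (f := fun R => F k (R, t + 1)) (g := fun R => F k (R, t))
    ((S.cont k).comp (by fun_prop)) ((S.cont k).comp (by fun_prop)) fun R h0 h1 => ?_
  rw [S.eq k R _ h0 h1, S.eq k R _ h0 h1, P.per]

theorem one_ev (k : Fin n) (t : ℝ) : G.eval (F k (1, t)) = Wp η t := by
  rw [S.ev]
  unfold qp
  simp only [cl_one, Complex.ofReal_one, one_mul]
  rw [P.eq]
  ring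

include B

theorem one_smooth (k : Fin n) : ContDiff ℝ 2 fun t => F k (1, t) := by
  rw [contDiff_iff_contDiffAt]
  intro t
  have hd : (derivative G).eval (F k (1, t)) ≠ 0 := by
    intro h
    refine qp_Cv P B.cv (1, t) ⟨_, h, S.ev k _⟩
  obtain ⟨g, hg, hgev, -⟩ := exists_inv hd
  have hc : Continuous fun t => F k (1, t) := (S.cont k).comp (by fun_prop)
  have h3 : (fun t => F k (1, t)) =ᶠ[𝓝 t] fun v => g (Wp η v) := by
    filter_upwards [hc.continuousAt.eventually hgev] with v hv
    rw [← one_ev S P k v, hv]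
  rw [one_ev S P k t] at hg
  exact ((hg.restrict_scalars ℝ).comp t (contDiff_Wp η).contDiffAt).congr_of_eventuallyEq h3

omit B in
theorem Wp_ne' (t : ℝ) : Wp η t ≠ κ := by
  intro h
  have h1 := P.eq t
  rw [h, sub_self] at h1
  unfold ff at h1
  exact (div_ne_zero (P.ne0 t) (P.ne t)) h1

variable {m : ℂ} (hm : m ≠ 0) (hprod : ∀ x : ℂ, G.eval x - κ = m * ∏ i, (x - b i))

include hprod

omit S P in
theorem eval_b (k : Fin n) : G.eval (b k) = κ := by
  have h := hprod (b k)
  rw [Finset.prod_eq_zero (Finset.mem_univ k) (sub_self _), mul_zero] at h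
  exact sub_eq_zero.1 h

theorem one_ne (k j : Fin n) (t : ℝ) : F k (1, t) - b j ≠ 0 := by
  intro h
  have h1 := one_ev S P k t
  rw [sub_eq_zero.1 h, eval_b B hprod] at h1
  exact Wp_ne' S P t h1.symm

theorem ne_b {k j : Fin n} (hjk : j ≠ k) (x : ℝ × ℝ) : F k x - b j ≠ 0 := by
  intro h
  have h1 := S.ev k x
  rw [sub_eq_zero.1 h, eval_b B hprod] at h1
  have h2 : ff (qp w x) = 0 := by linear_combination -h1
  unfold ff at h2
  have h3 := (div_eq_zero_iff.1 h2).resolve_right (qp_ne P x)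
  unfold qp at h3
  have h4 := (mul_eq_zero.1 h3).resolve_right (P.ne0 _)
  have h5 : cl x.1 = 0 := by exact_mod_cast h4
  have h6 := S.zero k x h5
  rw [sub_eq_zero.1 h] at h6
  exact hjk (B.inj h6)

omit S P B hprod in
/-- the factors -/
noncomputable def Ef (F : Fin n → ℝ × ℝ → ℂ) (b : Fin n → ℂ) (m : ℂ) (w : ℝ → ℂ) (k j : Fin n)
    (x : ℝ × ℝ) : ℂ :=
  if j = k then (m * (1 + qp w x ^ 2) * ∏ i ∈ Finset.univ.erase k, (F k x - b i))⁻¹ else F k x - b j

include hm

theorem prod_ne (k : Fin n) (x : ℝ × ℝ) :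
    m * (1 + qp w x ^ 2) * ∏ i ∈ Finset.univ.erase k, (F k x - b i) ≠ 0 :=
  mul_ne_zero (mul_ne_zero hm (qp_ne P x)) (Finset.prod_ne_zero_iff.2 fun i hi =>
    ne_b S P B hprod (Finset.ne_of_mem_erase hi) x)

theorem Ef_ne (k j : Fin n) (x : ℝ × ℝ) : Ef F b m w k j x ≠ 0 := by
  unfold Ef
  split_ifs with h
  · exact inv_ne_zero (prod_ne S P B hm hprod k x)
  · exact ne_b S P B hprod h x

theorem Ef_cont (k j : Fin n) : Continuous (Ef F b m w k j) := by
  unfold Ef
  split_ifs with h
  · refine Continuous.inv₀ ?_ (prod_ne S P B hm hprod k)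
    exact (continuous_const.mul (continuous_const.add ((qp_cont P).pow 2))).mul
      (continuous_finsetProd _ fun i _ => (S.cont k).sub continuous_const)
  · exact (S.cont k).sub continuous_const

theorem key (k : Fin n) (x : ℝ × ℝ) :
    F k x - b k = qp w x * (m * (1 + qp w x ^ 2) * ∏ i ∈ Finset.univ.erase k, (F k x - b i))⁻¹ := by
  have h0 := prod_ne S P B hm hprod k x
  have h1 := hprod (F k x)
  rw [S.ev, ← Finset.mul_prod_erase _ _ (Finset.mem_univ k)] at h1
  have h2 : ff (qp w x) * (1 + qp w x ^ 2) = qp w x := div_mul_cancel₀ _ (qp_ne P x)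
  rw [eq_mul_inv_iff_mul_eq₀ h0]
  linear_combination -(1 + qp w x ^ 2) * h1 + h2

theorem Ef_psi (k j : Fin n) {R : ℝ} (h0 : 0 < R) (h1 : R < 1) (t : ℝ) :
    Ef F b m w k j (R, t) = psi Φ k j 0 (R * w t) := by
  unfold Ef
  split_ifs with h
  · subst h
    have hne : (R : ℂ) * w t ≠ 0 :=
      mul_ne_zero (by exact_mod_cast h0.ne') (P.ne0 t)
    have hq : qp w (R, t) = R * w t := by
      unfold qp
      simp only
      rw [cl_eq h0.le h1.le]
    rw [psi_self, dslope_of_ne _ hne, slope_def_field, sub_zero, B.zero, ← S.eq j R t h0.le h1,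
      eq_div_iff hne, key S P B hm hprod, hq]
    ring
  · rw [psi_ne (Ne.symm h), B.zero, ← S.eq k R t h0.le h1]

theorem Ef_one (k j : Fin n) (t : ℝ) :
    Ef F b m w k j (1, t) * (if j = k then w t else 1) = F k (1, t) - b j := by
  unfold Ef
  split_ifs with h
  · subst h
    rw [key S P B hm hprod]
    have hq : qp w (1, t) = w t := by
      unfold qp
      simp only [cl_one, Complex.ofReal_one, one_mul]
    rw [hq]
    ring
  · rw [mul_one]

/-- the regulators -/
noncomputable def rg (η : ℝ) (F : Fin n → ℝ × ℝ → ℂ) (b : Fin n → ℂ) (k j : Fin n) : ℝ :=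
  -(pr (Zp η) fun t => F k (1, t) - b j) / (2 * π)

omit S P B hm hprod in
theorem Av_const_re (η : ℝ) (c : ℤ) : (Av η fun _ => (c : ℂ) * (2 * π * I)).re = 0 := by
  unfold Av
  rw [intervalIntegral.integral_const_mul, int_dth]
  have hπ : (π : ℂ) ≠ 0 := by exact_mod_cast Real.pi_ne_zero
  have e : (π : ℂ)⁻¹ * ((c : ℂ) * (2 * π * I) * π) = ((c * (2 * π) : ℝ) : ℂ) * I := by
    push_cast
    field_simp
  rw [e, re_ofReal_mul, I_re, mul_zero]

omit S P B hm hprod in
theorem Av_add {η : ℝ} {L L' : ℝ → ℂ} (h : Continuous L) (h' : Continuous L') :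
    Av η (fun t => L t + L' t) = Av η L + Av η L' := by
  have h1 : Continuous fun t => L t * dth η t := h.mul (continuous_dth η)
  have h2 : Continuous fun t => L' t * dth η t := h'.mul (continuous_dth η)
  unfold Av
  simp only [add_mul]
  rw [intervalIntegral.integral_add (h1.intervalIntegrable _ _) (h2.intervalIntegrable _ _),
    mul_add]

theorem tendsto_rg {aa : ℂ → ℂ} (k j : Fin n) (haa : DifferentiableOn ℂ aa (Metric.ball 0 1))
    (he : ∀ u ∈ Metric.ball (0 : ℂ) 1, Complex.exp (aa u) = psi Φ k j 0 u) :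
    Tendsto (fun R : ℝ => (Av η fun t => aa (R * w t)).re) (𝓝[<] 1)
      (𝓝 (rg η F b k j - if j = k then lam (wr κ) else 0)) := by
  obtain ⟨Λ, hΛc, hΛ⟩ := exists_clog (Ef_cont S P B hm hprod k j) (Ef_ne S P B hm hprod k j)
  have hc1 : Continuous fun t => Λ (1, t) := hΛc.comp (by fun_prop)
  -- the symmetry
  have hsymm : ∀ t, Λ (1, 1 - t) = Λ (1, t) := by
    have hE : ∀ t, Ef F b m w k j (1, 1 - t) = Ef F b m w k j (1, t) := by
      intro t
      unfold Ef
      have hq : qp w (1, 1 - t) = qp w (1, t) := by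
        unfold qp
        simp only
        rw [P.symm]
      rw [hq, one_symm S P]
    obtain ⟨c, hc⟩ := log_diff (L := fun t => Λ (1, 1 - t)) (L' := fun t => Λ (1, t))
      (hΛc.comp (by fun_prop)) hc1 fun t => by rw [hΛ, hΛ, hE]
    have h1 := hc (1 / 2)
    have h2 : (c : ℂ) * (2 * π * I) = 0 := by
      have e : (1 : ℝ) - 1 / 2 = 1 / 2 := by norm_num
      simp only [e] at h1
      linear_combination -h1
    intro t
    have h3 := hc t
    simp only [h2, add_zero] at h3
    exact h3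
  -- the value at `1`
  have hval : rg η F b k j - (if j = k then lam (wr κ) else 0) = (Av η fun t => Λ (1, t)).re := by
    have hv : NZ fun t => F k (1, t) - b j :=
      ⟨(one_smooth S P B k).sub contDiff_const, one_ne S P B hprod k j⟩
    by_cases h : j = k
    · have h1 := pr_even (η := η) (v := fun t => F k (1, t) - b j) (L := fun t => Λ (1, t) + l t) hv
        (hc1.add P.contl) (fun t => by
          rw [Complex.exp_add, hΛ, P.exp, ← Ef_one S P B hm hprod k j t, if_pos h])
        (fun t => by rw [hsymm, P.symml])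
      unfold rg
      rw [h1, Av_add hc1 P.contl, add_re, P.mean, if_pos h]
      have hπ := Real.pi_ne_zero
      field_simp
      ring
    · have h1 := pr_even (η := η) (v := fun t => F k (1, t) - b j) (L := fun t => Λ (1, t)) hv
        hc1 (fun t => by
          rw [hΛ, ← Ef_one S P B hm hprod k j t, if_neg h, mul_one]) hsymm
      unfold rg
      rw [h1, if_neg h]
      have hπ := Real.pi_ne_zero
      field_simp
      ring
  rw [hval]
  -- the limit
  have hcont : Continuous fun R : ℝ => (Av η fun t => Λ (R, t)).re := by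
    refine continuous_re.comp ?_
    unfold Av
    refine continuous_const.mul ?_
    refine intervalIntegral.continuous_parametric_intervalIntegral_of_continuous'
      (f := fun R t => Λ (R, t) * dth η t) ?_ _ _
    exact hΛc.mul ((continuous_dth η).comp continuous_snd)
  have ht := (hcont.tendsto 1).mono_left (nhdsWithin_le_nhds (s := Iio 1))
  refine ht.congr' ?_
  filter_upwards [Ioo_mem_nhdsLT (show (0 : ℝ) < 1 from zero_lt_one)] with R hR
  have hmem : ∀ t, (R : ℂ) * w t ∈ Metric.ball (0 : ℂ) 1 := fun t => by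
    rw [mem_ball_zero_iff, norm_mul, Complex.norm_real, Real.norm_eq_abs, abs_of_pos hR.1]
    nlinarith [P.le t, norm_nonneg (w t), hR.1, hR.2]
  have ca : Continuous fun t => aa (R * w t) :=
    haa.continuousOn.comp_continuous (continuous_const.mul P.cont) hmem
  obtain ⟨c, hc⟩ := log_diff (L := fun t => Λ (R, t)) (L' := fun t => aa (R * w t))
    (hΛc.comp (by fun_prop)) ca fun t => by
      rw [hΛ, he _ (hmem t), Ef_psi S P B hm hprod k j hR.1 hR.2]
  have e : (fun t => Λ (R, t)) = fun t => aa (R * w t) + (c : ℂ) * (2 * π * I) := funext hc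
  rw [e, Av_add ca continuous_const, add_re, Av_const_re, add_zero]

end Sq

end Pool.Agent.N686.RR
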