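import Pool.Agent.N686.RR.Slit
import Pool.Agent.N686.EL.Ker2
set_option autoImplicit false

/-!
The bound for the sum of the squares of the moments.
-/

namespace Pool.Agent.N686.RR

open Set Filter Topology Complex MeasureTheory

open Pool.Agent.TH826.MK (circ norm_circ)

open Pool.Agent.N686.EL (lg circ_one_neg circ_add ae_shift ii_one int_sub_one int_add_one
  intervalIntegrable_lg_one ae_circ_ne_one lg_add_one)

open scoped Real ComplexConjugate

/-- the function `w` on the segment -/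
structure Wr (κ : ℝ) (w : ℝ → ℂ) : Prop where
  cont : Continuous w
  le : ∀ t, ‖w t‖ ≤ 1
  ne : ∀ t, 1 + w t ^ 2 ≠ 0
  eq : ∀ t, ff (w t) = ((2 * Real.cos (2 * π * t) - κ : ℝ) : ℂ)

/-- the moments -/
noncomputable def pm (w : ℝ → ℂ) (m : ℕ) : ℝ := ∫ t in (0 : ℝ)..1, (w t ^ m).re

noncomputable def lam (w : ℝ → ℂ) : ℝ := ∫ t in (0 : ℝ)..1, Real.log ‖1 + w t ^ 2‖

theorem circ_one_eq (t : ℝ) : circ 1 t = (Real.cos (2 * π * t) : ℂ) + (Real.sin (2 * π * t) : ℂ) * I := by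
  unfold circ
  rw [Complex.ofReal_one, one_mul, show (2 * π * I * t : ℂ) = ((2 * π * t : ℝ) : ℂ) * I by push_cast; ring,
    Complex.exp_mul_I, Complex.ofReal_cos, Complex.ofReal_sin]

theorem circ_mul_conj (t : ℝ) : circ 1 t * conj (circ 1 t) = 1 := by
  rw [Complex.mul_conj, Complex.normSq_eq_norm_sq, norm_circ zero_le_one]
  norm_num

theorem circ_add_conj (t : ℝ) : circ 1 t + conj (circ 1 t) = ((2 * Real.cos (2 * π * t) : ℝ) : ℂ) := by
  rw [Complex.add_conj, circ_one_eq]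
  congr 1
  rw [add_re, ofReal_re, re_ofReal_mul, I_re]
  ring

theorem norm_cos_sub (t s : ℝ) : |2 * Real.cos (2 * π * t) - 2 * Real.cos (2 * π * s)| =
    ‖1 - circ 1 (t - s)‖ * ‖1 - circ 1 (s + t)‖ := by
  have n1 : ∀ x, ‖circ 1 x‖ = 1 := fun x => norm_circ zero_le_one x
  have n2 : ∀ x, ‖conj (circ 1 x)‖ = 1 := fun x => by rw [RCLike.norm_conj, n1]
  have hs := circ_mul_conj s
  have ht := circ_mul_conj t
  have e1 : ‖1 - circ 1 (t - s)‖ = ‖circ 1 s - circ 1 t‖ := by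
    have h : circ 1 s - circ 1 t = circ 1 s * (1 - circ 1 (t - s)) := by
      rw [mul_sub, mul_one, ← circ_add]
      congr 2
      ring
    rw [h, norm_mul, n1, one_mul]
  have e2 : ‖1 - circ 1 (s + t)‖ = ‖conj (circ 1 s) - circ 1 t‖ := by
    have h : conj (circ 1 s) - circ 1 t = conj (circ 1 s) * (1 - circ 1 (s + t)) := by
      rw [circ_add]
      linear_combination (circ 1 t) * hs
    rw [h, norm_mul, n2, one_mul]
  rw [e1, e2, ← norm_mul]
  have h3 : ((2 * Real.cos (2 * π * t) - 2 * Real.cos (2 * π * s) : ℝ) : ℂ) =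
      conj (circ 1 t) * ((circ 1 s - circ 1 t) * (conj (circ 1 s) - circ 1 t)) := by
    rw [Complex.ofReal_sub, ← circ_add_conj, ← circ_add_conj]
    linear_combination (-(circ 1 t) + (circ 1 s + conj (circ 1 s))) * ht - conj (circ 1 t) * hs
  rw [← Real.norm_eq_abs, ← Complex.norm_real, h3, norm_mul, n2, one_mul]

theorem norm_one_sub_mul {r : ℝ} (hr0 : 0 ≤ r) (hr1 : r ≤ 1) {w w' : ℂ} (hw : ‖w‖ ≤ 1)
    (hw' : ‖w'‖ ≤ 1) : Real.sqrt r * ‖w - w'‖ ≤ ‖1 - r * (w * conj w')‖ := by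
  refine le_of_sq_le_sq ?_ (norm_nonneg _)
  rw [mul_pow, Real.sq_sqrt hr0, ← Complex.normSq_eq_norm_sq, ← Complex.normSq_eq_norm_sq,
    Complex.normSq_apply, Complex.normSq_apply]
  have h1 : w.re ^ 2 + w.im ^ 2 ≤ 1 := by
    have h := norm_nonneg w
    have h2 : ‖w‖ ^ 2 = w.re ^ 2 + w.im ^ 2 := by
      rw [← Complex.normSq_eq_norm_sq, Complex.normSq_apply]
      ring
    nlinarith
  have h2 : w'.re ^ 2 + w'.im ^ 2 ≤ 1 := by
    have h := norm_nonneg w'
    have h2 : ‖w'‖ ^ 2 = w'.re ^ 2 + w'.im ^ 2 := by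
      rw [← Complex.normSq_eq_norm_sq, Complex.normSq_apply]
      ring
    nlinarith
  have e1 : (1 - r * (w * conj w') : ℂ).re = 1 - r * (w.re * w'.re + w.im * w'.im) := by
    rw [sub_re, re_ofReal_mul, mul_re, conj_re, conj_im, one_re]
    ring
  have e2 : (1 - r * (w * conj w') : ℂ).im = -(r * (w.im * w'.re - w.re * w'.im)) := by
    rw [sub_im, im_ofReal_mul, mul_im, conj_re, conj_im, one_im]
    ring
  rw [e1, e2, sub_re, sub_im]
  have h3 : 0 ≤ (1 - r * (w.re ^ 2 + w.im ^ 2)) * (1 - r * (w'.re ^ 2 + w'.im ^ 2)) :=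
    mul_nonneg (by nlinarith [sq_nonneg w.re, sq_nonneg w.im])
      (by nlinarith [sq_nonneg w'.re, sq_nonneg w'.im])
  nlinarith

theorem norm_one_sub {r : ℝ} (hr0 : 0 ≤ r) (hr1 : r ≤ 1) {z : ℂ} (hz : ‖z‖ ≤ 1) :
    (1 + r) / 2 * ‖1 - z‖ ≤ ‖1 - r * z‖ := by
  refine le_of_sq_le_sq ?_ (norm_nonneg _)
  rw [mul_pow, ← Complex.normSq_eq_norm_sq, ← Complex.normSq_eq_norm_sq,
    Complex.normSq_apply, Complex.normSq_apply]
  have h1 : z.re ^ 2 + z.im ^ 2 ≤ 1 := by
    have h := norm_nonneg z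
    have h2 : ‖z‖ ^ 2 = z.re ^ 2 + z.im ^ 2 := by
      rw [← Complex.normSq_eq_norm_sq, Complex.normSq_apply]
      ring
    nlinarith
  have h2 : -1 ≤ z.re := (abs_le.1 ((Complex.abs_re_le_norm z).trans hz)).1
  have e1 : (1 - r * z : ℂ).re = 1 - r * z.re := by
    rw [sub_re, re_ofReal_mul, one_re]
  have e2 : (1 - r * z : ℂ).im = -(r * z.im) := by
    rw [sub_im, im_ofReal_mul, one_im]
    ring
  rw [e1, e2, sub_re, sub_im, one_re, one_im]
  have h3 : 0 ≤ (1 - r) * ((3 + r) + 2 * (1 - r) * z.re - (3 * r + 1) * (z.re ^ 2 + z.im ^ 2)) := by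
    refine mul_nonneg (by linarith) ?_
    nlinarith
  nlinarith

/-- the kernel -/
noncomputable def KK (r : ℝ) (w : ℝ → ℂ) (t s : ℝ) : ℝ :=
  Real.log ‖1 - r * (w t * w s)‖ + Real.log ‖1 - r * (w t * conj (w s))‖

theorem one_sub_ne {r : ℝ} (hr0 : 0 ≤ r) (hr1 : r < 1) {z : ℂ} (hz : ‖z‖ ≤ 1) : 1 - r * z ≠ 0 := by
  intro h
  have h1 : (r : ℂ) * z = 1 := by linear_combination -h
  have h2 : r * ‖z‖ = 1 := by
    have h3 := congrArg norm h1
    rw [norm_mul, Complex.norm_real, Real.norm_eq_abs, abs_of_nonneg hr0, norm_one] at h3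
    exact h3
  nlinarith

theorem hasSum_log {r : ℝ} (hr0 : 0 ≤ r) (hr1 : r < 1) {z : ℂ} (hz : ‖z‖ ≤ 1) :
    HasSum (fun m : ℕ => r ^ m / m * (z ^ m).re) (-Real.log ‖1 - r * z‖) := by
  have hn : ‖(r : ℂ) * z‖ < 1 := by
    rw [norm_mul, Complex.norm_real, Real.norm_eq_abs, abs_of_nonneg hr0]
    nlinarith [norm_nonneg z]
  have h := Complex.hasSum_re (Complex.hasSum_taylorSeries_neg_log hn)
  rw [Complex.neg_re, Complex.log_re] at h
  convert h using 2 with m
  have e : ((r : ℂ) * z) ^ m / m = ((r ^ m / m : ℝ) : ℂ) * z ^ m := by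
    rw [mul_pow]
    push_cast
    ring
  rw [e, Complex.re_ofReal_mul]

/-- integration of series -/
theorem hasSum_int {F : ℕ → ℝ → ℝ} (hF : ∀ m, Continuous (F m)) {r : ℝ} (hr0 : 0 ≤ r) (hr1 : r < 1)
    (hb : ∀ m t, |F m t| ≤ r ^ m) {G : ℝ → ℝ} (hG : ∀ t, HasSum (fun m => F m t) (G t)) :
    HasSum (fun m => ∫ t in (0 : ℝ)..1, F m t) (∫ t in (0 : ℝ)..1, G t) := by
  set f : ℕ → C(ℝ, ℝ) := fun j => ⟨F j, hF j⟩ with hf
  have hsum : Summable fun j => ‖(f j).restrict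
      (⟨uIcc (0 : ℝ) 1, isCompact_uIcc⟩ : TopologicalSpace.Compacts ℝ)‖ := by
    refine Summable.of_nonneg_of_le (fun j => norm_nonneg _) (fun j => ?_)
      (summable_geometric_of_lt_one hr0 hr1)
    rw [ContinuousMap.norm_le _ (pow_nonneg hr0 j)]
    rintro ⟨t, ht⟩
    exact hb j t
  have h := intervalIntegral.hasSum_intervalIntegral_of_summable_norm (a := (0 : ℝ)) (b := 1) hsum
  have e1 : ∀ t, ∑' j, f j t = G t := fun t => (hG t).tsum_eq
  simp only [e1] at h
  exact h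

theorem norm_mul_le_one {a b : ℂ} (ha : ‖a‖ ≤ 1) (hb : ‖b‖ ≤ 1) : ‖a * b‖ ≤ 1 := by
  rw [norm_mul]
  nlinarith [norm_nonneg a, norm_nonneg b]

theorem norm_mul_conj_le_one {a b : ℂ} (ha : ‖a‖ ≤ 1) (hb : ‖b‖ ≤ 1) : ‖a * conj b‖ ≤ 1 :=
  norm_mul_le_one ha (by rwa [RCLike.norm_conj])

theorem re_pow_mul (a b : ℂ) (m : ℕ) : (a ^ m).re * (b ^ m).re =
    1 / 2 * (((a * b) ^ m).re + ((a * conj b) ^ m).re) := by
  rw [mul_pow, mul_pow, ← map_pow, mul_re, mul_re, conj_re, conj_im]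
  ring

variable {κ : ℝ} {w : ℝ → ℂ} (H : Wr κ w) {r : ℝ} (hr0 : 0 < r) (hr1 : r < 1)

include H

theorem abs_pow_re_le (m : ℕ) (t : ℝ) : |(w t ^ m).re| ≤ 1 := by
  refine (Complex.abs_re_le_norm _).trans ?_
  rw [norm_pow]
  exact pow_le_one₀ (norm_nonneg _) (H.le t)

theorem cont_pow_re (m : ℕ) : Continuous fun t => (w t ^ m).re :=
  Complex.continuous_re.comp (H.cont.pow m)

theorem abs_pm_le (m : ℕ) : |pm w m| ≤ 1 := by
  unfold pm
  have h := intervalIntegral.norm_integral_le_of_norm_le_const (a := (0 : ℝ)) (b := 1) (C := 1)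
    (f := fun t => (w t ^ m).re) fun t _ => abs_pow_re_le H m t
  simpa using h

include hr0 hr1

theorem cont_KK (t : ℝ) : Continuous fun s => KK r w t s := by
  have h1 : ∀ s, 1 - (r : ℂ) * (w t * w s) ≠ 0 := fun s =>
    one_sub_ne hr0.le hr1 (norm_mul_le_one (H.le t) (H.le s))
  have h2 : ∀ s, 1 - (r : ℂ) * (w t * conj (w s)) ≠ 0 := fun s =>
    one_sub_ne hr0.le hr1 (norm_mul_conj_le_one (H.le t) (H.le s))
  have hc := H.cont
  have hcc : Continuous fun s => conj (w s) := Complex.continuous_conj.comp hc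
  unfold KK
  refine (Continuous.log ?_ fun s => norm_ne_zero_iff.2 (h1 s)).add
    (Continuous.log ?_ fun s => norm_ne_zero_iff.2 (h2 s))
  · exact (continuous_const.sub (continuous_const.mul (continuous_const.mul hc))).norm
  · exact (continuous_const.sub (continuous_const.mul (continuous_const.mul hcc))).norm

theorem cont_KK2 : Continuous (Function.uncurry fun t s => KK r w t s) := by
  have h1 : ∀ p : ℝ × ℝ, 1 - (r : ℂ) * (w p.1 * w p.2) ≠ 0 := fun p =>
    one_sub_ne hr0.le hr1 (norm_mul_le_one (H.le p.1) (H.le p.2))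
  have h2 : ∀ p : ℝ × ℝ, 1 - (r : ℂ) * (w p.1 * conj (w p.2)) ≠ 0 := fun p =>
    one_sub_ne hr0.le hr1 (norm_mul_conj_le_one (H.le p.1) (H.le p.2))
  have hc1 : Continuous fun p : ℝ × ℝ => w p.1 := H.cont.comp continuous_fst
  have hc2 : Continuous fun p : ℝ × ℝ => w p.2 := H.cont.comp continuous_snd
  have hcc : Continuous fun p : ℝ × ℝ => conj (w p.2) := Complex.continuous_conj.comp hc2
  have e : (Function.uncurry fun t s => KK r w t s) = fun p : ℝ × ℝ =>
      Real.log ‖1 - r * (w p.1 * w p.2)‖ + Real.log ‖1 - r * (w p.1 * conj (w p.2))‖ := rfl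
  rw [e]
  refine (Continuous.log ?_ fun s => norm_ne_zero_iff.2 (h1 s)).add
    (Continuous.log ?_ fun s => norm_ne_zero_iff.2 (h2 s))
  · exact (continuous_const.sub (continuous_const.mul (hc1.mul hc2))).norm
  · exact (continuous_const.sub (continuous_const.mul (hc1.mul hcc))).norm

theorem cont_int_KK : Continuous fun t => ∫ s in (0 : ℝ)..1, KK r w t s :=
  intervalIntegral.continuous_parametric_intervalIntegral_of_continuous' (μ := volume)
    (cont_KK2 H hr0 hr1) 0 1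

omit H in
theorem pow_div_le (m : ℕ) : 0 ≤ r ^ m / m ∧ r ^ m / m ≤ r ^ m := by
  refine ⟨by positivity, ?_⟩
  rcases Nat.eq_zero_or_pos m with hj | hj
  · subst hj
    simp
  · refine div_le_self (pow_nonneg hr0.le m) ?_
    exact_mod_cast hj

theorem hasSum_one (t : ℝ) : HasSum (fun m : ℕ => r ^ m / m * (w t ^ m).re * pm w m)
    (∫ s in (0 : ℝ)..1, -(1 / 2) * KK r w t s) := by
  have h1 := hasSum_int (F := fun m s => r ^ m / m * (w t ^ m).re * (w s ^ m).re)
    (fun m => continuous_const.mul (cont_pow_re H m)) hr0.le hr1 (fun m s => by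
      have h2 := pow_div_le hr0 hr1 m
      rw [abs_mul, abs_mul, abs_of_nonneg h2.1]
      have h3 := abs_pow_re_le H m t
      have h4 := abs_pow_re_le H m s
      calc r ^ m / m * |(w t ^ m).re| * |(w s ^ m).re| ≤ r ^ m / m * 1 * 1 := by
            refine mul_le_mul (mul_le_mul_of_nonneg_left h3 h2.1) h4 (abs_nonneg _) ?_
            rw [mul_one]
            exact h2.1
        _ ≤ r ^ m := by rw [mul_one, mul_one]; exact h2.2)
    (G := fun s => -(1 / 2) * KK r w t s) (fun s => by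
      have h5 := (hasSum_log hr0.le hr1 (norm_mul_le_one (H.le t) (H.le s))).add
        (hasSum_log hr0.le hr1 (norm_mul_conj_le_one (H.le t) (H.le s)))
      have h6 := h5.mul_left (1 / 2)
      have e1 : (fun m : ℕ => r ^ m / m * (w t ^ m).re * (w s ^ m).re) = fun i : ℕ =>
          1 / 2 * (r ^ i / i * ((w t * w s) ^ i).re + r ^ i / i * ((w t * conj (w s)) ^ i).re) := by
        funext m
        rw [mul_assoc, re_pow_mul]
        ring
      have e2 : -(1 / 2) * KK r w t s = 1 / 2 * (-Real.log ‖1 - (r : ℂ) * (w t * w s)‖ +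
          -Real.log ‖1 - (r : ℂ) * (w t * conj (w s))‖) := by
        unfold KK
        ring
      rw [e1, e2]
      exact h6)
  convert h1 using 1
  funext m
  rw [intervalIntegral.integral_const_mul]
  rfl

theorem hasSum_two : HasSum (fun m : ℕ => r ^ m / m * pm w m ^ 2)
    (∫ t in (0 : ℝ)..1, ∫ s in (0 : ℝ)..1, -(1 / 2) * KK r w t s) := by
  have h1 := hasSum_int (F := fun m t => r ^ m / m * (w t ^ m).re * pm w m)
    (fun m => (continuous_const.mul (cont_pow_re H m)).mul continuous_const) hr0.le hr1 (fun m t => by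
      have h2 := pow_div_le hr0 hr1 m
      rw [abs_mul, abs_mul, abs_of_nonneg h2.1]
      have h3 := abs_pow_re_le H m t
      have h4 := abs_pm_le H m
      calc r ^ m / m * |(w t ^ m).re| * |pm w m| ≤ r ^ m / m * 1 * 1 := by
            refine mul_le_mul (mul_le_mul_of_nonneg_left h3 h2.1) h4 (abs_nonneg _) ?_
            rw [mul_one]
            exact h2.1
        _ ≤ r ^ m := by rw [mul_one, mul_one]; exact h2.2)
    (G := fun t => ∫ s in (0 : ℝ)..1, -(1 / 2) * KK r w t s) (hasSum_one H hr0 hr1)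
  convert h1 using 1
  funext m
  have e : ∀ t, r ^ m / m * (w t ^ m).re * pm w m = r ^ m / m * pm w m * (w t ^ m).re := fun t => by
    ring
  simp only [e]
  rw [intervalIntegral.integral_const_mul]
  unfold pm
  ring

/-- the pointwise bound -/
theorem KK_ge {t s : ℝ} (h1 : circ 1 (t - s) ≠ 1) (h2 : circ 1 (s + t) ≠ 1) :
    Real.log (Real.sqrt r * ((1 + r) / 2)) + (lg 1 (t - s) + lg 1 (s + t)) +
      Real.log ‖1 + w t ^ 2‖ + Real.log ‖1 + w s ^ 2‖ ≤ KK r w t s := by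
  have hsr : 0 < Real.sqrt r := Real.sqrt_pos.2 hr0
  have p1 : 0 < ‖1 - circ 1 (t - s)‖ := norm_pos_iff.2 (sub_ne_zero.2 h1.symm)
  have p2 : 0 < ‖1 - circ 1 (s + t)‖ := norm_pos_iff.2 (sub_ne_zero.2 h2.symm)
  have p3 : 0 < ‖1 + w t ^ 2‖ := norm_pos_iff.2 (H.ne t)
  have p4 : 0 < ‖1 + w s ^ 2‖ := norm_pos_iff.2 (H.ne s)
  have e1 : ‖w t - w s‖ * ‖1 - w t * w s‖ =
      ‖1 - circ 1 (t - s)‖ * ‖1 - circ 1 (s + t)‖ * (‖1 + w t ^ 2‖ * ‖1 + w s ^ 2‖) := by
    rw [← norm_mul, ← ff_sub (H.ne t) (H.ne s), norm_mul, norm_mul, ← norm_cos_sub, H.eq, H.eq,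
      ← Complex.ofReal_sub, Complex.norm_real, Real.norm_eq_abs]
    congr 2
    ring
  have q1 := norm_one_sub_mul hr0.le hr1.le (H.le t) (H.le s)
  have q2 := norm_one_sub hr0.le hr1.le (norm_mul_le_one (H.le t) (H.le s))
  have pos1 : 0 < ‖1 - (r : ℂ) * (w t * w s)‖ := norm_pos_iff.2
    (one_sub_ne hr0.le hr1 (norm_mul_le_one (H.le t) (H.le s)))
  have pos2 : 0 < ‖1 - (r : ℂ) * (w t * conj (w s))‖ := norm_pos_iff.2
    (one_sub_ne hr0.le hr1 (norm_mul_conj_le_one (H.le t) (H.le s)))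
  have l1 : lg 1 (t - s) = Real.log ‖1 - circ 1 (t - s)‖ := by
    unfold lg
    rw [Complex.ofReal_one, one_mul]
  have l2 : lg 1 (s + t) = Real.log ‖1 - circ 1 (s + t)‖ := by
    unfold lg
    rw [Complex.ofReal_one, one_mul]
  unfold KK
  rw [l1, l2, ← Real.log_mul p1.ne' p2.ne', ← Real.log_mul (by positivity) (by positivity),
    ← Real.log_mul (by positivity) p3.ne', ← Real.log_mul (by positivity) p4.ne',
    ← Real.log_mul pos1.ne' pos2.ne']
  refine Real.log_le_log (by positivity) ?_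
  calc Real.sqrt r * ((1 + r) / 2) * (‖1 - circ 1 (t - s)‖ * ‖1 - circ 1 (s + t)‖) * ‖1 + w t ^ 2‖ *
        ‖1 + w s ^ 2‖ = ((1 + r) / 2 * ‖1 - w t * w s‖) * (Real.sqrt r * ‖w t - w s‖) := by
        linear_combination (-(Real.sqrt r * ((1 + r) / 2))) * e1
    _ ≤ _ := mul_le_mul q2 q1 (by positivity) pos1.le

omit hr0 hr1 in
theorem cont_log_one : Continuous fun t => Real.log ‖1 + w t ^ 2‖ :=
  Continuous.log (continuous_const.add (H.cont.pow 2)).norm fun t => norm_ne_zero_iff.2 (H.ne t)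

theorem int_KK_ge (t : ℝ) : Real.log (Real.sqrt r * ((1 + r) / 2)) + Real.log ‖1 + w t ^ 2‖ + lam w ≤
    ∫ s in (0 : ℝ)..1, KK r w t s := by
  have i1 : IntervalIntegrable (fun s => lg 1 (t - s)) volume 0 1 := ii_one t
  have i2 : IntervalIntegrable (fun s => lg 1 (s + t)) volume 0 1 := by
    have h := (intervalIntegrable_lg_one (0 + t) (1 + t)).comp_add_right t
    simpa using h
  have i3 : IntervalIntegrable (fun s => Real.log ‖1 + w s ^ 2‖) volume 0 1 :=
    (cont_log_one H).intervalIntegrable _ _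
  have h1 : ∫ s in (0 : ℝ)..1, (Real.log (Real.sqrt r * ((1 + r) / 2)) +
      (lg 1 (t - s) + lg 1 (s + t)) + Real.log ‖1 + w t ^ 2‖ + Real.log ‖1 + w s ^ 2‖) =
      Real.log (Real.sqrt r * ((1 + r) / 2)) + Real.log ‖1 + w t ^ 2‖ + lam w := by
    rw [intervalIntegral.integral_add ((intervalIntegrable_const.add (i1.add i2)).add
      intervalIntegrable_const) i3, intervalIntegral.integral_add
      (intervalIntegrable_const.add (i1.add i2)) intervalIntegrable_const,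
      intervalIntegral.integral_add intervalIntegrable_const (i1.add i2),
      intervalIntegral.integral_add i1 i2, int_sub_one zero_le_one le_rfl,
      int_add_one zero_le_one le_rfl]
    simp only [intervalIntegral.integral_const, sub_zero, one_smul, add_zero]
    rfl
  rw [← h1]
  refine intervalIntegral.integral_mono_ae zero_le_one
    (((intervalIntegrable_const.add (i1.add i2)).add intervalIntegrable_const).add i3)
    ((cont_KK H hr0 hr1 t).intervalIntegrable _ _) ?_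
  have h2 : ∀ᵐ s : ℝ, circ 1 (s + t) ≠ 1 :=
    (quasiMeasurePreserving_add_right volume t).ae ae_circ_ne_one
  filter_upwards [ae_shift t, h2] with s hs1 hs2
  exact KK_ge H hr0 hr1 hs1 hs2

theorem int_int_KK_ge : Real.log (Real.sqrt r * ((1 + r) / 2)) + 2 * lam w ≤
    ∫ t in (0 : ℝ)..1, ∫ s in (0 : ℝ)..1, KK r w t s := by
  have i3 : IntervalIntegrable (fun s => Real.log ‖1 + w s ^ 2‖) volume 0 1 :=
    (cont_log_one H).intervalIntegrable _ _
  have h1 : ∫ t in (0 : ℝ)..1, (Real.log (Real.sqrt r * ((1 + r) / 2)) + Real.log ‖1 + w t ^ 2‖ +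
      lam w) = Real.log (Real.sqrt r * ((1 + r) / 2)) + 2 * lam w := by
    rw [intervalIntegral.integral_add (intervalIntegrable_const.add i3) intervalIntegrable_const,
      intervalIntegral.integral_add intervalIntegrable_const i3]
    simp only [intervalIntegral.integral_const, sub_zero, one_smul]
    have : ∫ t in (0 : ℝ)..1, Real.log ‖1 + w t ^ 2‖ = lam w := rfl
    rw [this]
    ring
  rw [← h1]
  refine intervalIntegral.integral_mono_on zero_le_one
    ((intervalIntegrable_const.add i3).add intervalIntegrable_const)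
    ((cont_int_KK H hr0 hr1).intervalIntegrable _ _) fun t _ => int_KK_ge H hr0 hr1 t

theorem sum_le_r (M : ℕ) : ∑ m ∈ Finset.Icc 1 M, r ^ m / m * pm w m ^ 2 ≤
    -(1 / 2) * (Real.log (Real.sqrt r * ((1 + r) / 2)) + 2 * lam w) := by
  have h1 := hasSum_two H hr0 hr1
  have h2 : ∑ m ∈ Finset.Icc 1 M, r ^ m / m * pm w m ^ 2 ≤
      ∫ t in (0 : ℝ)..1, ∫ s in (0 : ℝ)..1, -(1 / 2) * KK r w t s :=
    sum_le_hasSum _ (fun m _ => mul_nonneg (pow_div_le hr0 hr1 m).1 (sq_nonneg _)) h1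
  refine h2.trans ?_
  simp only [intervalIntegral.integral_const_mul]
  have h3 := int_int_KK_ge H hr0 hr1
  linarith

omit hr0 hr1 in
/-- **The bound** -/
theorem sum_pm_le (M : ℕ) : ∑ m ∈ Finset.Icc 1 M, pm w m ^ 2 / m ≤ -lam w := by
  have h1 : Tendsto (fun r : ℝ => ∑ m ∈ Finset.Icc 1 M, r ^ m / m * pm w m ^ 2) (𝓝[<] 1)
      (𝓝 (∑ m ∈ Finset.Icc 1 M, (1 : ℝ) ^ m / m * pm w m ^ 2)) := by
    refine tendsto_nhdsWithin_of_tendsto_nhds ?_
    have : Continuous fun r : ℝ => ∑ m ∈ Finset.Icc 1 M, r ^ m / m * pm w m ^ 2 := by fun_prop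
    exact this.tendsto 1
  have h2 : Tendsto (fun r : ℝ => -(1 / 2) * (Real.log (Real.sqrt r * ((1 + r) / 2)) + 2 * lam w))
      (𝓝[<] 1) (𝓝 (-(1 / 2) * (Real.log (Real.sqrt 1 * ((1 + 1) / 2)) + 2 * lam w))) := by
    refine tendsto_nhdsWithin_of_tendsto_nhds ?_
    have hc : ContinuousAt (fun r : ℝ => Real.log (Real.sqrt r * ((1 + r) / 2))) 1 := by
      refine ContinuousAt.log (by fun_prop) ?_
      rw [Real.sqrt_one]
      norm_num
    exact ((hc.add continuousAt_const).const_mul _)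
  have h3 : ∀ᶠ r : ℝ in 𝓝[<] 1, ∑ m ∈ Finset.Icc 1 M, r ^ m / m * pm w m ^ 2 ≤
      -(1 / 2) * (Real.log (Real.sqrt r * ((1 + r) / 2)) + 2 * lam w) := by
    have h4 : Ioo (0 : ℝ) 1 ∈ 𝓝[<] (1 : ℝ) := Ioo_mem_nhdsLT zero_lt_one
    filter_upwards [h4] with r hr
    exact sum_le_r H hr.1 hr.2 M
  have h5 := le_of_tendsto_of_tendsto h1 h2 h3
  rw [Real.sqrt_one] at h5
  have e1 : Real.log (1 * ((1 + 1) / 2)) = 0 := by norm_num
  rw [e1, zero_add] at h5
  have e2 : ∑ m ∈ Finset.Icc 1 M, pm w m ^ 2 / m = ∑ m ∈ Finset.Icc 1 M, (1 : ℝ) ^ m / m * pm w m ^ 2 :=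
    Finset.sum_congr rfl fun m _ => by
      rw [one_pow]
      ring
  rw [e2]
  linarith

omit hr0 hr1 in
theorem norm_w_lt {t : ℝ} (h : |2 * Real.cos (2 * π * t) - κ| < 1 / 2) : ‖w t‖ < 1 := by
  refine lt_of_le_of_ne (H.le t) fun h1 => ?_
  have h2 := H.eq t
  unfold ff at h2
  rw [div_eq_iff (H.ne t)] at h2
  have h3 := congrArg norm h2
  rw [norm_mul, Complex.norm_real, Real.norm_eq_abs, h1] at h3
  have h4 : ‖1 + w t ^ 2‖ ≤ 2 := by
    refine (norm_add_le _ _).trans ?_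
    rw [norm_one, norm_pow, h1]
    norm_num
  have h5 := abs_nonneg (2 * Real.cos (2 * π * t) - κ)
  nlinarith [norm_nonneg (1 + w t ^ 2)]

omit hr0 hr1 in
/-- the integral of `log |w|` -/
theorem lam_neg {α : ℝ} (hα : κ = 2 * Real.cos (2 * π * α)) (hα0 : 0 < α) (hα1 : α < 1 / 2) :
    lam w < 0 := by
  have i1 : IntervalIntegrable (fun s => lg 1 (α - s)) volume 0 1 := ii_one α
  have i2 : IntervalIntegrable (fun s => lg 1 (s + α)) volume 0 1 := by
    have h := (intervalIntegrable_lg_one (0 + α) (1 + α)).comp_add_right α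
    simpa using h
  have i3 : IntervalIntegrable (fun s => Real.log ‖1 + w s ^ 2‖) volume 0 1 :=
    (cont_log_one H).intervalIntegrable _ _
  have e1 : lam w = ∫ s in (0 : ℝ)..1, (Real.log ‖1 + w s ^ 2‖ + (lg 1 (α - s) + lg 1 (s + α))) := by
    rw [intervalIntegral.integral_add i3 (i1.add i2), intervalIntegral.integral_add i1 i2,
      int_sub_one zero_le_one le_rfl, int_add_one zero_le_one le_rfl, add_zero, add_zero]
    rfl
  have h2 : ∀ᵐ s : ℝ, circ 1 (s + α) ≠ 1 :=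
    (quasiMeasurePreserving_add_right volume α).ae ae_circ_ne_one
  have key : ∀ᵐ s : ℝ, Real.log ‖1 + w s ^ 2‖ + (lg 1 (α - s) + lg 1 (s + α)) = Real.log ‖w s‖ ∧
      w s ≠ 0 := by
    filter_upwards [ae_shift α, h2] with s hs1 hs2
    have p1 : 0 < ‖1 - circ 1 (α - s)‖ := norm_pos_iff.2 (sub_ne_zero.2 hs1.symm)
    have p2 : 0 < ‖1 - circ 1 (s + α)‖ := norm_pos_iff.2 (sub_ne_zero.2 hs2.symm)
    have p3 : 0 < ‖1 + w s ^ 2‖ := norm_pos_iff.2 (H.ne s)
    have l1 : lg 1 (α - s) = Real.log ‖1 - circ 1 (α - s)‖ := by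
      unfold lg
      rw [Complex.ofReal_one, one_mul]
    have l2 : lg 1 (s + α) = Real.log ‖1 - circ 1 (s + α)‖ := by
      unfold lg
      rw [Complex.ofReal_one, one_mul]
    have h3 := H.eq s
    unfold ff at h3
    rw [div_eq_iff (H.ne s)] at h3
    have h4 : ‖w s‖ = ‖1 - circ 1 (α - s)‖ * ‖1 - circ 1 (s + α)‖ * ‖1 + w s ^ 2‖ := by
      rw [← norm_cos_sub, abs_sub_comm, ← hα]
      conv_lhs => rw [h3]
      rw [norm_mul, Complex.norm_real, Real.norm_eq_abs]
    constructor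
    · rw [l1, l2, ← Real.log_mul p1.ne' p2.ne', ← Real.log_mul p3.ne' (by positivity), h4]
      congr 1
      ring
    · rw [← norm_pos_iff, h4]
      positivity
  rw [e1]
  have h5 := intervalIntegral.integral_lt_integral_of_ae_le_of_measure_setOf_lt_ne_zero
    (a := (0 : ℝ)) (b := 1) (μ := volume)
    (f := fun s => Real.log ‖1 + w s ^ 2‖ + (lg 1 (α - s) + lg 1 (s + α))) (g := fun _ => (0 : ℝ))
    zero_le_one (i3.add (i1.add i2)) intervalIntegrable_const ?_ ?_
  · simpa using h5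
  · refine ae_restrict_of_ae ?_
    filter_upwards [key] with s hs
    rw [hs.1]
    exact Real.log_nonpos (norm_nonneg _) (H.le s)
  · intro h0
    set U : Set ℝ := Ioo 0 1 ∩ {t | |2 * Real.cos (2 * π * t) - κ| < 1 / 2} with hU
    have hUo : IsOpen U := isOpen_Ioo.inter (isOpen_lt (by fun_prop) continuous_const)
    have hUn : U.Nonempty := ⟨α, ⟨hα0, by linarith⟩, by
      show |2 * Real.cos (2 * π * α) - κ| < 1 / 2
      rw [hα, sub_self, abs_zero]
      norm_num⟩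
    have hpos := hUo.measure_pos volume hUn
    have h6 : volume.restrict (Ioc 0 1) U = 0 := by
      refine measure_mono_null_ae ?_ h0
      have h7 := ae_restrict_of_ae (s := Ioc (0 : ℝ) 1) key
      filter_upwards [h7] with s hs hsU
      show Real.log ‖1 + w s ^ 2‖ + (lg 1 (α - s) + lg 1 (s + α)) < 0
      rw [hs.1]
      exact Real.log_neg (norm_pos_iff.2 hs.2) (norm_w_lt H hsU.2)
    rw [Measure.restrict_apply hUo.measurableSet] at h6
    have h8 : U ∩ Ioc 0 1 = U := inter_eq_left.2 fun x hx => ⟨hx.1.1, hx.1.2.le⟩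
    rw [h8] at h6
    exact hpos.ne' h6

end Pool.Agent.N686.RR
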