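import Pool.Agent.N686.RR.Cs
import Pool.Agent.N686.RR.Sb
set_option autoImplicit false

/-!
The paths, and the means over them.
-/

namespace Pool.Agent.N686.RR

open Set Filter Topology Complex MeasureTheory

open Pool.Agent.N76.EC (th Wp Zp th_re th_im th_neg hasDerivAt_th contDiff_Wp contDiff_Zp nz_Zp Zp_add_one
  Zp_ne_zero Zp_add_inv Wp_neg Wp_add_one Wp_add_int Wp_of_sin ld hasDerivAt_log continuous_ld cos_im_zero)

open Pool.Agent.TH826.UH (pr NZ pr_mul pr_div pr_one cont_int pairing_eq_pr)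

open Pool.Agent.TH826.MK (pairing Good Per pairing_steinberg)

open scoped Real ComplexConjugate

/-! ### The regulator integral and continuous logarithms -/

theorem ld_Zp (η t : ℝ) : ld (Zp η) t = dth η t * I := by
  have h1 : HasDerivAt (Zp η) (Complex.exp (th η t * I) * (dth η t * I)) t :=
    ((hasDerivAt_th' η t).mul_const I).cexp
  unfold ld
  rw [h1.deriv]
  unfold Zp
  rw [mul_div_cancel_left₀ _ (Complex.exp_ne_zero _)]

/-- a continuous logarithm of a differentiable function is differentiable -/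
theorem hasDerivAt_clog {v L : ℝ → ℂ} (hv : NZ v) (hLc : Continuous L) (hL : ∀ t, exp (L t) = v t)
    (t : ℝ) : HasDerivAt L (ld v t) t := by
  have hd : HasDerivAt v (deriv v t) t := (hv.smooth.differentiable (by norm_num) t).hasDerivAt
  have h1 : ∀ᶠ y in 𝓝 t, L y = L t + Complex.log (v y / v t) := by
    have h2 : ∀ᶠ y in 𝓝 t, ‖L y - L t‖ < 3 := by
      have h3 : ContinuousAt (fun y => ‖L y - L t‖) t :=
        (hLc.continuousAt.sub continuousAt_const).norm
      refine h3.eventually_lt continuousAt_const ?_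
      simp
    filter_upwards [h2] with y hy
    have h4 : v y / v t = Complex.exp (L y - L t) := by
      rw [Complex.exp_sub, hL, hL]
    have h7 := Complex.abs_im_le_norm (L y - L t)
    have h8 := Real.pi_gt_three
    have h9 := abs_lt.1 (h7.trans_lt hy)
    rw [h4, Complex.log_exp (by linarith) (by linarith)]
    ring
  have h2 : HasDerivAt (fun y => v y / v t) (deriv v t / v t) t := hd.div_const _
  have h3 : v t / v t ∈ slitPlane := by
    rw [div_self (hv.ne_zero t)]
    exact one_mem_slitPlane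
  have h4 := h2.clog_real h3
  rw [div_self (hv.ne_zero t), div_one] at h4
  exact (h4.const_add (L t)).congr_of_eventuallyEq h1

theorem pr_log {Z v L : ℝ → ℂ} (hZ : NZ Z) (perZ : Z 1 = Z 0) (hv : NZ v)
    (hLc : Continuous L) (hL : ∀ t, exp (L t) = v t) (hper : L 1 = L 0) :
    pr Z v = -∫ s in (0 : ℝ)..1, (ld Z s * L s).im := by
  have hl := hasDerivAt_clog hv hLc hL
  have hA : ∀ s, HasDerivAt (fun s => Real.log ‖Z s‖ * (L s).im)
      ((ld Z s).re * (L s).im + Real.log ‖Z s‖ * (ld v s).im) s := by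
    intro s
    have h1 : HasDerivAt (fun s => (L s).im) (ld v s).im s :=
      imCLM.hasFDerivAt.comp_hasDerivAt s (hl s)
    exact (hasDerivAt_log hZ s).mul h1
  have c1 : Continuous fun s => (ld Z s).re * (L s).im :=
    (continuous_re.comp (continuous_ld hZ)).mul (continuous_im.comp hLc)
  have c2 : Continuous fun s => Real.log ‖Z s‖ * (ld v s).im :=
    hZ.cont_log.mul (continuous_im.comp (continuous_ld hv))
  have hint := intervalIntegral.integral_eq_sub_of_hasDerivAt (a := 0) (b := 1) (fun s _ => hA s)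
    ((c1.add c2).intervalIntegrable _ _)
  rw [perZ, hper, sub_self, intervalIntegral.integral_add (c1.intervalIntegrable _ _)
    (c2.intervalIntegrable _ _)] at hint
  have c3 : Continuous fun s => Real.log ‖v s‖ * (ld Z s).im :=
    hv.cont_log.mul (continuous_im.comp (continuous_ld hZ))
  have e0 : pr Z v = ∫ s in (0 : ℝ)..1, (Real.log ‖Z s‖ * (ld v s).im -
      Real.log ‖v s‖ * (ld Z s).im) := rfl
  rw [e0, intervalIntegral.integral_sub (c2.intervalIntegrable _ _) (c3.intervalIntegrable _ _)]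
  have e2 : (∫ s in (0 : ℝ)..1, (ld Z s * L s).im) =
      (∫ s in (0 : ℝ)..1, (ld Z s).re * (L s).im) + ∫ s in (0 : ℝ)..1, Real.log ‖v s‖ * (ld Z s).im := by
    rw [← intervalIntegral.integral_add (c1.intervalIntegrable _ _) (c3.intervalIntegrable _ _)]
    refine intervalIntegral.integral_congr fun s _ => ?_
    show (ld Z s * L s).im = _
    have e3 : Real.log ‖v s‖ = (L s).re := by rw [← hL, Complex.norm_exp, Real.log_exp]
    rw [Complex.mul_im, e3]
    ring
  rw [e2]
  linarith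

theorem dth_symm (η t : ℝ) : dth η (1 - t) = dth η t := by
  unfold dth
  rw [show 2 * π * (1 - t) = 2 * π - 2 * π * t by ring, Real.cos_two_pi_sub]

/-- **the regulator integral of an even function** -/
theorem pr_even {η : ℝ} {v L : ℝ → ℂ} (hv : NZ v) (hLc : Continuous L)
    (hL : ∀ t, exp (L t) = v t) (hs : ∀ t, L (1 - t) = L t) :
    pr (Zp η) v = -(2 * π) * (Av η L).re := by
  have hZ1 : Zp η 1 = Zp η 0 := by
    have := Zp_add_one η 0
    rwa [zero_add] at this
  have hL1 : L 1 = L 0 := by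
    have := hs 0
    rwa [sub_zero] at this
  rw [pr_log (nz_Zp η) hZ1 hv hLc hL hL1]
  have e1 : ∀ s, (ld (Zp η) s * L s).im = (L s * dth η s).re := by
    intro s
    rw [ld_Zp, show dth η s * I * L s = L s * dth η s * I by ring, Complex.mul_I_im]
  simp only [e1]
  set F : ℝ → ℝ := fun s => (L s * dth η s).re with hF
  have hFc : Continuous F := continuous_re.comp (hLc.mul (continuous_dth η))
  have hFs : ∀ s, F (1 - s) = F s := fun s => by
    simp only [hF]
    rw [hs, dth_symm]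
  have h1 : ∫ s in (0 : ℝ)..1, F s = 2 * ∫ s in (0 : ℝ)..(1 / 2), F s := by
    have h2 : ∫ s in (1 / 2 : ℝ)..1, F s = ∫ s in (0 : ℝ)..(1 / 2), F s := by
      have h3 := intervalIntegral.integral_comp_sub_left (a := (0 : ℝ)) (b := 1 / 2) F 1
      simp only [hFs] at h3
      rw [h3]
      norm_num
    rw [← intervalIntegral.integral_add_adjacent_intervals (b := 1 / 2) (hFc.intervalIntegrable _ _)
      (hFc.intervalIntegrable _ _), h2]
    ring
  rw [h1]
  unfold Av
  have e2 : ((π : ℂ)⁻¹ * ∫ t in (0 : ℝ)..(1 / 2), L t * dth η t).re =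
      π⁻¹ * (∫ t in (0 : ℝ)..(1 / 2), L t * dth η t).re := by
    rw [← Complex.ofReal_inv, re_ofReal_mul]
  have e3 : (∫ t in (0 : ℝ)..(1 / 2), L t * dth η t).re = ∫ s in (0 : ℝ)..(1 / 2), F s := by
    have h8 := Complex.reCLM.intervalIntegral_comp_comm
      ((hLc.mul (continuous_dth η)).intervalIntegrable (μ := volume) 0 (1 / 2))
    simp only [Complex.reCLM_apply] at h8
    exact h8.symm
  rw [e2, e3]
  have hπ := Real.pi_ne_zero
  field_simp

/-! ### The symbol `{z, z + 1/z - κ}` -/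

theorem pr_swap (G H : ℝ → ℂ) : pr G H = -pr H G := by
  unfold pr
  rw [← intervalIntegral.integral_neg]
  refine intervalIntegral.integral_congr fun s _ => ?_
  ring

theorem pr_self (G : ℝ → ℂ) : pr G G = 0 := by
  have := pr_swap G G
  linarith

theorem pr_unit {G : ℝ → ℂ} {c : ℂ} (hc : ‖c‖ = 1) : pr G (fun _ => c) = 0 := by
  unfold pr
  simp [hc]

theorem nz_const {c : ℂ} (hc : c ≠ 0) : NZ fun _ : ℝ => c := ⟨contDiff_const, fun _ => hc⟩

theorem pr_steinberg {G H : ℝ → ℂ} (hG : NZ G) (hH : NZ H) (pG : ∀ t, G (t + 1) = G t)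
    (pH : ∀ t, H (t + 1) = H t) (h : ∀ t, G t + H t = 1) : pr G H = 0 := by
  rw [← pairing_eq_pr hG hH]
  have hproj : ContDiff ℝ 2 fun θ : Fin 1 → ℝ => θ 0 := contDiff_apply ℝ ℝ 0
  refine pairing_steinberg (p := 0) (q := 1) ?_ ?_ (by decide) ?_
  · intro l
    fin_cases l
    · exact ⟨hG.smooth.comp hproj, fun θ => hG.ne_zero _⟩
    · exact ⟨hH.smooth.comp hproj, fun θ => hH.ne_zero _⟩
  · intro l
    fin_cases l
    · intro θ i
      fin_cases i
      simp [pG]
    · intro θ i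
      fin_cases i
      simp [pH]
  · intro θ
    exact h (θ 0)

theorem pr_sub_root {Z : ℝ → ℂ} (hZ : NZ Z) (perZ : ∀ t, Z (t + 1) = Z t) {ζ : ℂ} (hζ : ‖ζ‖ = 1)
    (hne : ∀ t, Z t ≠ ζ) : pr Z (fun t => Z t - ζ) = 0 := by
  have hζ0 : ζ ≠ 0 := fun h => by rw [h, norm_zero] at hζ; exact zero_ne_one hζ
  have n1 : NZ fun t => Z t / ζ := hZ.div (nz_const hζ0)
  have n2 : NZ fun t => 1 - Z t / ζ := by
    refine ⟨contDiff_const.sub n1.smooth, fun t h => hne t ?_⟩
    have h1 : Z t / ζ = 1 := (sub_eq_zero.1 h).symm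
    rwa [div_eq_one_iff_eq hζ0] at h1
  have h1 : pr (fun t => Z t / ζ) (fun t => 1 - Z t / ζ) = 0 :=
    pr_steinberg n1 n2 (fun t => by rw [perZ]) (fun t => by rw [perZ]) fun t => by ring
  have h2 : pr (fun t => 1 - Z t / ζ) (fun t => Z t / ζ) = 0 := by
    rw [pr_swap, h1, neg_zero]
  rw [pr_div n2 hZ (nz_const hζ0), pr_unit hζ, sub_zero] at h2
  have e : (fun t => Z t - ζ) = fun t => (-ζ) * (1 - Z t / ζ) := by
    funext t
    field_simp
    ring
  rw [e, pr_mul hZ (nz_const (neg_ne_zero.2 hζ0)) n2, pr_unit (by rwa [norm_neg]), zero_add,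
    pr_swap, h2, neg_zero]

/-- the regulator of `{z, z + 1/z - κ}` -/
theorem pr_Wp {η α : ℝ} (h0 : η ≠ 0) (hα : Real.sin α ≠ 0) :
    pr (Zp η) (fun t => Wp η t - 2 * Real.cos α) = 0 := by
  set ζ : ℂ := Complex.exp (α * I) with hζ
  have hζn : ‖ζ‖ = 1 := by rw [hζ, Complex.norm_exp_ofReal_mul_I]
  have hζ0 : ζ ≠ 0 := Complex.exp_ne_zero _
  have hw : 2 * ((Real.cos α : ℝ) : ℂ) = ζ + ζ⁻¹ := by
    rw [hζ, ← Complex.exp_neg, Complex.ofReal_cos, Complex.cos, mul_div_cancel₀ _ two_ne_zero, neg_mul]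
  have hne : ∀ t, Wp η t - (ζ + ζ⁻¹) ≠ 0 := fun t => by
    rw [← hw, sub_ne_zero, Complex.ofReal_cos]
    exact cos_im_zero h0 hα
  have hfac : ∀ t, Wp η t - (ζ + ζ⁻¹) = (Zp η t - ζ) * (Zp η t - ζ⁻¹) / Zp η t := by
    intro t
    rw [← Zp_add_inv]
    have := Zp_ne_zero η t
    field_simp
    ring
  have h1 : ∀ t, Zp η t ≠ ζ := fun t h => hne t (by rw [hfac, h, sub_self, zero_mul, zero_div])
  have h2 : ∀ t, Zp η t ≠ ζ⁻¹ := fun t h => hne t (by rw [hfac, h, sub_self, mul_zero, zero_div])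
  have n1 : NZ fun t => Zp η t - ζ := ⟨(contDiff_Zp η).sub contDiff_const, fun t => sub_ne_zero.2 (h1 t)⟩
  have n2 : NZ fun t => Zp η t - ζ⁻¹ := ⟨(contDiff_Zp η).sub contDiff_const, fun t => sub_ne_zero.2 (h2 t)⟩
  have e : (fun t => Wp η t - 2 * Real.cos α) = fun t => ((Zp η t - ζ) * (Zp η t - ζ⁻¹)) / Zp η t := by
    funext t
    rw [hw]
    exact hfac t
  rw [e, pr_div (nz_Zp η) (n1.mul n2) (nz_Zp η), pr_mul (nz_Zp η) n1 n2,
    pr_sub_root (nz_Zp η) (Zp_add_one η) hζn h1,
    pr_sub_root (nz_Zp η) (Zp_add_one η) (by rw [norm_inv, hζn, inv_one]) h2, pr_self]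
  ring

end Pool.Agent.N686.RR
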