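import Pool.Agent.N686.RR.Path
set_option autoImplicit false

/-!
The paths.
-/

namespace Pool.Agent.N686.RR

open Set Filter Topology Complex MeasureTheory

open Pool.Agent.N76.EC (th Wp Zp th_re th_im th_neg Wp_neg Wp_add_one Wp_add_int cos_im_zero contDiff_Wp nz_Zp)

open Pool.Agent.TH826.UH (pr NZ pr_mul)

open scoped Real ComplexConjugate

theorem cos_im' (z : ℂ) : (2 * Complex.cos z).im = -(2 * (Real.sin z.re * Real.sinh z.im)) := by
  rw [Complex.cos_eq]
  have e : (2 * (Complex.cos z.re * Complex.cosh z.im - Complex.sin z.re * Complex.sinh z.im * I) : ℂ) =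
      ((2 * (Real.cos z.re * Real.cosh z.im) : ℝ) : ℂ) -
        ((2 * (Real.sin z.re * Real.sinh z.im) : ℝ) : ℂ) * I := by
    push_cast
    ring
  rw [e, sub_im, ofReal_im, im_ofReal_mul, I_im]
  ring

variable {κ : ℝ}

theorem cos_le {z : ℂ} (hz : z ∈ Hs) : (2 * Complex.cos z - κ).im ≤ 0 := by
  rw [sub_im, ofReal_im, sub_zero, cos_im']
  have h1 := Real.sin_nonneg_of_nonneg_of_le_pi hz.1 hz.2.1
  have h2 := Real.sinh_nonneg_iff.2 hz.2.2
  have := mul_nonneg h1 h2
  linarith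

theorem cos_lt {z : ℂ} (hz : z ∈ Hi) : (2 * Complex.cos z - κ).im < 0 := by
  rw [sub_im, ofReal_im, sub_zero, cos_im']
  have h1 := Real.sin_pos_of_pos_of_lt_pi hz.1 hz.2.1
  have h2 := Real.sinh_pos_iff.2 hz.2.2
  have := mul_pos h1 h2
  linarith

theorem Hi_sub : Hi ⊆ Hs := fun _ hz => ⟨hz.1.le, hz.2.1.le, hz.2.2.le⟩

theorem Wp_im (t : ℝ) : (Wp 1 t - κ).im =
    -(2 * (Real.sin (2 * π * t) * Real.sinh (Real.sin (2 * π * t)))) := by
  rw [sub_im, ofReal_im, sub_zero]
  unfold Wp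
  rw [cos_im', th_re, th_im, one_mul]

theorem Wp_le (t : ℝ) : (Wp 1 t - κ).im ≤ 0 := by
  rw [Wp_im]
  have : 0 ≤ Real.sin (2 * π * t) * Real.sinh (Real.sin (2 * π * t)) := by
    rcases le_total 0 (Real.sin (2 * π * t)) with h | h
    · exact mul_nonneg h (Real.sinh_nonneg_iff.2 h)
    · exact mul_nonneg_of_nonpos_of_nonpos h (Real.sinh_nonpos_iff.2 h)
  linarith

theorem Wp_lt {t : ℝ} (ht : Real.sin (2 * π * t) ≠ 0) : (Wp 1 t - κ).im < 0 := by
  rw [Wp_im]
  have : 0 < Real.sin (2 * π * t) * Real.sinh (Real.sin (2 * π * t)) := by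
    rcases lt_or_gt_of_ne ht with h | h
    · exact mul_pos_of_neg_of_neg h (Real.sinh_neg_iff.2 h)
    · exact mul_pos h (Real.sinh_pos_iff.2 h)
  linarith

noncomputable def wc (κ t : ℝ) : ℂ := Wf (Wp 1 t - κ)

noncomputable def wr (κ t : ℝ) : ℂ := Wf ((2 * Real.cos (2 * π * t) - κ : ℝ) : ℂ)

/-- the domain of the functions -/
def Sg : Set ℂ := {w | ‖w‖ ≤ 1 ∧ 1 + w ^ 2 ≠ 0}

theorem Wf_mem {v : ℂ} (hv : v.im ≤ 0) : Wf v ∈ Sg := ⟨norm_Wf_le hv, one_add_sq_ne hv⟩

theorem Wf_mapsTo : MapsTo Wf {v : ℂ | v.im ≤ 0} Sg := fun _ hv => Wf_mem hv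

theorem Av_wc {g : ℂ → ℂ} (hg : ContinuousOn g Sg) (hd : ∀ w : ℂ, ‖w‖ < 1 → DifferentiableAt ℂ g w) :
    Av 1 (fun t => g (wc κ t)) = ∫ x in (0 : ℝ)..1, g (Wf ((2 * Real.cos (π * x) - κ : ℝ) : ℂ)) := by
  have h := Av_shift (h := fun z => g (Wf (2 * Complex.cos z - κ))) (η := 1) ?_ ?_ zero_le_one
  · have e1 : (fun t => g (wc κ t)) = fun t => (fun z => g (Wf (2 * Complex.cos z - κ))) (th 1 t) := rfl
    rw [e1, h]
    refine intervalIntegral.integral_congr fun x _ => ?_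
    show g (Wf (2 * Complex.cos ((π * x : ℝ) : ℂ) - κ)) = _
    rw [← Complex.ofReal_cos]
    congr 2
    push_cast
    ring
  · have h1 : ContinuousOn (fun z : ℂ => 2 * Complex.cos z - κ) Hs :=
      ((continuous_const.mul Complex.continuous_cos).sub continuous_const).continuousOn
    have h2 : ContinuousOn (fun z : ℂ => Wf (2 * Complex.cos z - κ)) Hs :=
      Wf_cont.comp h1 fun z hz => cos_le hz
    exact hg.comp h2 fun z hz => Wf_mem (cos_le hz)
  · intro z hz
    have h1 : DifferentiableAt ℂ (fun z : ℂ => 2 * Complex.cos z - κ) z := by fun_prop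
    have h2 : DifferentiableAt ℂ (fun z : ℂ => Wf (2 * Complex.cos z - κ)) z :=
      DifferentiableAt.comp z (Wf_diff (cos_lt hz)) h1
    exact DifferentiableAt.comp z (hd _ (norm_Wf_lt (cos_lt hz))) h2

theorem fold {f : ℝ → ℝ} (hf : Continuous f) (hs : ∀ t, f (1 - t) = f t) :
    ∫ x in (0 : ℝ)..1, f (x / 2) = ∫ t in (0 : ℝ)..1, f t := by
  have h2 : ∫ s in (1 / 2 : ℝ)..1, f s = ∫ s in (0 : ℝ)..(1 / 2), f s := by
    have h3 := intervalIntegral.integral_comp_sub_left (a := (0 : ℝ)) (b := 1 / 2) f 1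
    simp only [hs] at h3
    rw [h3]
    norm_num
  rw [← intervalIntegral.integral_add_adjacent_intervals (b := 1 / 2) (hf.intervalIntegrable _ _)
    (hf.intervalIntegrable _ _), h2, intervalIntegral.integral_comp_div _ two_ne_zero]
  rw [zero_div, smul_eq_mul]
  ring

theorem Wr_im (κ t : ℝ) : ((2 * Real.cos (2 * π * t) - κ : ℝ) : ℂ).im ≤ 0 := by rw [ofReal_im]

theorem wr_Wr (κ : ℝ) : Wr κ (wr κ) where
  cont := by
    refine Wf_cont.comp_continuous ?_ fun t => Wr_im κ t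
    fun_prop
  le t := norm_Wf_le (Wr_im κ t)
  ne t := one_add_sq_ne (Wr_im κ t)
  eq t := ff_Wf (Wr_im κ t)

theorem cos_symm (t : ℝ) : Real.cos (2 * π * (1 - t)) = Real.cos (2 * π * t) := by
  rw [show 2 * π * (1 - t) = 2 * π - 2 * π * t by ring, Real.cos_two_pi_sub]

theorem wr_symm (κ t : ℝ) : wr κ (1 - t) = wr κ t := by
  unfold wr
  rw [cos_symm]

/-- folding the mean -/
theorem fold_wr {g : ℂ → ℂ} (hg : ContinuousOn g Sg) :
    (∫ x in (0 : ℝ)..1, g (Wf ((2 * Real.cos (π * x) - κ : ℝ) : ℂ))).re =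
      ∫ t in (0 : ℝ)..1, (g (wr κ t)).re := by
  have c0 : Continuous fun t => g (wr κ t) := hg.comp_continuous (wr_Wr κ).cont fun t =>
    Wf_mem (Wr_im κ t)
  have e : ∀ x : ℝ, g (Wf ((2 * Real.cos (π * x) - κ : ℝ) : ℂ)) = g (wr κ (x / 2)) := by
    intro x
    unfold wr
    rw [show 2 * π * (x / 2) = π * x by ring]
  simp only [e]
  have c1 : Continuous fun x : ℝ => g (wr κ (x / 2)) := c0.comp (continuous_id.div_const 2)
  have h8 := Complex.reCLM.intervalIntegral_comp_comm (c1.intervalIntegrable (μ := volume) 0 1)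
  simp only [Complex.reCLM_apply] at h8
  rw [← h8]
  exact fold (f := fun t => (g (wr κ t)).re) (continuous_re.comp c0) fun t => by rw [wr_symm]

/-- the moments, complex -/
noncomputable def mu (κ : ℝ) (m : ℕ) : ℂ :=
  ∫ x in (0 : ℝ)..1, Wf ((2 * Real.cos (π * x) - κ : ℝ) : ℂ) ^ m

theorem mu_re (κ : ℝ) (m : ℕ) : (mu κ m).re = pm (wr κ) m :=
  fold_wr (g := fun w => w ^ m) (continuous_pow m).continuousOn

theorem Av_conj {L : ℝ → ℂ} (hL : Continuous L) :
    Av (-1) (fun t => conj (L t)) = conj (Av 1 L) := by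
  unfold Av
  rw [map_mul, map_inv₀, Complex.conj_ofReal]
  congr 1
  have h8 := (Complex.conjCLE : ℂ →L[ℝ] ℂ).intervalIntegral_comp_comm
    ((hL.mul (continuous_dth 1)).intervalIntegrable (μ := volume) 0 (1 / 2))
  have h9 : ∀ z : ℂ, (Complex.conjCLE : ℂ →L[ℝ] ℂ) z = conj z := fun _ => rfl
  simp only [h9] at h8
  refine Eq.trans ?_ h8
  refine intervalIntegral.integral_congr fun t _ => ?_
  show conj (L t) * dth (-1) t = conj (L t * dth 1 t)
  rw [map_mul]
  congr 1
  unfold dth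
  rw [map_add, map_mul, Complex.conj_ofReal, Complex.conj_ofReal, Complex.conj_I]
  push_cast
  ring

/-- the path -/
structure Pth (κ η : ℝ) (w l : ℝ → ℂ) : Prop where
  cont : Continuous w
  le : ∀ t, ‖w t‖ ≤ 1
  lt : ∀ t, Real.sin (2 * π * t) ≠ 0 → ‖w t‖ < 1
  eq : ∀ t, ff (w t) = Wp η t - κ
  ne : ∀ t, 1 + w t ^ 2 ≠ 0
  ne0 : ∀ t, w t ≠ 0
  contl : Continuous l
  exp : ∀ t, Complex.exp (l t) = w t
  symm : ∀ t, w (1 - t) = w t
  per : ∀ t, w (t + 1) = w t
  symml : ∀ t, l (1 - t) = l t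
  mean : (Av η l).re = lam (wr κ)

theorem Wp_symm (η t : ℝ) : Wp η (1 - t) = Wp η t := by
  rw [show 1 - t = -t + 1 by ring, Wp_add_one, Wp_neg]

/-- the logarithm -/
noncomputable def lc (κ t : ℝ) : ℂ :=
  Complex.log (I * (Wp 1 t - κ)) + (-(π / 2) * I) + Complex.log (1 + wc κ t ^ 2)

theorem wc_cont (κ : ℝ) : Continuous (wc κ) :=
  Wf_cont.comp_continuous ((contDiff_Wp 1).continuous.sub continuous_const) fun t => Wp_le t

theorem wc_symm (κ t : ℝ) : wc κ (1 - t) = wc κ t := by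
  unfold wc
  rw [Wp_symm]

theorem slit_Sg {w : ℂ} (hw : w ∈ Sg) : 1 + w ^ 2 ∈ slitPlane := by
  have h1 : ‖w‖ ^ 2 = w.re ^ 2 + w.im ^ 2 := by
    rw [← Complex.normSq_eq_norm_sq, Complex.normSq_apply]
    ring
  have h2 : (1 + w ^ 2).re = 1 + w.re ^ 2 - w.im ^ 2 := by
    rw [add_re, one_re, pow_two, mul_re]
    ring
  have h3 : (1 + w ^ 2).im = 2 * (w.re * w.im) := by
    rw [add_im, one_im, pow_two, mul_im]
    ring
  have h4 := hw.1
  have h5 := norm_nonneg w
  rw [Complex.mem_slitPlane_iff, h2, h3]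
  by_contra hcon
  push Not at hcon
  have h6 : w.re ^ 2 + w.im ^ 2 ≤ 1 := by nlinarith
  have h7 : w.re = 0 := by nlinarith [sq_nonneg w.re, sq_nonneg w.im, hcon.1]
  have h8 : w.im ^ 2 = 1 := by
    rw [h7] at h6 hcon
    nlinarith [hcon.1]
  refine hw.2 (Complex.ext ?_ ?_)
  · rw [h2, h7, h8]
    norm_num
  · rw [h3, h7]
    norm_num

theorem cont_log_Sg : ContinuousOn (fun w : ℂ => Complex.log (1 + w ^ 2)) Sg := by
  intro w hw
  have h : ContinuousAt (fun w : ℂ => 1 + w ^ 2) w := by fun_prop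
  exact (h.clog (slit_Sg hw)).continuousWithinAt

variable {α : ℝ} (hκ : κ = 2 * Real.cos α) (hα : Real.sin α ≠ 0)

include hκ hα

theorem Wp_ne (t : ℝ) : Wp 1 t - κ ≠ 0 := by
  rw [sub_ne_zero, hκ]
  have := cos_im_zero (η := 1) (t := t) one_ne_zero hα
  push_cast
  exact this

theorem slit_Wp (t : ℝ) : I * (Wp 1 t - κ) ∈ slitPlane := by
  have h1 := Wp_le (κ := κ) t
  have h2 := Wp_ne hκ hα t
  have h3 : (I * (Wp 1 t - κ)).re = -(Wp 1 t - κ).im := by
    rw [Complex.I_mul_re]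
  have h4 : (I * (Wp 1 t - κ)).im = (Wp 1 t - κ).re := by
    rw [Complex.I_mul_im]
  rw [Complex.mem_slitPlane_iff, h3, h4]
  by_contra hcon
  push Not at hcon
  exact h2 (Complex.ext (by rw [hcon.2]; rfl) (by
    have : (Wp 1 t - κ).im = 0 := by linarith [hcon.1]
    rw [this]
    rfl))

theorem lc_cont : Continuous (lc κ) := by
  have h1 : Continuous fun t => Complex.log (I * (Wp 1 t - κ)) :=
    Continuous.clog (continuous_const.mul ((contDiff_Wp 1).continuous.sub continuous_const))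
      (slit_Wp hκ hα)
  have h2 : Continuous fun t => Complex.log (1 + wc κ t ^ 2) :=
    cont_log_Sg.comp_continuous (wc_cont κ) fun t => Wf_mem (Wp_le t)
  exact (h1.add continuous_const).add h2

theorem exp_lc (t : ℝ) : Complex.exp (lc κ t) = wc κ t := by
  unfold lc
  have h1 : 1 + wc κ t ^ 2 ≠ 0 := one_add_sq_ne (Wp_le t)
  have h2 : I * (Wp 1 t - κ) ≠ 0 := mul_ne_zero I_ne_zero (Wp_ne hκ hα t)
  have h3 : Complex.exp (-(π / 2) * I) = -I := by
    rw [neg_mul, Complex.exp_neg, Complex.exp_pi_div_two_mul_I, Complex.inv_I]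
  rw [Complex.exp_add, Complex.exp_add, Complex.exp_log h1, Complex.exp_log h2, h3]
  have h4 : wc κ t = (Wp 1 t - κ) * (1 + wc κ t ^ 2) := Wf_eq (Wp_le t)
  have h5 : I * I = -1 := I_mul_I
  calc I * (Wp 1 t - κ) * -I * (1 + wc κ t ^ 2) = -(I * I) * ((Wp 1 t - κ) * (1 + wc κ t ^ 2)) := by ring
    _ = wc κ t := by rw [h5, ← h4]; ring

theorem mean_lc : (Av 1 (lc κ)).re = lam (wr κ) := by
  have c1 : Continuous fun t => Complex.log (I * (Wp 1 t - κ)) :=
    Continuous.clog (continuous_const.mul ((contDiff_Wp 1).continuous.sub continuous_const))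
      (slit_Wp hκ hα)
  have c2 : Continuous fun t => Complex.log (1 + wc κ t ^ 2) :=
    cont_log_Sg.comp_continuous (wc_cont κ) fun t => Wf_mem (Wp_le t)
  have e : Av 1 (lc κ) = Av 1 (fun t => Complex.log (I * (Wp 1 t - κ))) + (-(π / 2) * I) +
      Av 1 (fun t => Complex.log (1 + wc κ t ^ 2)) := by
    unfold Av lc
    simp only [add_mul]
    rw [intervalIntegral.integral_add, intervalIntegral.integral_add,
      intervalIntegral.integral_const_mul, int_dth]
    · have hπ : (π : ℂ) ≠ 0 := by exact_mod_cast Real.pi_ne_zero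
      field_simp
    · exact (c1.mul (continuous_dth 1)).intervalIntegrable _ _
    · exact (continuous_const.mul (continuous_dth 1)).intervalIntegrable _ _
    · exact ((c1.mul (continuous_dth 1)).add (continuous_const.mul (continuous_dth 1))).intervalIntegrable _ _
    · exact (c2.mul (continuous_dth 1)).intervalIntegrable _ _
  have e1 : (Av 1 (fun t => Complex.log (I * (Wp 1 t - κ)))).re = 0 := by
    have n1 : NZ fun t => Wp 1 t - κ :=
      ⟨(contDiff_Wp 1).sub contDiff_const, fun t => Wp_ne hκ hα t⟩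
    have n2 : NZ fun t => I * (Wp 1 t - κ) := (nz_const I_ne_zero).mul n1
    have h := pr_even (η := 1) (v := fun t => I * (Wp 1 t - κ)) (L := fun t => Complex.log (I * (Wp 1 t - κ)))
      n2 c1 (fun t => Complex.exp_log (n2.ne_zero t)) fun t => by rw [Wp_symm]
    have h2 : pr (Zp 1) (fun t => I * (Wp 1 t - κ)) = 0 := by
      rw [pr_mul (nz_Zp 1) (nz_const I_ne_zero) n1, pr_unit (by simp), zero_add]
      have h3 := pr_Wp (η := 1) one_ne_zero hα
      have e3 : (fun t => Wp 1 t - (κ : ℂ)) = fun t => Wp 1 t - 2 * Real.cos α := by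
        funext t
        rw [hκ]
        push_cast
        ring
      rw [e3]
      exact h3
    rw [h2] at h
    have hπ := Real.pi_ne_zero
    have h4 : -(2 * π) ≠ 0 := neg_ne_zero.2 (mul_ne_zero two_ne_zero hπ)
    exact (mul_eq_zero.1 h.symm).resolve_left h4
  have e2 : ((-(π / 2) * I : ℂ)).re = 0 := by
    have : (-(π / 2) * I : ℂ) = ((-(π / 2) : ℝ) : ℂ) * I := by push_cast; ring
    rw [this, re_ofReal_mul, I_re, mul_zero]
  have e3 : (Av 1 (fun t => Complex.log (1 + wc κ t ^ 2))).re = lam (wr κ) := by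
    rw [Av_wc (g := fun w => Complex.log (1 + w ^ 2)) cont_log_Sg, fold_wr cont_log_Sg]
    · unfold lam
      refine intervalIntegral.integral_congr fun t _ => ?_
      exact Complex.log_re _
    · intro w hw
      have h1 : w ∈ Sg := ⟨hw.le, one_add_sq_ne' hw⟩
      have h2 : DifferentiableAt ℂ (fun w : ℂ => 1 + w ^ 2) w := by fun_prop
      exact h2.clog (slit_Sg h1)
  rw [e, add_re, add_re, e1, e2, e3]
  ring

theorem pth_one : Pth κ 1 (wc κ) (lc κ) where
  cont := wc_cont κ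
  le t := norm_Wf_le (Wp_le t)
  lt t ht := norm_Wf_lt (Wp_lt ht)
  eq t := ff_Wf (Wp_le t)
  ne t := one_add_sq_ne (Wp_le t)
  ne0 t := by
    rw [← exp_lc hκ hα t]
    exact Complex.exp_ne_zero _
  contl := lc_cont hκ hα
  exp := exp_lc hκ hα
  symm := wc_symm κ
  per t := by
    unfold wc
    rw [Wp_add_one]
  symml t := by
    unfold lc
    rw [wc_symm, Wp_symm]
  mean := mean_lc hκ hα

omit hκ hα in
theorem Wp_conj (t : ℝ) : Wp (-1) t = conj (Wp 1 t) := by
  unfold Wp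
  rw [map_mul, ← Complex.cos_conj]
  have h1 : conj (2 : ℂ) = 2 := Complex.conj_ofNat 2
  rw [h1]
  congr 2
  apply Complex.ext
  · rw [conj_re, th_re, th_re]
  · rw [conj_im, th_im, th_im]
    ring

theorem pth_neg : Pth κ (-1) (fun t => conj (wc κ t)) (fun t => conj (lc κ t)) where
  cont := continuous_conj.comp (wc_cont κ)
  le t := by
    rw [RCLike.norm_conj]
    exact norm_Wf_le (Wp_le t)
  lt t ht := by
    rw [RCLike.norm_conj]
    exact norm_Wf_lt (Wp_lt ht)
  eq t := by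
    rw [Wp_conj]
    have h := congrArg conj ((pth_one hκ hα).eq t)
    rw [map_sub, Complex.conj_ofReal] at h
    rw [← h]
    unfold ff
    rw [map_div₀, map_add, map_one, map_pow]
  ne t h := by
    have h1 := congrArg conj h
    rw [map_add, map_one, map_pow, Complex.conj_conj, map_zero] at h1
    exact (pth_one hκ hα).ne t h1
  ne0 t h := by
    rw [map_eq_zero] at h
    exact (pth_one hκ hα).ne0 t h
  contl := continuous_conj.comp (lc_cont hκ hα)
  exp t := by
    rw [Complex.exp_conj, exp_lc hκ hα]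
  symm t := by rw [wc_symm]
  per t := by rw [(pth_one hκ hα).per]
  symml t := by rw [(pth_one hκ hα).symml]
  mean := by
    rw [Av_conj (lc_cont hκ hα), conj_re]
    exact mean_lc hκ hα

omit hκ hα in
theorem mom_one (m : ℕ) : Av 1 (fun t => wc κ t ^ m) = mu κ m :=
  Av_wc (g := fun w => w ^ m) (continuous_pow m).continuousOn fun w _ => by fun_prop

omit hκ hα in
theorem mom_neg (m : ℕ) : Av (-1) (fun t => (conj (wc κ t)) ^ m) = conj (mu κ m) := by
  have h := Av_conj (L := fun t => wc κ t ^ m) ((wc_cont κ).pow m)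
  rw [← mom_one, ← h]
  simp only [map_pow]

end Pool.Agent.N686.RR
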